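import Mathlib
import Pool.Agent.H474R2.GE.FA
import Pool.Agent.H617R3.BT.Defs

/-!
The number of primes `P ≤ y` such that `c * P` is a nonzero square modulo all primes of `F`.
-/

set_option autoImplicit false

namespace Pool.Agent.TH863.D

open Finset Real

/-- `c * r` is a nonzero square modulo `l` -/
def Sq (c l r : ℕ) : Prop := ∃ u : ZMod l, u ≠ 0 ∧ ((c * r : ℕ) : ZMod l) = u ^ 2

lemma Sq_mod {c l r : ℕ} : Sq c l (r % l) ↔ Sq c l r := by
  unfold Sq
  have : ((c * (r % l) : ℕ) : ZMod l) = ((c * r : ℕ) : ZMod l) := by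
    push_cast
    rw [ZMod.natCast_mod]
  rw [this]

lemma card_squares {l : ℕ} [Fact l.Prime] (hl2 : l ≠ 2) :
    2 * (((univ : Finset (ZMod l)).erase 0).image (fun u => u ^ 2)).card ≤ l - 1 := by
  classical
  set U := (univ : Finset (ZMod l)).erase 0 with hU
  set I := U.image (fun u => u ^ 2) with hI
  have hUc : U.card = l - 1 := by
    rw [hU, Finset.card_erase_of_mem (Finset.mem_univ _), Finset.card_univ, ZMod.card]
  have hcard : U.card = ∑ v ∈ I, (U.filter (fun t => t ^ 2 = v)).card :=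
    Finset.card_eq_sum_card_image (fun u => u ^ 2) U
  have h2 : (2 : ZMod l) ≠ 0 := by
    intro h
    have h3 : ((2 : ℕ) : ZMod l) = 0 := by exact_mod_cast h
    rw [ZMod.natCast_eq_zero_iff] at h3
    have hl := (Fact.out : l.Prime)
    exact hl2 ((Nat.prime_dvd_prime_iff_eq hl Nat.prime_two).1 h3)
  have hbig : ∀ v ∈ I, 2 ≤ (U.filter (fun t => t ^ 2 = v)).card := by
    intro v hv
    obtain ⟨t, ht, rfl⟩ := Finset.mem_image.1 hv
    have ht0 : t ≠ 0 := (Finset.mem_erase.1 ht).1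
    have hneq : t ≠ -t := by
      intro h
      apply ht0
      have h3 : 2 * t = 0 := by linear_combination h
      rcases mul_eq_zero.1 h3 with h4 | h4
      · exact absurd h4 h2
      · exact h4
    have hsub : ({t, -t} : Finset (ZMod l)) ⊆ U.filter (fun s => s ^ 2 = t ^ 2) := by
      intro s hs
      rw [Finset.mem_filter, hU, Finset.mem_erase]
      rcases Finset.mem_insert.1 hs with h | h
      · rw [h]
        exact ⟨⟨ht0, Finset.mem_univ _⟩, rfl⟩
      · rw [Finset.mem_singleton.1 h]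
        exact ⟨⟨neg_ne_zero.2 ht0, Finset.mem_univ _⟩, by ring⟩
    calc 2 = ({t, -t} : Finset (ZMod l)).card := (Finset.card_pair hneq).symm
      _ ≤ _ := Finset.card_le_card hsub
  have h3 : 2 * I.card ≤ ∑ v ∈ I, (U.filter (fun t => t ^ 2 = v)).card := by
    rw [mul_comm, ← smul_eq_mul]
    exact Finset.card_nsmul_le_sum _ _ _ hbig
  omega

open Classical in
lemma card_Sq {l : ℕ} (hl : l.Prime) (hl2 : l ≠ 2) (c : ℕ) :
    2 * ((range l).filter (Sq c l)).card ≤ l - 1 := by
  have : Fact l.Prime := ⟨hl⟩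
  by_cases hc : l ∣ c
  · have h1 : (range l).filter (Sq c l) = ∅ := by
      rw [Finset.filter_eq_empty_iff]
      rintro r _ ⟨u, hu, h⟩
      apply hu
      have h2 : ((c * r : ℕ) : ZMod l) = 0 := (ZMod.natCast_eq_zero_iff _ _).2 (hc.mul_right r)
      rw [h2] at h
      exact pow_eq_zero_iff (two_ne_zero) |>.1 h.symm
    rw [h1, Finset.card_empty, mul_zero]
    exact Nat.zero_le _
  · have hc0 : (c : ZMod l) ≠ 0 := by
      rwa [Ne, ZMod.natCast_eq_zero_iff]
    have h1 : ((range l).filter (Sq c l)).card ≤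
        (((univ : Finset (ZMod l)).erase 0).image (fun u => u ^ 2)).card := by
      refine Finset.card_le_card_of_injOn (fun r : ℕ => ((c * r : ℕ) : ZMod l)) ?_ ?_
      · intro r hr
        obtain ⟨u, hu, h⟩ := (Finset.mem_filter.1 hr).2
        exact Finset.mem_coe.2 (Finset.mem_image.2
          ⟨u, Finset.mem_erase.2 ⟨hu, Finset.mem_univ _⟩, h.symm⟩)
      · intro r hr s hs hrs
        have hr' := Finset.mem_range.1 (Finset.mem_filter.1 hr).1
        have hs' := Finset.mem_range.1 (Finset.mem_filter.1 hs).1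
        simp only at hrs
        push_cast at hrs
        have h2 := mul_left_cancel₀ hc0 hrs
        have h3 : r ≡ s [MOD l] := (ZMod.natCast_eq_natCast_iff _ _ _).1 h2
        exact Nat.ModEq.eq_of_lt_of_lt h3 hr' hs'
    have h2 := card_squares (l := l) hl2
    omega

lemma totient_prod (F : Finset ℕ) (hF : ∀ l ∈ F, l.Prime) :
    Nat.totient (∏ l ∈ F, l) = ∏ l ∈ F, (l - 1) := by
  classical
  induction F using Finset.induction_on with
  | empty => simp
  | insert p S hp ih =>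
    have ih' := ih (fun q hq => hF q (Finset.mem_insert_of_mem hq))
    have hpp := hF p (Finset.mem_insert_self _ _)
    rw [Finset.prod_insert hp, Finset.prod_insert hp]
    have hcop : Nat.Coprime p (∏ q ∈ S, q) := by
      refine Nat.Coprime.prod_right fun q hq => ?_
      exact (Nat.coprime_primes hpp (hF q (Finset.mem_insert_of_mem hq))).2
        (fun h => hp (h ▸ hq))
    rw [Nat.totient_mul hcop, ih', Nat.totient_prime hpp]

theorem prime_count : ∃ Z : ℝ, 3 ≤ Z ∧ ∀ (F : Finset ℕ) (c : ℕ) (y : ℝ) (Q : Finset ℕ),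
    (∀ l ∈ F, l.Prime ∧ l ≠ 2) → Z * ((∏ l ∈ F, l : ℕ) : ℝ) ≤ y →
    (∀ P ∈ Q, P.Prime ∧ (P : ℝ) ≤ y ∧ ∀ l ∈ F, Sq c l P) →
    (Q.card : ℝ) ≤ 3 * y / (2 ^ F.card * Real.log (y / ((∏ l ∈ F, l : ℕ) : ℝ))) := by
  classical
  obtain ⟨Z, hZ3, hZ⟩ := Pool.Agent.H617R3.BT.bt 1 one_pos
  refine ⟨Z, hZ3, fun F c y Q hF hy hQ => ?_⟩
  obtain ⟨M, hM⟩ : ∃ M : ℕ, M = ∏ l ∈ F, l := ⟨_, rfl⟩
  have hMpos : 0 < M := by
    rw [hM]
    exact Finset.prod_pos fun l hl => (hF l hl).1.pos
  have hMR : (1 : ℝ) ≤ M := by exact_mod_cast hMpos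
  rw [← hM] at hy ⊢
  have hZy : Z ≤ y / M := by
    rw [le_div_iff₀ (by linarith)]
    exact hy
  have hy0 : 0 < y := by nlinarith
  obtain ⟨R, hR⟩ : ∃ R : Finset ℕ, R = (range M).filter (fun b => ∀ l ∈ F, Sq c l (b % l)) :=
    ⟨_, rfl⟩
  have hRc : R.card * 2 ^ F.card ≤ Nat.totient M := by
    have h1 : R.card = ∏ l ∈ F, ((range l).filter (Sq c l)).card := by
      rw [hR, hM]
      exact Pool.Agent.H474R2.GE.card_crt F (fun l hl => (hF l hl).1) (fun l r => Sq c l r)
    rw [h1, hM, totient_prod F (fun l hl => (hF l hl).1), ← Finset.prod_const,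
      ← Finset.prod_mul_distrib]
    refine Finset.prod_le_prod (fun _ _ => Nat.zero_le _) fun l hl => ?_
    rw [mul_comm]
    exact card_Sq (hF l hl).1 (hF l hl).2 c
  have hsub : Q ⊆ R.biUnion (fun a => Pool.Agent.H617R3.BT.pf y y M a) := by
    intro P hP
    obtain ⟨h1, h2, h3⟩ := hQ P hP
    refine Finset.mem_biUnion.2 ⟨P % M, ?_, ?_⟩
    · rw [hR, Finset.mem_filter, Finset.mem_range]
      refine ⟨Nat.mod_lt _ hMpos, fun l hl => ?_⟩
      have hlM : l ∣ M := by
        rw [hM]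
        exact Finset.dvd_prod_of_mem _ hl
      rw [Nat.mod_mod_of_dvd P hlM]
      exact Sq_mod.2 (h3 l hl)
    · rw [Pool.Agent.H617R3.BT.mem_pf]
      refine ⟨h1, ?_, h2, ?_⟩
      · rw [sub_self]
        exact_mod_cast h1.pos
      · have h4 : (P : ℤ) ≡ ((P % M : ℕ) : ℤ) [ZMOD (M : ℤ)] := by
          push_cast
          exact (Int.mod_modEq _ _).symm
        exact h4
  have h1 : (Q.card : ℝ) ≤ ∑ a ∈ R, ((Pool.Agent.H617R3.BT.pf y y M a).card : ℝ) := by
    exact_mod_cast (Finset.card_le_card hsub).trans Finset.card_biUnion_le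
  have hlog : 0 < Real.log (y / M) := Real.log_pos (by linarith)
  have htot : (0 : ℝ) < Nat.totient M := by exact_mod_cast Nat.totient_pos.2 hMpos
  have h2 : ∀ a ∈ R, ((Pool.Agent.H617R3.BT.pf y y M a).card : ℝ) ≤
      3 * y / ((Nat.totient M : ℝ) * Real.log (y / M)) := by
    intro a _
    rw [← Pool.Agent.H617R3.BT.cnt_eq]
    have := hZ M a y y hMpos hZy
    norm_num at this
    exact this
  have h3 : (Q.card : ℝ) ≤ R.card * (3 * y / ((Nat.totient M : ℝ) * Real.log (y / M))) := by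
    refine h1.trans ((Finset.sum_le_card_nsmul _ _ _ h2).trans ?_)
    rw [nsmul_eq_mul]
  refine h3.trans ?_
  have hRc' : (R.card : ℝ) * 2 ^ F.card ≤ Nat.totient M := by exact_mod_cast hRc
  rw [mul_div_assoc', div_le_div_iff₀ (by positivity) (by positivity)]
  have h4 : 0 ≤ 3 * y * Real.log (y / M) := by positivity
  calc (R.card : ℝ) * (3 * y) * (2 ^ F.card * Real.log (y / M)) =
      (R.card * 2 ^ F.card) * (3 * y * Real.log (y / M)) := by ring
    _ ≤ Nat.totient M * (3 * y * Real.log (y / M)) := mul_le_mul_of_nonneg_right hRc' h4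
    _ = 3 * y * (Nat.totient M * Real.log (y / M)) := by ring

end Pool.Agent.TH863.D
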