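import Mathlib
import Pool.Agent.H474R2.GE.FA
import Pool.Agent.Helper923.HMertens

/-!
Mertens' theorem for the primes congruent to `1` modulo `p`.
-/

set_option autoImplicit false

namespace Pool.Agent.TH863.D

open Finset Real Polynomial

lemma rho_ge {p l : ℕ} (hp : p.Prime) (hp2 : p ≠ 2) (hl : l.Prime) (hlp : l % p = 1) :
    2 ≤ Pool.Agent.H474R2.PG.rho (cyclotomic p ℤ) l := by
  have : Fact l.Prime := ⟨hl⟩
  have : Fact p.Prime := ⟨hp⟩
  have hp3 : 3 ≤ p := by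
    have := hp.two_le
    omega
  have hdvd : p ∣ Fintype.card (ZMod l)ˣ := by
    rw [ZMod.card_units_eq_totient, Nat.totient_prime hl]
    have h1 := Nat.div_add_mod l p
    rw [hlp] at h1
    exact ⟨l / p, by omega⟩
  obtain ⟨u, hu⟩ := exists_prime_orderOf_dvd_card p hdvd
  have hz : IsPrimitiveRoot ((u : (ZMod l)ˣ) : ZMod l) p := by
    rw [IsPrimitiveRoot.coe_units_iff, ← hu]
    exact IsPrimitiveRoot.orderOf u
  have hz2 : IsPrimitiveRoot (((u : (ZMod l)ˣ) : ZMod l) ^ 2) p := by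
    apply hz.pow_of_coprime
    exact (Nat.coprime_primes Nat.prime_two hp).2 (fun h => hp2 h.symm)
  have hroot : ∀ z : ZMod l, IsPrimitiveRoot z p →
      z.val ∈ (Finset.range l).filter (fun a : ℕ => (l : ℤ) ∣ (cyclotomic p ℤ).eval (a : ℤ)) := by
    intro z hz
    rw [Finset.mem_filter, Finset.mem_range]
    refine ⟨ZMod.val_lt z, ?_⟩
    rw [← ZMod.intCast_zmod_eq_zero_iff_dvd]
    have h1 := hz.isRoot_cyclotomic hp.pos
    rw [IsRoot.def, ← map_cyclotomic p (Int.castRingHom (ZMod l))] at h1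
    have h2 : ((z.val : ℤ) : ZMod l) = z := by
      rw [Int.cast_natCast, ZMod.natCast_zmod_val]
    rw [← h2, eval_intCast_map] at h1
    simpa using h1
  have hne : ((u : (ZMod l)ˣ) : ZMod l).val ≠ (((u : (ZMod l)ˣ) : ZMod l) ^ 2).val := by
    intro h
    have h1 := ZMod.val_injective l h
    have h2 : ((u : (ZMod l)ˣ) : ZMod l) = 1 := by
      have h3 : ((u : (ZMod l)ˣ) : ZMod l) ≠ 0 := u.ne_zero
      have h4 : ((u : (ZMod l)ˣ) : ZMod l) * 1 = ((u : (ZMod l)ˣ) : ZMod l) * ((u : (ZMod l)ˣ) : ZMod l) := by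
        rw [mul_one, ← sq]
        exact h1
      exact (mul_left_cancel₀ h3 h4).symm
    exact hz.ne_one hp.one_lt h2
  unfold Pool.Agent.H474R2.PG.rho
  have h1 : ({((u : (ZMod l)ˣ) : ZMod l).val, (((u : (ZMod l)ˣ) : ZMod l) ^ 2).val} : Finset ℕ) ⊆
      (Finset.range l).filter (fun a : ℕ => (l : ℤ) ∣ (cyclotomic p ℤ).eval (a : ℤ)) := by
    intro a ha
    rw [Finset.mem_insert, Finset.mem_singleton] at ha
    rcases ha with rfl | rfl
    · exact hroot _ hz
    · exact hroot _ hz2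
  have h2 := Finset.card_le_card h1
  rwa [Finset.card_pair hne] at h2

/-- the primes `l ≤ N` congruent to `1` modulo `p` -/
def P1 (p N : ℕ) : Finset ℕ := (Icc 1 N).filter (fun l => l.Prime ∧ l % p = 1)

lemma mem_P1 {p N l : ℕ} : l ∈ P1 p N ↔ (1 ≤ l ∧ l ≤ N) ∧ l.Prime ∧ l % p = 1 := by
  rw [P1, Finset.mem_filter, Finset.mem_Icc]

theorem S1_le {p : ℕ} (hp : p.Prime) (hp2 : p ≠ 2) : ∃ C : ℝ, 0 ≤ C ∧ ∀ N : ℕ, 3 ≤ N →
    ∑ l ∈ P1 p N, (1 : ℝ) / l ≤ 1 / 2 * Real.log (Real.log N) + C := by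
  obtain ⟨C, hC, h⟩ := Pool.Agent.H474R2.GE.mertens_rho (cyclotomic p ℤ)
    (cyclotomic.irreducible hp.pos) (by
      rw [natDegree_cyclotomic, Nat.totient_prime hp]
      have := hp.two_le
      omega)
  refine ⟨C / 2, by linarith, fun N hN => ?_⟩
  have h1 := (abs_le.1 (h N (by exact_mod_cast hN))).2
  have h2 : 2 * ∑ l ∈ P1 p N, (1 : ℝ) / l ≤ Pool.Agent.H474R2.PG.Sg
      (Pool.Agent.H474R2.PG.rho (cyclotomic p ℤ)) N := by
    unfold Pool.Agent.H474R2.PG.Sg Pool.Agent.H474R2.PG.PR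
    rw [Nat.floor_natCast, Finset.mul_sum]
    calc ∑ l ∈ P1 p N, 2 * ((1 : ℝ) / l) ≤
        ∑ l ∈ P1 p N, (Pool.Agent.H474R2.PG.rho (cyclotomic p ℤ) l : ℝ) / l := by
          refine Finset.sum_le_sum fun l hl => ?_
          have hl' := mem_P1.1 hl
          rw [mul_one_div]
          apply div_le_div_of_nonneg_right _ (Nat.cast_nonneg l)
          exact_mod_cast rho_ge hp hp2 hl'.2.1 hl'.2.2
      _ ≤ _ := by
          apply Finset.sum_le_sum_of_subset_of_nonneg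
          · intro l hl
            have hl' := mem_P1.1 hl
            exact Finset.mem_filter.2 ⟨Finset.mem_Icc.2 hl'.1, hl'.2.1⟩
          · intro l _ _
            positivity
  linarith

/-- Mertens, two sided -/
theorem S_all : ∃ C : ℝ, 0 ≤ C ∧ ∀ N : ℕ, 3 ≤ N →
    |∑ l ∈ (Icc 1 N).filter Nat.Prime, (1 : ℝ) / l - Real.log (Real.log N)| ≤ C := by
  obtain ⟨C, hC, h⟩ := Pool.Agent.Helper923.HMertens.mertens_ratio
  have hl2 : (0 : ℝ) < Real.log 2 := Real.log_pos (by norm_num)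
  refine ⟨C / Real.log 2 + 1 / 2 + |Real.log (Real.log 2)|, by positivity, fun N hN => ?_⟩
  have hNR : (3 : ℝ) ≤ N := by exact_mod_cast hN
  have hlN : 0 < Real.log N := Real.log_pos (by linarith)
  have h1 := h 2 N le_rfl (by omega)
  rw [Real.log_div hlN.ne' (by push_cast; exact hl2.ne')] at h1
  have h2 : ∑ l ∈ (Icc 1 N).filter Nat.Prime, (1 : ℝ) / l =
      1 / 2 + ∑ l ∈ (Ioc 2 N).filter Nat.Prime, (1 : ℝ) / l := by
    have h3 : (Icc 1 N).filter Nat.Prime = insert 2 ((Ioc 2 N).filter Nat.Prime) := by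
      ext l
      simp only [Finset.mem_filter, Finset.mem_Icc, Finset.mem_insert, Finset.mem_Ioc]
      constructor
      · rintro ⟨⟨h4, h5⟩, h6⟩
        by_cases h7 : l = 2
        · exact Or.inl h7
        · exact Or.inr ⟨⟨by have := h6.two_le; omega, h5⟩, h6⟩
      · rintro (rfl | ⟨⟨h4, h5⟩, h6⟩)
        · exact ⟨⟨by norm_num, by omega⟩, Nat.prime_two⟩
        · exact ⟨⟨by omega, h5⟩, h6⟩
    rw [h3, Finset.sum_insert (by simp)]
    norm_num
  rw [h2]
  push_cast at h1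
  have h4 := abs_le.1 h1
  have h5 := abs_le.1 (le_refl |Real.log (Real.log 2)|)
  rw [abs_le]
  constructor <;> linarith [h4.1, h4.2, h5.1, h5.2]

end Pool.Agent.TH863.D
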