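import Mathlib
import Pool.Agent.Helper923.HMertens

/-!
Typical integers: smooth part, number of prime divisors in a set, large prime divisors.
-/

set_option autoImplicit false

namespace Pool.Agent.TH863.D

open Finset Real

/-- logarithm of the `z`-smooth part -/
noncomputable def hh (z b : ℕ) : ℝ :=
  ∑ l ∈ (Icc 1 z).filter Nat.Prime, (b.factorization l : ℝ) * Real.log l

lemma hh_nonneg (z b : ℕ) : 0 ≤ hh z b := by
  refine Finset.sum_nonneg fun l hl => ?_
  have h1 := (Finset.mem_filter.1 hl).2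
  have : 0 ≤ Real.log l := Real.log_nonneg (by exact_mod_cast h1.one_le)
  positivity

lemma hh_mul {z a b : ℕ} (ha : a ≠ 0) (hb : b ≠ 0) : hh z (a * b) = hh z a + hh z b := by
  unfold hh
  rw [Nat.factorization_mul ha hb, ← Finset.sum_add_distrib]
  refine Finset.sum_congr rfl fun l _ => ?_
  rw [Finsupp.add_apply]
  push_cast
  ring

lemma hh_dvd {z d b : ℕ} (hb : b ≠ 0) (h : d ∣ b) : hh z d ≤ hh z b := by
  obtain ⟨c, rfl⟩ := h
  have hd : d ≠ 0 := by rintro rfl; simp at hb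
  have hc : c ≠ 0 := by rintro rfl; simp at hb
  rw [hh_mul hd hc]
  have := hh_nonneg z c
  linarith

lemma hh_smooth {z d : ℕ} (h : ∀ l : ℕ, l.Prime → l ∣ d → l ≤ z) : hh z d = Real.log d := by
  rw [Real.log_nat_eq_sum_factorization, Finsupp.sum, hh]
  symm
  apply Finset.sum_subset
  · intro l hl
    rw [Nat.support_factorization, Nat.mem_primeFactors] at hl
    rw [Finset.mem_filter, Finset.mem_Icc]
    exact ⟨⟨hl.1.one_le, h l hl.1 hl.2.1⟩, hl.1⟩
  · intro l _ hl
    rw [Finsupp.notMem_support_iff] at hl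
    rw [hl]
    simp

theorem sum_hh : ∃ C : ℝ, 0 ≤ C ∧ ∀ z N : ℕ, 1 ≤ z →
    ∑ b ∈ Icc 1 N, hh z b ≤ N * (Real.log z + C) := by
  obtain ⟨C1, hC1⟩ := Pool.Agent.Helper923.HMertens.mertens_log
  obtain ⟨C2, hC20, hC2⟩ := Pool.Agent.Helper923.HMertens.sum_small_bound
  have hC10 : 0 ≤ C1 := (abs_nonneg _).trans (hC1 1 le_rfl)
  refine ⟨C1 + C2, by linarith, fun z N hz => ?_⟩
  have h1 : ∑ b ∈ Icc 1 N, hh z b =
      ∑ l ∈ (Icc 1 z).filter Nat.Prime, (N.factorial.factorization l : ℝ) * Real.log l := by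
    unfold hh
    rw [Finset.sum_comm]
    refine Finset.sum_congr rfl fun l _ => ?_
    rw [← Finset.sum_mul]
    congr 1
    have h2 : N.factorial.factorization l = ∑ b ∈ Icc 1 N, b.factorization l := by
      have h3 : ∏ b ∈ Icc 1 N, b = N.factorial := by
        rw [← Finset.prod_Ico_id_eq_factorial]
        apply Finset.prod_congr _ (fun _ _ => rfl)
        ext b
        simp only [Finset.mem_Icc, Finset.mem_Ico]
        omega
      rw [← h3, Nat.factorization_prod (by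
        intro b hb
        have := (Finset.mem_Icc.1 hb).1
        omega), Finset.sum_apply']
    rw [h2]
    push_cast
    rfl
  rw [h1]
  have h3 : ∑ l ∈ (Icc 1 z).filter Nat.Prime, (N.factorial.factorization l : ℝ) * Real.log l ≤
      ∑ l ∈ (Icc 1 z).filter Nat.Prime, ((N : ℝ) * (Real.log l / l) +
        N * (Real.log l / (l * (l - 1)))) := by
    refine Finset.sum_le_sum fun p hp => ?_
    rw [Finset.mem_filter] at hp
    have h2' : (2 : ℝ) ≤ p := by exact_mod_cast hp.2.two_le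
    have hlog : 0 ≤ Real.log p := Real.log_nonneg (by linarith)
    have h4 : (N.factorial.factorization p : ℝ) ≤ N / (p - 1) := by
      have h5 := Nat.factorization_factorial_le_div_pred hp.2 N
      have h6 : (N.factorial.factorization p : ℝ) ≤ ((N / (p - 1) : ℕ) : ℝ) := by exact_mod_cast h5
      refine h6.trans ?_
      have h7 : ((p - 1 : ℕ) : ℝ) = (p : ℝ) - 1 := by
        rw [Nat.cast_sub hp.2.one_lt.le]; norm_num
      rw [← h7]
      exact Nat.cast_div_le
    have h8 : (N : ℝ) * (Real.log p / p) + N * (Real.log p / (p * (p - 1))) =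
        N / (p - 1) * Real.log p := by
      have : (p : ℝ) ≠ 0 := by linarith
      have : (p : ℝ) - 1 ≠ 0 := by linarith
      field_simp
      ring
    rw [h8]
    exact mul_le_mul_of_nonneg_right h4 hlog
  refine h3.trans ?_
  rw [Finset.sum_add_distrib, ← Finset.mul_sum, ← Finset.mul_sum]
  have e1 := (abs_le.1 (hC1 z hz)).2
  have e2 := hC2 z
  have hN : (0 : ℝ) ≤ N := Nat.cast_nonneg _
  have e3 : (N : ℝ) * ∑ i ∈ (Icc 1 z).filter Nat.Prime, Real.log i / i ≤ N * (Real.log z + C1) :=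
    mul_le_mul_of_nonneg_left (by linarith) hN
  have e4 : (N : ℝ) * ∑ i ∈ (Icc 1 z).filter Nat.Prime, Real.log i / (i * (i - 1)) ≤ N * C2 :=
    mul_le_mul_of_nonneg_left e2 hN
  calc _ ≤ (N : ℝ) * (Real.log z + C1) + N * C2 := add_le_add e3 e4
    _ = _ := by ring

open Classical in
theorem card_hh : ∃ C : ℝ, 0 ≤ C ∧ ∀ (z N : ℕ) (T : ℝ), 1 ≤ z → 0 < T →
    (((Icc 1 N).filter (fun b => T ≤ hh z b)).card : ℝ) ≤ N * (Real.log z + C) / T := by
  obtain ⟨C, hC, h⟩ := sum_hh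
  refine ⟨C, hC, fun z N T hz hT => ?_⟩
  rw [le_div_iff₀ hT]
  refine le_trans ?_ (h z N hz)
  calc (((Icc 1 N).filter (fun b => T ≤ hh z b)).card : ℝ) * T =
      ∑ _b ∈ (Icc 1 N).filter (fun b => T ≤ hh z b), T := by
        rw [Finset.sum_const, nsmul_eq_mul]
    _ ≤ ∑ b ∈ (Icc 1 N).filter (fun b => T ≤ hh z b), hh z b :=
        Finset.sum_le_sum fun b hb => (Finset.mem_filter.1 hb).2
    _ ≤ _ := Finset.sum_le_sum_of_subset_of_nonneg (Finset.filter_subset _ _)
        (fun b _ _ => hh_nonneg z b)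

lemma card_mult (N n : ℕ) : ((Icc 1 N).filter (fun b => n ∣ b)).card = N / n := by
  have : Icc 1 N = Ioc 0 N := by
    ext b
    simp only [Finset.mem_Icc, Finset.mem_Ioc]
    omega
  rw [this, Nat.Ioc_filter_dvd_card_eq_div]

/-- number of the primes of `S` which divide `b` -/
def om (S : Finset ℕ) (b : ℕ) : ℕ := (S.filter (fun l => l ∣ b)).card

lemma om_eq (S : Finset ℕ) (b : ℕ) : (om S b : ℝ) = ∑ l ∈ S, if l ∣ b then (1 : ℝ) else 0 := by
  rw [om, Finset.sum_boole]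

open Classical in
/-- Turán–Kubilius -/
theorem tk (S : Finset ℕ) (hS : ∀ l ∈ S, l.Prime) (N : ℕ) (hN : S.card ^ 2 ≤ N) {t : ℝ}
    (ht : 0 < t) :
    (((Icc 1 N).filter (fun b => (om S b : ℝ) ≤ ∑ l ∈ S, (1 : ℝ) / l - t)).card : ℝ) * t ^ 2 ≤
      3 * N * ∑ l ∈ S, (1 : ℝ) / l := by
  obtain ⟨μ, hμ⟩ : ∃ μ : ℝ, μ = ∑ l ∈ S, (1 : ℝ) / l := ⟨_, rfl⟩
  rw [← hμ]
  have hμ0 : 0 ≤ μ := by
    rw [hμ]
    exact Finset.sum_nonneg fun l _ => by positivity
  have hSN : (S.card : ℝ) ≤ N := by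
    have : S.card ≤ S.card ^ 2 := Nat.le_self_pow (by norm_num) _
    exact_mod_cast this.trans hN
  -- first moment
  have h1 : (N : ℝ) * μ - S.card ≤ ∑ b ∈ Icc 1 N, (om S b : ℝ) := by
    have e1 : ∑ b ∈ Icc 1 N, (om S b : ℝ) = ∑ l ∈ S, ((N / l : ℕ) : ℝ) := by
      simp only [om_eq]
      rw [Finset.sum_comm]
      refine Finset.sum_congr rfl fun l _ => ?_
      rw [Finset.sum_boole, card_mult]
    rw [e1, hμ, Finset.mul_sum, Finset.card_eq_sum_ones]
    push_cast
    rw [← Finset.sum_sub_distrib]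
    refine Finset.sum_le_sum fun l hl => ?_
    have hl0 : (0 : ℝ) < l := by exact_mod_cast (hS l hl).pos
    have h2 := Nat.lt_div_mul_add (a := N) (hS l hl).pos
    have h3 : (N : ℝ) < ((N / l : ℕ) : ℝ) * l + l := by exact_mod_cast h2
    rw [mul_one_div, sub_le_iff_le_add, div_le_iff₀ hl0]
    nlinarith
  -- second moment
  have h2 : ∑ b ∈ Icc 1 N, (om S b : ℝ) ^ 2 ≤ N * μ ^ 2 + N * μ := by
    have e1 : ∑ b ∈ Icc 1 N, (om S b : ℝ) ^ 2 =
        ∑ l ∈ S, ∑ m ∈ S, (((Icc 1 N).filter (fun b => l ∣ b ∧ m ∣ b)).card : ℝ) := by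
      simp only [om_eq, sq, Finset.sum_mul_sum]
      rw [Finset.sum_comm]
      refine Finset.sum_congr rfl fun l _ => ?_
      rw [Finset.sum_comm]
      refine Finset.sum_congr rfl fun m _ => ?_
      rw [← Finset.sum_boole]
      refine Finset.sum_congr rfl fun b _ => ?_
      by_cases h1 : l ∣ b <;> by_cases h2 : m ∣ b <;> simp [h1, h2]
    rw [e1]
    have e2 : ∀ l ∈ S, ∀ m ∈ S, (((Icc 1 N).filter (fun b => l ∣ b ∧ m ∣ b)).card : ℝ) ≤
        N * ((1 : ℝ) / l * (1 / m)) + if l = m then (N : ℝ) * (1 / l) else 0 := by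
      intro l hl m hm
      have hl0 : (0 : ℝ) < l := by exact_mod_cast (hS l hl).pos
      have hm0 : (0 : ℝ) < m := by exact_mod_cast (hS m hm).pos
      by_cases hlm : l = m
      · subst hlm
        simp only [and_self, if_true]
        rw [card_mult]
        have h3 : ((N / l : ℕ) : ℝ) ≤ N / l := Nat.cast_div_le
        have h4 : (0 : ℝ) ≤ N * (1 / l * (1 / l)) := by positivity
        have h5 : (N : ℝ) * (1 / l) = N / l := by ring
        linarith
      · rw [if_neg hlm, add_zero]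
        have hco : Nat.Coprime l m := (Nat.coprime_primes (hS l hl) (hS m hm)).2 hlm
        have h3 : (Icc 1 N).filter (fun b => l ∣ b ∧ m ∣ b) = (Icc 1 N).filter (fun b => l * m ∣ b) := by
          apply Finset.filter_congr
          intro b _
          exact ⟨fun h => hco.mul_dvd_of_dvd_of_dvd h.1 h.2,
            fun h => ⟨(Dvd.intro _ rfl).trans h, (Dvd.intro_left _ rfl).trans h⟩⟩
        rw [h3, card_mult]
        have h4 : ((N / (l * m) : ℕ) : ℝ) ≤ N / ((l * m : ℕ) : ℝ) := Nat.cast_div_le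
        refine h4.trans (le_of_eq ?_)
        push_cast
        field_simp
    calc ∑ l ∈ S, ∑ m ∈ S, (((Icc 1 N).filter (fun b => l ∣ b ∧ m ∣ b)).card : ℝ) ≤
        ∑ l ∈ S, ∑ m ∈ S, (N * ((1 : ℝ) / l * (1 / m)) + if l = m then (N : ℝ) * (1 / l) else 0) :=
          Finset.sum_le_sum fun l hl => Finset.sum_le_sum fun m hm => e2 l hl m hm
      _ = N * μ ^ 2 + N * μ := by
          simp only [Finset.sum_add_distrib]
          congr 1
          · rw [hμ, sq, Finset.sum_mul_sum, Finset.mul_sum]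
            refine Finset.sum_congr rfl fun l _ => ?_
            rw [Finset.mul_sum]
          · rw [hμ, Finset.mul_sum]
            refine Finset.sum_congr rfl fun l hl => ?_
            rw [Finset.sum_ite_eq, if_pos hl]
  -- variance
  have h3 : ∑ b ∈ Icc 1 N, ((om S b : ℝ) - μ) ^ 2 ≤ 3 * N * μ := by
    have e1 : ∑ b ∈ Icc 1 N, ((om S b : ℝ) - μ) ^ 2 =
        ∑ b ∈ Icc 1 N, (om S b : ℝ) ^ 2 - 2 * μ * ∑ b ∈ Icc 1 N, (om S b : ℝ) + N * μ ^ 2 := by
      have : ∀ b ∈ Icc 1 N, ((om S b : ℝ) - μ) ^ 2 = (om S b : ℝ) ^ 2 - 2 * μ * (om S b : ℝ) + μ ^ 2 :=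
        fun b _ => by ring
      rw [Finset.sum_congr rfl this, Finset.sum_add_distrib, Finset.sum_sub_distrib,
        ← Finset.mul_sum, Finset.sum_const, Nat.card_Icc, nsmul_eq_mul, Nat.add_sub_cancel]
    rw [e1]
    have e2 : 2 * μ * ((N : ℝ) * μ - S.card) ≤ 2 * μ * ∑ b ∈ Icc 1 N, (om S b : ℝ) :=
      mul_le_mul_of_nonneg_left h1 (by linarith)
    have e3 : μ * (S.card : ℝ) ≤ μ * N := mul_le_mul_of_nonneg_left hSN hμ0
    nlinarith
  refine le_trans ?_ h3
  calc (((Icc 1 N).filter (fun b => (om S b : ℝ) ≤ μ - t)).card : ℝ) * t ^ 2 =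
      ∑ _b ∈ (Icc 1 N).filter (fun b => (om S b : ℝ) ≤ μ - t), t ^ 2 := by
        rw [Finset.sum_const, nsmul_eq_mul]
    _ ≤ ∑ b ∈ (Icc 1 N).filter (fun b => (om S b : ℝ) ≤ μ - t), ((om S b : ℝ) - μ) ^ 2 := by
        refine Finset.sum_le_sum fun b hb => ?_
        have := (Finset.mem_filter.1 hb).2
        nlinarith
    _ ≤ _ := Finset.sum_le_sum_of_subset_of_nonneg (Finset.filter_subset _ _)
        (fun b _ _ => sq_nonneg _)

open Classical in
/-- integers divisible by one of the numbers of a set -/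
theorem card_dvd_some (N : ℕ) (S : Finset ℕ) (f : ℕ → ℕ) :
    (((Icc 1 N).filter (fun b => ∃ l ∈ S, f l ∣ b)).card : ℝ) ≤ N * ∑ l ∈ S, (1 : ℝ) / f l := by
  have h1 : (Icc 1 N).filter (fun b => ∃ l ∈ S, f l ∣ b) ⊆
      S.biUnion (fun l => (Icc 1 N).filter (fun b => f l ∣ b)) := by
    intro b hb
    obtain ⟨hb1, l, hl, hd⟩ := Finset.mem_filter.1 hb
    exact Finset.mem_biUnion.2 ⟨l, hl, Finset.mem_filter.2 ⟨hb1, hd⟩⟩
  have h2 : (((Icc 1 N).filter (fun b => ∃ l ∈ S, f l ∣ b)).card : ℝ) ≤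
      ∑ l ∈ S, (((Icc 1 N).filter (fun b => f l ∣ b)).card : ℝ) := by
    exact_mod_cast (Finset.card_le_card h1).trans Finset.card_biUnion_le
  refine h2.trans ?_
  rw [Finset.mul_sum]
  refine Finset.sum_le_sum fun l _ => ?_
  rw [card_mult, mul_one_div]
  exact Nat.cast_div_le

end Pool.Agent.TH863.D
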