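import Mathlib
import Pool.Agent.W136.RF.Eul
import Pool.Agent.TH863.D.Typ
import Pool.Agent.TH863.D.MertP

/-!
Two Euler product bounds.
-/

set_option autoImplicit false

namespace Pool.Agent.TH863.D

open Finset Real

lemma om_one {S : Finset ℕ} (hS : ∀ l ∈ S, l.Prime) : om S 1 = 0 := by
  rw [om, Finset.card_eq_zero, Finset.filter_eq_empty_iff]
  intro l hl h
  exact (hS l hl).not_dvd_one h

lemma om_mul {S : Finset ℕ} (hS : ∀ l ∈ S, l.Prime) {m n : ℕ} (h : Nat.Coprime m n) :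
    om S (m * n) = om S m + om S n := by
  classical
  unfold om
  rw [← Finset.card_union_of_disjoint]
  · congr 1
    ext l
    simp only [Finset.mem_filter, Finset.mem_union]
    constructor
    · rintro ⟨h1, h2⟩
      rcases (hS l h1).dvd_mul.1 h2 with h3 | h3
      · exact Or.inl ⟨h1, h3⟩
      · exact Or.inr ⟨h1, h3⟩
    · rintro (⟨h1, h2⟩ | ⟨h1, h2⟩)
      · exact ⟨h1, h2.mul_right n⟩
      · exact ⟨h1, h2.mul_left m⟩
  · rw [Finset.disjoint_left]
    intro l h1 h2
    have h3 := Finset.mem_filter.1 h1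
    have h4 := Finset.mem_filter.1 h2
    have h5 := Nat.dvd_gcd h3.2 h4.2
    rw [h] at h5
    exact (hS l h3.1).not_dvd_one h5

lemma euler1 {p z0 N : ℕ} (hz : z0 ≤ N) :
    ∑ b ∈ Icc 1 N, (1 / 2 : ℝ) ^ (om (P1 p z0) b) / b ≤
      Real.exp (∑ l ∈ (Icc 1 N).filter Nat.Prime, (1 : ℝ) / l -
        1 / 2 * ∑ l ∈ P1 p z0, (1 : ℝ) / l + 1) := by
  have hS : ∀ l ∈ P1 p z0, l.Prime := fun l hl => (mem_P1.1 hl).2.1
  have h := Pool.Agent.W136.RF.euler_le (G := fun n => (1 / 2 : ℝ) ^ (om (P1 p z0) n)) (B := 1)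
    (fun n => by positivity) (by simp only [om_one hS, pow_zero])
    (fun m n hmn => by simp only [om_mul hS hmn, pow_add])
    (fun q k _ _ => pow_le_one₀ (by norm_num) (by norm_num)) zero_le_one N
  refine h.trans (Real.exp_le_exp.2 ?_)
  have h1 : ∑ l ∈ (Icc 1 N).filter Nat.Prime, (1 / 2 : ℝ) ^ (om (P1 p z0) l) / l =
      ∑ l ∈ (Icc 1 N).filter Nat.Prime, (1 : ℝ) / l - 1 / 2 * ∑ l ∈ P1 p z0, (1 : ℝ) / l := by
    have h2 : ∑ l ∈ P1 p z0, (1 : ℝ) / l =
        ∑ l ∈ (Icc 1 N).filter Nat.Prime, if l ∈ P1 p z0 then (1 : ℝ) / l else 0 := by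
      rw [← Finset.sum_filter]
      apply Finset.sum_congr _ (fun _ _ => rfl)
      ext l
      rw [Finset.mem_filter, Finset.mem_filter, Finset.mem_Icc, mem_P1]
      constructor
      · rintro ⟨⟨h3, h4⟩, h5, h6⟩
        exact ⟨⟨⟨h3, h4.trans hz⟩, h5⟩, ⟨h3, h4⟩, h5, h6⟩
      · rintro ⟨_, h3⟩
        exact h3
    rw [h2, Finset.mul_sum, ← Finset.sum_sub_distrib]
    refine Finset.sum_congr rfl fun l hl => ?_
    have hl' := (Finset.mem_filter.1 hl).2
    by_cases h3 : l ∈ P1 p z0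
    · have h4 : om (P1 p z0) l = 1 := by
        rw [om, Finset.card_eq_one]
        refine ⟨l, ?_⟩
        ext m
        rw [Finset.mem_filter, Finset.mem_singleton]
        constructor
        · rintro ⟨h5, h6⟩
          exact (Nat.prime_dvd_prime_iff_eq (hS m h5) hl').1 h6
        · rintro rfl
          exact ⟨h3, dvd_rfl⟩
      rw [h4, if_pos h3]
      ring
    · have h4 : om (P1 p z0) l = 0 := by
        rw [om, Finset.card_eq_zero, Finset.filter_eq_empty_iff]
        intro m hm h5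
        exact h3 ((Nat.prime_dvd_prime_iff_eq (hS m hm) hl').1 h5 ▸ hm)
      rw [h4, if_neg h3]
      ring
  rw [h1]

/-- all prime divisors are `≡ 1` -/
def OneM (p n : ℕ) : Prop := ∀ l : ℕ, l.Prime → l ∣ n → l % p = 1

open Classical in
lemma euler2 {p N : ℕ} :
    ∑ m ∈ Icc 1 N, (if OneM p m then (1 : ℝ) else 0) / m ≤
      Real.exp (∑ l ∈ P1 p N, (1 : ℝ) / l + 1) := by
  have h := Pool.Agent.W136.RF.euler_le (G := fun n => if OneM p n then (1 : ℝ) else 0) (B := 1)
    (fun n => by split_ifs <;> norm_num) (by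
      rw [if_pos]
      intro l hl h
      exact absurd h hl.not_dvd_one)
    (fun m n _ => by
      by_cases h1 : OneM p m <;> by_cases h2 : OneM p n
      · rw [if_pos h1, if_pos h2, if_pos, one_mul]
        intro l hl h
        rcases hl.dvd_mul.1 h with h3 | h3
        · exact h1 l hl h3
        · exact h2 l hl h3
      · rw [if_neg h2, mul_zero, if_neg]
        intro h3
        exact h2 fun l hl h => h3 l hl (h.mul_left m)
      · rw [if_neg h1, zero_mul, if_neg]
        intro h3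
        exact h1 fun l hl h => h3 l hl (h.mul_right n)
      · rw [if_neg h1, zero_mul, if_neg]
        intro h3
        exact h1 fun l hl h => h3 l hl (h.mul_right n))
    (fun q k _ _ => by split_ifs <;> norm_num) zero_le_one N
  refine h.trans (Real.exp_le_exp.2 ?_)
  have h1 : ∑ l ∈ (Icc 1 N).filter Nat.Prime, (if OneM p l then (1 : ℝ) else 0) / l =
      ∑ l ∈ P1 p N, (1 : ℝ) / l := by
    have h2 : P1 p N = ((Icc 1 N).filter Nat.Prime).filter (fun l => OneM p l) := by
      ext l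
      rw [Finset.mem_filter, Finset.mem_filter, Finset.mem_Icc, mem_P1]
      constructor
      · rintro ⟨h3, h4, h5⟩
        refine ⟨⟨h3, h4⟩, fun m hm h6 => ?_⟩
        rw [(Nat.prime_dvd_prime_iff_eq hm h4).1 h6]
        exact h5
      · rintro ⟨⟨h3, h4⟩, h5⟩
        exact ⟨h3, h4, h5 l h4 dvd_rfl⟩
    have h3 : ∑ l ∈ P1 p N, (1 : ℝ) / l =
        ∑ l ∈ (Icc 1 N).filter Nat.Prime, if OneM p l then (1 : ℝ) / l else 0 := by
      rw [h2]
      exact Finset.sum_filter _ _
    rw [h3]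
    refine Finset.sum_congr rfl fun l _ => ?_
    split_ifs <;> simp
  rw [h1]

end Pool.Agent.TH863.D
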