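import Mathlib
import Pool.Agent.TH863.D.Cls
import Pool.Agent.TH863.D.Eul

/-!
Counting the integers which satisfy the square conditions, for a fixed prime `p`.
-/

set_option autoImplicit false

namespace Pool.Agent.TH863.D

open Finset Real

/-- odd primes `≤ z`, different from `p` and not congruent to `1` -/
def S2 (p z : ℕ) : Finset ℕ := (Icc 1 z).filter (fun l => l.Prime ∧ l ≠ 2 ∧ l ≠ p ∧ l % p ≠ 1)

lemma mem_S2 {p z l : ℕ} : l ∈ S2 p z ↔ (1 ≤ l ∧ l ≤ z) ∧ l.Prime ∧ l ≠ 2 ∧ l ≠ p ∧ l % p ≠ 1 := by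
  rw [S2, Finset.mem_filter, Finset.mem_Icc]

/-- a decomposition `b = b1 * m2 * P` with the square conditions -/
structure GCp (p N : ℕ) (η1 : ℝ) (b b1 m2 P e : ℕ) : Prop where
  hb : b = b1 * m2 * P
  he : e ≤ 1
  hP : P.Prime
  hP1 : P % p = 1
  hbig : (N : ℝ) ^ η1 ≤ P
  h1 : 1 ≤ b1
  h2 : 1 ≤ m2
  one : OneM p m2
  sq : ∀ l : ℕ, l.Prime → l ∣ b1 → l ≠ 2 → l ≠ p → Sq (p ^ (e + 1) * m2) l P

/-- the conditions on a typical integer -/
def Ty (p N z0 : ℕ) (η1 : ℝ) (b : ℕ) : Prop :=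
  hh z0 b ≤ η1 / 2 * Real.log N ∧ 2 / 5 * Real.log (Real.log N) ≤ (om (S2 p z0) b : ℝ)

open Classical in
/-- the integers to be counted -/
noncomputable def GC (p N z0 : ℕ) (η1 : ℝ) : Finset ℕ :=
  (Icc 1 N).filter (fun b => Ty p N z0 η1 b ∧ ∃ b1 m2 P e, GCp p N η1 b b1 m2 P e)

open Classical in
/-- the primes `P` for given `e`, `b1`, `m2` -/
noncomputable def QQ (p N z0 : ℕ) (η1 : ℝ) (e b1 m2 : ℕ) : Finset ℕ :=
  (Icc 1 N).filter (fun P => b1 * m2 * P ≤ N ∧ Ty p N z0 η1 (b1 * m2 * P) ∧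
    GCp p N η1 (b1 * m2 * P) b1 m2 P e)

/-- the primes dividing `b1` which are used -/
def FF (p z0 b1 : ℕ) : Finset ℕ :=
  (Icc 1 z0).filter (fun l => l.Prime ∧ l ≠ 2 ∧ l ≠ p ∧ l ∣ b1)

lemma mem_FF {p z0 b1 l : ℕ} : l ∈ FF p z0 b1 ↔
    (1 ≤ l ∧ l ≤ z0) ∧ l.Prime ∧ l ≠ 2 ∧ l ≠ p ∧ l ∣ b1 := by
  rw [FF, Finset.mem_filter, Finset.mem_Icc]

lemma card_FF {p z0 b1 : ℕ} (hp : 3 ≤ p) :
    (FF p z0 b1).card = om (S2 p z0) b1 + om (P1 p z0) b1 := by
  classical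
  unfold om
  rw [← Finset.card_union_of_disjoint]
  · congr 1
    ext l
    rw [mem_FF, Finset.mem_union, Finset.mem_filter, Finset.mem_filter, mem_S2, mem_P1]
    constructor
    · rintro ⟨h1, h2, h3, h4, h5⟩
      by_cases h6 : l % p = 1
      · exact Or.inr ⟨⟨h1, h2, h6⟩, h5⟩
      · exact Or.inl ⟨⟨h1, h2, h3, h4, h6⟩, h5⟩
    · rintro (⟨⟨h1, h2, h3, h4, h6⟩, h5⟩ | ⟨⟨h1, h2, h6⟩, h5⟩)
      · exact ⟨h1, h2, h3, h4, h5⟩
      · refine ⟨h1, h2, ?_, ?_, h5⟩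
        · rintro rfl
          rw [Nat.mod_eq_of_lt (by omega)] at h6
          omega
        · rintro rfl
          rw [Nat.mod_self] at h6
          omega
  · rw [Finset.disjoint_left]
    intro l h1 h2
    exact (mem_S2.1 (Finset.mem_filter.1 h1).1).2.2.2.2 (mem_P1.1 (Finset.mem_filter.1 h2).1).2.2

lemma prod_dvd_of_primes {F : Finset ℕ} (hF : ∀ l ∈ F, l.Prime) {n : ℕ} (h : ∀ l ∈ F, l ∣ n) :
    (∏ l ∈ F, l) ∣ n := by
  exact Finset.prod_primes_dvd n (fun l hl => (hF l hl).prime) h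

open Classical in
theorem card_QQ {η1 : ℝ} (hη1 : 0 < η1) : ∃ N₀ : ℕ, 3 ≤ N₀ ∧ ∀ p N z0 e b1 m2 : ℕ,
    N₀ ≤ N → 3 ≤ p → 1 ≤ b1 → 1 ≤ m2 →
    ((QQ p N z0 η1 e b1 m2).card : ℝ) ≤
      (6 * N / (η1 * Real.log N) * (1 / 2 : ℝ) ^ (2 / 5 * Real.log (Real.log N))) *
        ((1 / 2 : ℝ) ^ (om (P1 p z0) b1) / b1) * ((if OneM p m2 then (1 : ℝ) else 0) / m2) := by
  classical
  obtain ⟨Z, hZ3, hZ⟩ := prime_count
  obtain ⟨N₁, hN₁⟩ := exists_nat_ge (Z ^ (2 / η1))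
  refine ⟨max 3 N₁, le_max_left _ _, fun p N z0 e b1 m2 hN hp hb1 hm2 => ?_⟩
  have hN3 : 3 ≤ N := (le_max_left _ _).trans hN
  have hNR : (3 : ℝ) ≤ N := by exact_mod_cast hN3
  have hlogN : 1 ≤ Real.log N := by
    rw [Real.le_log_iff_exp_le (by linarith)]
    have := Real.exp_one_lt_d9
    linarith
  have hZN : Z ≤ (N : ℝ) ^ (η1 / 2) := by
    have h1 : Z ^ (2 / η1) ≤ N := hN₁.trans (by exact_mod_cast (le_max_right _ _).trans hN)
    have h2 := Real.rpow_le_rpow (by positivity) h1 (by positivity : 0 ≤ η1 / 2)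
    rwa [← Real.rpow_mul (by linarith), show 2 / η1 * (η1 / 2) = 1 by field_simp, Real.rpow_one] at h2
  have hb1R : (1 : ℝ) ≤ b1 := by exact_mod_cast hb1
  have hm2R : (1 : ℝ) ≤ m2 := by exact_mod_cast hm2
  rcases Finset.eq_empty_or_nonempty (QQ p N z0 η1 e b1 m2) with h0 | ⟨P0, hP0⟩
  · rw [h0, Finset.card_empty, Nat.cast_zero]
    have h1 : (0 : ℝ) ≤ if OneM p m2 then (1 : ℝ) else 0 := by split_ifs <;> norm_num
    have h2 : (0 : ℝ) ≤ Real.log N := by linarith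
    refine mul_nonneg (mul_nonneg (mul_nonneg ?_ ?_) ?_) (div_nonneg h1 (by linarith))
    · positivity
    · positivity
    · positivity
  · obtain ⟨hle, hTy, hG⟩ := (Finset.mem_filter.1 hP0).2
    have hP0pos : 0 < P0 := hG.hP.pos
    have hbne : b1 * m2 * P0 ≠ 0 := by positivity
    obtain ⟨y, hy⟩ : ∃ y : ℝ, y = N / ((b1 : ℝ) * m2) := ⟨_, rfl⟩
    have hbm : (0 : ℝ) < (b1 : ℝ) * m2 := by positivity
    have hyP : ∀ P : ℕ, b1 * m2 * P ≤ N → (P : ℝ) ≤ y := by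
      intro P hP
      rw [hy, le_div_iff₀ hbm]
      have : (P : ℝ) * ((b1 : ℝ) * m2) = ((b1 * m2 * P : ℕ) : ℝ) := by push_cast; ring
      rw [this]
      exact_mod_cast hP
    -- the modulus
    obtain ⟨M, hM⟩ : ∃ M : ℕ, M = ∏ l ∈ FF p z0 b1, l := ⟨_, rfl⟩
    have hMpos : 0 < M := by
      rw [hM]
      exact Finset.prod_pos fun l hl => (mem_FF.1 hl).2.1.pos
    have hMR : (0 : ℝ) < M := by exact_mod_cast hMpos
    have hMdvd : M ∣ b1 := by
      rw [hM]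
      exact prod_dvd_of_primes (fun l hl => (mem_FF.1 hl).2.1) (fun l hl => (mem_FF.1 hl).2.2.2.2)
    have hMlog : Real.log M ≤ η1 / 2 * Real.log N := by
      have h1 : hh z0 M = Real.log M := by
        apply hh_smooth
        intro l hl hlM
        rw [hM] at hlM
        obtain ⟨m, hm, hlm⟩ := (Prime.dvd_finsetProd_iff hl.prime _).1 hlM
        have hm' := mem_FF.1 hm
        rw [(Nat.prime_dvd_prime_iff_eq hl hm'.2.1).1 hlm]
        exact hm'.1.2
      rw [← h1]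
      refine (hh_dvd hbne ?_).trans hTy.1
      exact (hMdvd.mul_right m2).mul_right P0
    have hMle : (M : ℝ) ≤ (N : ℝ) ^ (η1 / 2) := by
      rw [← Real.log_le_log_iff hMR (by positivity), Real.log_rpow (by linarith)]
      exact hMlog
    have hybig : (N : ℝ) ^ η1 ≤ y := hG.hbig.trans (hyP P0 hle)
    have hyM : (N : ℝ) ^ (η1 / 2) ≤ y / M := by
      rw [le_div_iff₀ hMR]
      calc (N : ℝ) ^ (η1 / 2) * M ≤ (N : ℝ) ^ (η1 / 2) * (N : ℝ) ^ (η1 / 2) :=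
            mul_le_mul_of_nonneg_left hMle (by positivity)
        _ = (N : ℝ) ^ η1 := by rw [← Real.rpow_add (by linarith)]; congr 1; ring
        _ ≤ y := hybig
    have hlogyM : η1 / 2 * Real.log N ≤ Real.log (y / M) := by
      rw [← Real.log_rpow (by linarith)]
      exact Real.log_le_log (by positivity) hyM
    have hcount := hZ (FF p z0 b1) (p ^ (e + 1) * m2) y (QQ p N z0 η1 e b1 m2)
      (fun l hl => ⟨(mem_FF.1 hl).2.1, (mem_FF.1 hl).2.2.1⟩) (by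
        rw [← hM]
        have := hZN.trans hyM
        rwa [le_div_iff₀ hMR] at this) (by
        intro P hP
        obtain ⟨h1, _, h3⟩ := (Finset.mem_filter.1 hP).2
        refine ⟨h3.hP, hyP P h1, fun l hl => ?_⟩
        have hl' := mem_FF.1 hl
        exact h3.sq l hl'.2.1 hl'.2.2.2.2 hl'.2.2.1 hl'.2.2.2.1)
    rw [← hM, card_FF hp, pow_add] at hcount
    -- number of primes of `S2` dividing `b1`
    have hom : om (S2 p z0) (b1 * m2 * P0) ≤ om (S2 p z0) b1 := by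
      apply Finset.card_le_card
      intro l hl
      obtain ⟨h1, h2⟩ := Finset.mem_filter.1 hl
      have h1' := mem_S2.1 h1
      refine Finset.mem_filter.2 ⟨h1, ?_⟩
      rcases h1'.2.1.dvd_mul.1 h2 with h3 | h3
      · rcases h1'.2.1.dvd_mul.1 h3 with h4 | h4
        · exact h4
        · exact absurd (hG.one l h1'.2.1 h4) h1'.2.2.2.2
      · rw [(Nat.prime_dvd_prime_iff_eq h1'.2.1 hG.hP).1 h3] at h1'
        exact absurd hG.hP1 h1'.2.2.2.2
    have hom' : 2 / 5 * Real.log (Real.log N) ≤ (om (S2 p z0) b1 : ℝ) :=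
      hTy.2.trans (by exact_mod_cast hom)
    rw [if_pos hG.one]
    obtain ⟨a, ha⟩ : ∃ a : ℕ, a = om (S2 p z0) b1 := ⟨_, rfl⟩
    obtain ⟨c, hc⟩ : ∃ c : ℕ, c = om (P1 p z0) b1 := ⟨_, rfl⟩
    rw [← ha] at hom' hcount
    rw [← hc] at hcount ⊢
    have hpa : (1 / 2 : ℝ) ^ a ≤ (1 / 2 : ℝ) ^ (2 / 5 * Real.log (Real.log N)) := by
      rw [← Real.rpow_natCast]
      exact Real.rpow_le_rpow_of_exponent_ge (by norm_num) (by norm_num) hom'
    have hy0 : 0 < y := lt_of_lt_of_le (by positivity) hybig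
    have hη2 : 0 < η1 / 2 * Real.log N := by positivity
    calc ((QQ p N z0 η1 e b1 m2).card : ℝ) ≤ 3 * y / (2 ^ a * 2 ^ c * Real.log (y / M)) := hcount
      _ ≤ 3 * y / (2 ^ a * 2 ^ c * (η1 / 2 * Real.log N)) := by
          apply div_le_div_of_nonneg_left (by positivity) (by positivity)
          apply mul_le_mul_of_nonneg_left hlogyM (by positivity)
      _ = (6 * N / (η1 * Real.log N) * (1 / 2 : ℝ) ^ a) * ((1 / 2 : ℝ) ^ c / b1) * (1 / m2) := by
          rw [hy, one_div_pow, one_div_pow]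
          field_simp
          ring
      _ ≤ (6 * N / (η1 * Real.log N) * (1 / 2 : ℝ) ^ (2 / 5 * Real.log (Real.log N))) *
          ((1 / 2 : ℝ) ^ c / b1) * (1 / m2) := by
          apply mul_le_mul_of_nonneg_right _ (by positivity)
          apply mul_le_mul_of_nonneg_right _ (by positivity)
          apply mul_le_mul_of_nonneg_left hpa (by positivity)

end Pool.Agent.TH863.D
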