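import Mathlib
import Pool.Agent.TH863.D.CCount

/-!
The set `GC` is small.
-/

set_option autoImplicit false

namespace Pool.Agent.TH863.D

open Finset Real

lemma S1_diff : ∃ C : ℝ, 0 ≤ C ∧ ∀ p z N : ℕ, 3 ≤ z → z ≤ N →
    ∑ l ∈ P1 p N, (1 : ℝ) / l - ∑ l ∈ P1 p z, (1 : ℝ) / l ≤
      Real.log (Real.log N / Real.log z) + C := by
  obtain ⟨C, hC, h⟩ := Pool.Agent.Helper923.HMertens.mertens_ratio
  refine ⟨C, hC, fun p z N hz hzN => ?_⟩
  have h1 := (abs_le.1 (h z N (by omega) hzN)).2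
  have hzR : (3 : ℝ) ≤ z := by exact_mod_cast hz
  have hlz : 1 ≤ Real.log z := by
    rw [Real.le_log_iff_exp_le (by linarith)]
    have := Real.exp_one_lt_d9
    linarith
  have h2 : C / Real.log z ≤ C := div_le_self hC hlz
  have h3 : ∑ l ∈ P1 p N, (1 : ℝ) / l ≤ ∑ l ∈ P1 p z, (1 : ℝ) / l +
      ∑ l ∈ (Ioc z N).filter Nat.Prime, (1 : ℝ) / l := by
    classical
    have h4 : P1 p N ⊆ P1 p z ∪ (Ioc z N).filter Nat.Prime := by
      intro l hl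
      have hl' := mem_P1.1 hl
      rw [Finset.mem_union, mem_P1, Finset.mem_filter, Finset.mem_Ioc]
      rcases Nat.lt_or_ge z l with h5 | h5
      · exact Or.inr ⟨⟨h5, hl'.1.2⟩, hl'.2.1⟩
      · exact Or.inl ⟨⟨hl'.1.1, h5⟩, hl'.2⟩
    have h5 : Disjoint (P1 p z) ((Ioc z N).filter Nat.Prime) := by
      rw [Finset.disjoint_left]
      intro l h6 h7
      have := (mem_P1.1 h6).1.2
      have := (Finset.mem_Ioc.1 (Finset.mem_filter.1 h7).1).1
      omega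
    rw [← Finset.sum_union h5]
    exact Finset.sum_le_sum_of_subset_of_nonneg h4 (fun l _ _ => by positivity)
  linarith

lemma expo_bound {N : ℝ} {η1 LL X C : ℝ} (hη1 : 0 < η1) (hN : 0 ≤ N)
    (hLL : 0 ≤ LL) (hX : X ≤ 5 / 4 * LL + C) :
    2 * (6 * N / (η1 * Real.exp LL) * (1 / 2 : ℝ) ^ (2 / 5 * LL)) * Real.exp X ≤
      (12 / η1 * Real.exp C) * N * Real.exp (-(1 / 50) * LL) := by
  have h1 : (1 / 2 : ℝ) ^ (2 / 5 * LL) = Real.exp (-(2 / 5 * Real.log 2) * LL) := by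
    rw [Real.rpow_def_of_pos (by norm_num)]
    congr 1
    rw [one_div, Real.log_inv]
    ring
  have h2 : 2 * (6 * N / (η1 * Real.exp LL) * (1 / 2 : ℝ) ^ (2 / 5 * LL)) * Real.exp X =
      12 / η1 * N * Real.exp (X - LL - (2 / 5 * Real.log 2) * LL) := by
    rw [h1]
    have h3 : X - LL - (2 / 5 * Real.log 2) * LL = (-(2 / 5 * Real.log 2) * LL) + X + (-LL) := by ring
    rw [h3, Real.exp_add, Real.exp_add, Real.exp_neg LL]
    have := Real.exp_pos LL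
    field_simp
    ring
  rw [h2]
  have h4 : X - LL - (2 / 5 * Real.log 2) * LL ≤ C + (-(1 / 50) * LL) := by
    have := Real.log_two_gt_d9
    nlinarith
  calc 12 / η1 * N * Real.exp (X - LL - (2 / 5 * Real.log 2) * LL) ≤
      12 / η1 * N * Real.exp (C + (-(1 / 50) * LL)) :=
        mul_le_mul_of_nonneg_left (Real.exp_le_exp.2 h4) (by positivity)
    _ = _ := by rw [Real.exp_add]; ring

theorem card_GC {p : ℕ} (hp : p.Prime) (hp2 : p ≠ 2) {η0 η1 : ℝ} (hη0 : 0 < η0) (hη1 : 0 < η1) :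
    ∃ K : ℝ, 0 < K ∧ ∃ N₀ : ℕ, ∀ N : ℕ, N₀ ≤ N → ∀ z0 : ℕ, 3 ≤ z0 → z0 ≤ N →
      η0 * Real.log N ≤ Real.log z0 →
      ((GC p N z0 η1).card : ℝ) ≤ K * N * Real.exp (-(1 / 50) * Real.log (Real.log N)) := by
  classical
  have hp3 : 3 ≤ p := by
    have := hp.two_le
    omega
  obtain ⟨N₁, hN₁3, hQ⟩ := card_QQ hη1
  obtain ⟨C1, hC1, h1⟩ := S_all
  obtain ⟨C2, hC2, h2⟩ := S1_le hp hp2
  obtain ⟨C3, hC3, h3⟩ := S1_diff
  obtain ⟨C4, hC4⟩ : ∃ C4 : ℝ, C4 = C1 + C2 / 2 + 1 / 2 * (Real.log (1 / η0) + C3) + 2 := ⟨_, rfl⟩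
  refine ⟨12 / η1 * Real.exp C4, by positivity, N₁, fun N hN z0 hz3 hzN hz => ?_⟩
  have hN3 : 3 ≤ N := hN₁3.trans hN
  have hNR : (3 : ℝ) ≤ N := by exact_mod_cast hN3
  have hlogN : 1 ≤ Real.log N := by
    rw [Real.le_log_iff_exp_le (by linarith)]
    have := Real.exp_one_lt_d9
    linarith
  have hLL0 : 0 ≤ Real.log (Real.log N) := Real.log_nonneg hlogN
  obtain ⟨A, hA⟩ : ∃ A : ℝ, A = 6 * N / (η1 * Real.log N) *
    (1 / 2 : ℝ) ^ (2 / 5 * Real.log (Real.log N)) := ⟨_, rfl⟩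
  have hA0 : 0 ≤ A := by
    rw [hA]
    have : 0 < Real.log N := by linarith
    positivity
  have hcov : GC p N z0 η1 ⊆ (range 2).biUnion fun e => (Icc 1 N).biUnion fun b1 =>
      (Icc 1 N).biUnion fun m2 => (QQ p N z0 η1 e b1 m2).image (fun P => b1 * m2 * P) := by
    intro b hb
    obtain ⟨hbN, hTy, b1, m2, P, e, hG⟩ := Finset.mem_filter.1 hb
    have hbN' := Finset.mem_Icc.1 hbN
    have hP1 := hG.hP.one_le
    have hle1 : b1 ≤ b := by
      rw [hG.hb, mul_assoc]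
      exact Nat.le_mul_of_pos_right _ (Nat.mul_pos hG.h2 hP1)
    have hle2 : m2 ≤ b := by
      rw [hG.hb, mul_comm b1 m2, mul_assoc]
      exact Nat.le_mul_of_pos_right _ (Nat.mul_pos hG.h1 hP1)
    have hle3 : P ≤ b := by
      rw [hG.hb]
      exact Nat.le_mul_of_pos_left _ (Nat.mul_pos hG.h1 hG.h2)
    refine Finset.mem_biUnion.2 ⟨e, Finset.mem_range.2 (by have := hG.he; omega), ?_⟩
    refine Finset.mem_biUnion.2 ⟨b1, Finset.mem_Icc.2 ⟨hG.h1, hle1.trans hbN'.2⟩, ?_⟩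
    refine Finset.mem_biUnion.2 ⟨m2, Finset.mem_Icc.2 ⟨hG.h2, hle2.trans hbN'.2⟩, ?_⟩
    refine Finset.mem_image.2 ⟨P, Finset.mem_filter.2 ⟨Finset.mem_Icc.2 ⟨hP1, hle3.trans hbN'.2⟩,
      ?_, ?_, ?_⟩, hG.hb.symm⟩
    · rw [← hG.hb]; exact hbN'.2
    · rw [← hG.hb]; exact hTy
    · rw [← hG.hb]; exact hG
  have hcard : ((GC p N z0 η1).card : ℝ) ≤ ∑ e ∈ range 2, ∑ b1 ∈ Icc 1 N, ∑ m2 ∈ Icc 1 N,
      ((QQ p N z0 η1 e b1 m2).card : ℝ) := by
    have e1 : (GC p N z0 η1).card ≤ ∑ e ∈ range 2, ∑ b1 ∈ Icc 1 N, ∑ m2 ∈ Icc 1 N,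
        (QQ p N z0 η1 e b1 m2).card := by
      refine (Finset.card_le_card hcov).trans (Finset.card_biUnion_le.trans ?_)
      refine Finset.sum_le_sum fun e _ => Finset.card_biUnion_le.trans ?_
      refine Finset.sum_le_sum fun b1 _ => Finset.card_biUnion_le.trans ?_
      exact Finset.sum_le_sum fun m2 _ => Finset.card_image_le
    exact_mod_cast e1
  have hsum : ∑ e ∈ range 2, ∑ b1 ∈ Icc 1 N, ∑ m2 ∈ Icc 1 N,
      ((QQ p N z0 η1 e b1 m2).card : ℝ) ≤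
      2 * A * ((∑ b ∈ Icc 1 N, (1 / 2 : ℝ) ^ (om (P1 p z0) b) / b) *
        ∑ m ∈ Icc 1 N, (if OneM p m then (1 : ℝ) else 0) / m) := by
    calc ∑ e ∈ range 2, ∑ b1 ∈ Icc 1 N, ∑ m2 ∈ Icc 1 N, ((QQ p N z0 η1 e b1 m2).card : ℝ) ≤
        ∑ e ∈ range 2, ∑ b1 ∈ Icc 1 N, ∑ m2 ∈ Icc 1 N,
          A * ((1 / 2 : ℝ) ^ (om (P1 p z0) b1) / b1) * ((if OneM p m2 then (1 : ℝ) else 0) / m2) := by
          refine Finset.sum_le_sum fun e _ => Finset.sum_le_sum fun b1 hb1 =>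
            Finset.sum_le_sum fun m2 hm2 => ?_
          rw [hA]
          exact hQ p N z0 e b1 m2 hN hp3 (Finset.mem_Icc.1 hb1).1 (Finset.mem_Icc.1 hm2).1
      _ = _ := by
          rw [Finset.sum_const, Finset.card_range, nsmul_eq_mul, Finset.sum_mul_sum, Finset.mul_sum,
            Finset.mul_sum]
          refine Finset.sum_congr rfl fun b1 _ => ?_
          rw [Finset.mul_sum, Finset.mul_sum]
          refine Finset.sum_congr rfl fun m2 _ => ?_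
          push_cast
          ring
  have he1 := euler1 (p := p) hzN
  have he2 := euler2 (p := p) (N := N)
  have hprod : (∑ b ∈ Icc 1 N, (1 / 2 : ℝ) ^ (om (P1 p z0) b) / b) *
        ∑ m ∈ Icc 1 N, (if OneM p m then (1 : ℝ) else 0) / m ≤
      Real.exp ((∑ l ∈ (Icc 1 N).filter Nat.Prime, (1 : ℝ) / l -
        1 / 2 * ∑ l ∈ P1 p z0, (1 : ℝ) / l + 1) + (∑ l ∈ P1 p N, (1 : ℝ) / l + 1)) := by
    rw [Real.exp_add]
    apply mul_le_mul he1 he2 _ (Real.exp_pos _).le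
    refine Finset.sum_nonneg fun m _ => div_nonneg ?_ (Nat.cast_nonneg m)
    split_ifs <;> norm_num
  have hX : (∑ l ∈ (Icc 1 N).filter Nat.Prime, (1 : ℝ) / l -
        1 / 2 * ∑ l ∈ P1 p z0, (1 : ℝ) / l + 1) + (∑ l ∈ P1 p N, (1 : ℝ) / l + 1) ≤
      5 / 4 * Real.log (Real.log N) + C4 := by
    have f1 := (abs_le.1 (h1 N hN3)).2
    have f2 := h2 N hN3
    have f3 := h3 p z0 N hz3 hzN
    have f4 : Real.log (Real.log N / Real.log z0) ≤ Real.log (1 / η0) := by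
      have hlz : 0 < Real.log z0 := lt_of_lt_of_le (by positivity) hz
      apply Real.log_le_log (by positivity)
      rw [div_le_div_iff₀ hlz hη0]
      linarith
    rw [hC4]
    linarith
  have hexp : Real.exp (Real.log (Real.log N)) = Real.log N := Real.exp_log (by linarith)
  have hfin := expo_bound (N := N) hη1 (by linarith) hLL0 hX
  rw [hexp, ← hA] at hfin
  calc ((GC p N z0 η1).card : ℝ) ≤ _ := hcard
    _ ≤ _ := hsum
    _ ≤ 2 * A * Real.exp ((∑ l ∈ (Icc 1 N).filter Nat.Prime, (1 : ℝ) / l -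
        1 / 2 * ∑ l ∈ P1 p z0, (1 : ℝ) / l + 1) + (∑ l ∈ P1 p N, (1 : ℝ) / l + 1)) :=
        mul_le_mul_of_nonneg_left hprod (by positivity)
    _ ≤ _ := hfin

end Pool.Agent.TH863.D
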