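import Mathlib
import Pool.Agent.TH863.D.Typ
import Pool.Agent.TH863.D.MertP
import Pool.Agent.H617R3.BT.Defs

/-!
Integers with two large prime divisors which are congruent to `1` modulo a large prime.
-/

set_option autoImplicit false

namespace Pool.Agent.TH863.D

open Finset Real

/-- primes `l ≤ N`, `l ≡ 1`, `z ≤ l` -/
noncomputable def WW (p N : ℕ) (z : ℝ) : Finset ℕ := (P1 p N).filter (fun l => z ≤ (l : ℝ))

lemma mem_WW {p N l : ℕ} {z : ℝ} : l ∈ WW p N z ↔
    ((1 ≤ l ∧ l ≤ N) ∧ l.Prime ∧ l % p = 1) ∧ z ≤ (l : ℝ) := by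
  rw [WW, Finset.mem_filter, mem_P1]

theorem sum_WW : ∃ Z : ℝ, 3 ≤ Z ∧ ∀ (p N : ℕ) (z : ℝ), p.Prime → Z ≤ z → 3 ≤ N →
    (p : ℝ) ^ 2 ≤ z → ∑ l ∈ WW p N z, (1 : ℝ) / l ≤ 72 * (Real.log N / Real.log z) / p := by
  classical
  obtain ⟨Z, hZ3, hZ⟩ := Pool.Agent.H617R3.BT.bt 1 one_pos
  refine ⟨Z ^ 2, by nlinarith, fun p N z hp hz hN hpz => ?_⟩
  have hNR : (3 : ℝ) ≤ N := by exact_mod_cast hN
  have hZ0 : 0 < Z := by linarith
  have hz9 : 9 ≤ z := by nlinarith
  have hz0 : 0 < z := by linarith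
  have hpR : (2 : ℝ) ≤ p := by exact_mod_cast hp.two_le
  have hlogz : 1 ≤ Real.log z := by
    rw [Real.le_log_iff_exp_le hz0]
    have := Real.exp_one_lt_d9
    linarith
  have hlogN : 1 ≤ Real.log N := by
    rw [Real.le_log_iff_exp_le (by linarith)]
    have := Real.exp_one_lt_d9
    linarith
  have htot : (p : ℝ) / 2 ≤ (Nat.totient p : ℝ) := by
    rw [Nat.totient_prime hp, Nat.cast_sub hp.one_le]
    push_cast
    linarith
  -- bound for one block
  have hblock : ∀ j ∈ range (Nat.log 2 N + 1),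
      ∑ l ∈ (WW p N z).filter (fun l => Nat.log 2 l = j), (1 : ℝ) / l ≤ 24 / (p * Real.log z) := by
    intro j _
    rcases Finset.eq_empty_or_nonempty ((WW p N z).filter (fun l => Nat.log 2 l = j)) with h0 | ⟨l0, hl0⟩
    · rw [h0, Finset.sum_empty]
      have : 0 < Real.log z := by linarith
      positivity
    · obtain ⟨x, hx⟩ : ∃ x : ℝ, x = 2 ^ (j + 1) := ⟨_, rfl⟩
      have hblk : ∀ l ∈ (WW p N z).filter (fun l => Nat.log 2 l = j), (2 : ℝ) ^ j ≤ l ∧ (l : ℝ) ≤ x := by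
        intro l hl
        obtain ⟨h1, h2⟩ := Finset.mem_filter.1 hl
        have h3 := (mem_WW.1 h1).1.1.1
        have h4 : 2 ^ j ≤ l := by
          rw [← h2]
          exact Nat.pow_log_le_self 2 (by omega)
        have h5 : l < 2 ^ (j + 1) := by
          rw [← h2]
          exact Nat.lt_pow_succ_log_self (by norm_num) l
        refine ⟨by exact_mod_cast h4, ?_⟩
        rw [hx]
        exact_mod_cast h5.le
      have hxz : z ≤ x := (mem_WW.1 (Finset.mem_filter.1 hl0).1).2.trans (hblk l0 hl0).2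
      have hx0 : 0 < x := by linarith
      -- `x / p ≥ √x`
      have hp0 : (0 : ℝ) < p := by linarith
      have hsq : Real.sqrt x ≤ x / p := by
        rw [le_div_iff₀ hp0]
        have h1 : (p : ℝ) ≤ Real.sqrt x := Real.le_sqrt_of_sq_le (hpz.trans hxz)
        have h2 : Real.sqrt x * Real.sqrt x = x := Real.mul_self_sqrt hx0.le
        have h3 := Real.sqrt_nonneg x
        nlinarith
      have hZx : Z ≤ x / p := by
        refine le_trans ?_ hsq
        exact Real.le_sqrt_of_sq_le (hz.trans hxz)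
      have hlogx : 1 / 2 * Real.log z ≤ Real.log (x / p) := by
        have h1 : Real.log (Real.sqrt x) = Real.log x / 2 := Real.log_sqrt hx0.le
        have h2 : Real.log (Real.sqrt x) ≤ Real.log (x / p) :=
          Real.log_le_log (Real.sqrt_pos.2 hx0) hsq
        have h3 : Real.log z ≤ Real.log x := Real.log_le_log hz0 hxz
        linarith
      have hcnt : (((WW p N z).filter (fun l => Nat.log 2 l = j)).card : ℝ) ≤
          12 * x / (p * Real.log z) := by
        have h1 : ((WW p N z).filter (fun l => Nat.log 2 l = j)) ⊆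
            Pool.Agent.H617R3.BT.pf x x p 1 := by
          intro l hl
          have h2 := (mem_WW.1 (Finset.mem_filter.1 hl).1).1
          rw [Pool.Agent.H617R3.BT.mem_pf]
          refine ⟨h2.2.1, ?_, (hblk l hl).2, ?_⟩
          · rw [sub_self]
            exact_mod_cast h2.2.1.pos
          · have h3 : ((l % p : ℕ) : ℤ) = 1 := by rw [h2.2.2]; rfl
            rw [Int.ModEq]
            push_cast at h3
            rw [h3, Int.emod_eq_of_lt (by norm_num) (by exact_mod_cast hp.one_lt)]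
        have h2 := Finset.card_le_card h1
        rw [← Pool.Agent.H617R3.BT.cnt_eq] at h2
        have h3 := hZ p 1 x x hp.one_le hZx
        have h4 : (((WW p N z).filter (fun l => Nat.log 2 l = j)).card : ℝ) ≤
            (2 + 1) * x / ((Nat.totient p : ℝ) * Real.log (x / p)) :=
          (by exact_mod_cast h2 : _ ≤ ((Pool.Agent.H617R3.BT.cnt x x p 1 : ℕ) : ℝ)).trans h3
        refine h4.trans ?_
        have h5 : (p : ℝ) / 2 * (1 / 2 * Real.log z) ≤ (Nat.totient p : ℝ) * Real.log (x / p) :=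
          mul_le_mul htot hlogx (by linarith) (Nat.cast_nonneg _)
        calc (2 + 1) * x / ((Nat.totient p : ℝ) * Real.log (x / p)) ≤
            (2 + 1) * x / ((p : ℝ) / 2 * (1 / 2 * Real.log z)) :=
              div_le_div_of_nonneg_left (by positivity) (by positivity) h5
          _ = 12 * x / (p * Real.log z) := by
              have : Real.log z ≠ 0 := by linarith
              field_simp
              ring
      have hx2 : x = 2 * 2 ^ j := by rw [hx, pow_succ]; ring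
      calc ∑ l ∈ (WW p N z).filter (fun l => Nat.log 2 l = j), (1 : ℝ) / l ≤
          ∑ _l ∈ (WW p N z).filter (fun l => Nat.log 2 l = j), (1 : ℝ) / 2 ^ j := by
            refine Finset.sum_le_sum fun l hl => ?_
            exact one_div_le_one_div_of_le (by positivity) (hblk l hl).1
        _ = ((WW p N z).filter (fun l => Nat.log 2 l = j)).card * (1 / 2 ^ j) := by
            rw [Finset.sum_const, nsmul_eq_mul]
        _ ≤ 12 * x / (p * Real.log z) * (1 / 2 ^ j) :=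
            mul_le_mul_of_nonneg_right hcnt (by positivity)
        _ = 24 / (p * Real.log z) := by
            rw [hx2]
            have : Real.log z ≠ 0 := by linarith
            field_simp
            ring
  have hsplit : ∑ l ∈ WW p N z, (1 : ℝ) / l = ∑ j ∈ range (Nat.log 2 N + 1),
      ∑ l ∈ (WW p N z).filter (fun l => Nat.log 2 l = j), (1 : ℝ) / l := by
    rw [Finset.sum_fiberwise_of_maps_to]
    intro l hl
    have := (mem_WW.1 hl).1.1.2
    exact Finset.mem_range.2 (Nat.lt_succ_of_le (Nat.log_mono_right this))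
  rw [hsplit]
  refine (Finset.sum_le_sum hblock).trans ?_
  rw [Finset.sum_const, Finset.card_range, nsmul_eq_mul]
  have hJ : ((Nat.log 2 N + 1 : ℕ) : ℝ) ≤ 3 * Real.log N := by
    have h1 : 2 ^ Nat.log 2 N ≤ N := Nat.pow_log_le_self 2 (by omega)
    have h2 : ((2 : ℝ)) ^ Nat.log 2 N ≤ N := by exact_mod_cast h1
    have h3 := Real.log_le_log (by positivity) h2
    rw [Real.log_pow] at h3
    have h4 := Real.log_two_gt_d9
    push_cast
    have h5 : (0 : ℝ) ≤ (Nat.log 2 N : ℝ) := Nat.cast_nonneg _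
    nlinarith
  have hz1 : 0 < Real.log z := by linarith
  calc ((Nat.log 2 N + 1 : ℕ) : ℝ) * (24 / (p * Real.log z)) ≤
      3 * Real.log N * (24 / (p * Real.log z)) := mul_le_mul_of_nonneg_right hJ (by positivity)
    _ = 72 * (Real.log N / Real.log z) / p := by
      field_simp
      ring

open Classical in
theorem card_dvd_some' {ι : Type*} (N : ℕ) (S : Finset ι) (f : ι → ℕ) :
    (((Icc 1 N).filter (fun b => ∃ l ∈ S, f l ∣ b)).card : ℝ) ≤ N * ∑ l ∈ S, (1 : ℝ) / f l := by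
  have h1 : (Icc 1 N).filter (fun b => ∃ l ∈ S, f l ∣ b) ⊆
      S.biUnion (fun l => (Icc 1 N).filter (fun b => f l ∣ b)) := by
    intro b hb
    obtain ⟨hb1, l, hl, hd⟩ := Finset.mem_filter.1 hb
    exact Finset.mem_biUnion.2 ⟨l, hl, Finset.mem_filter.2 ⟨hb1, hd⟩⟩
  have h2 : (((Icc 1 N).filter (fun b => ∃ l ∈ S, f l ∣ b)).card : ℝ) ≤
      ∑ l ∈ S, (((Icc 1 N).filter (fun b => f l ∣ b)).card : ℝ) := by
    exact_mod_cast (Finset.card_le_card h1).trans Finset.card_biUnion_le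
  refine h2.trans ?_
  rw [Finset.mul_sum]
  refine Finset.sum_le_sum fun l _ => ?_
  rw [card_mult, mul_one_div]
  exact Nat.cast_div_le

lemma sum_inv_sq_tail (P0 R : ℕ) (h : 1 ≤ P0) : ∑ n ∈ Ioc P0 R, (1 : ℝ) / (n : ℝ) ^ 2 ≤ 1 / P0 := by
  rcases Nat.lt_or_ge R P0 with h1 | h1
  · rw [Finset.Ioc_eq_empty (by omega), Finset.sum_empty]
    positivity
  · have h2 : ∀ R : ℕ, P0 ≤ R → ∑ n ∈ Ioc P0 R, (1 : ℝ) / (n : ℝ) ^ 2 ≤ 1 / P0 - 1 / R := by
      intro R hR
      induction R, hR using Nat.le_induction with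
      | base => simp
      | succ n hn ih =>
        rw [Finset.sum_Ioc_succ_top (by omega)]
        have hn0 : (0 : ℝ) < n := by exact_mod_cast (by omega : 0 < n)
        have h3 : (1 : ℝ) / ((n + 1 : ℕ) : ℝ) ^ 2 ≤ 1 / n - 1 / ((n + 1 : ℕ) : ℝ) := by
          push_cast
          rw [div_sub_div _ _ hn0.ne' (by positivity), div_le_div_iff₀ (by positivity) (by positivity)]
          nlinarith
        linarith
    have h3 := h2 R h1
    have : (0 : ℝ) ≤ 1 / R := by positivity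
    linarith

open Classical in
/-- integers with two large prime divisors congruent to `1` modulo a prime `p > P0` -/
noncomputable def DS (N P0 : ℕ) (z : ℝ) : Finset ℕ :=
  (Icc 1 N).filter (fun b => ∃ p : ℕ, p.Prime ∧ P0 < p ∧ (p : ℝ) ^ 2 ≤ z ∧
    ∃ P Q : ℕ, P.Prime ∧ Q.Prime ∧ P ≠ Q ∧ z ≤ (P : ℝ) ∧ z ≤ (Q : ℝ) ∧ P % p = 1 ∧ Q % p = 1 ∧
      P ∣ b ∧ Q ∣ b)

theorem card_DS : ∃ Z : ℝ, 3 ≤ Z ∧ ∀ (N P0 : ℕ) (z : ℝ), 3 ≤ N → 1 ≤ P0 → Z ≤ z → z ≤ N →
    ((DS N P0 z).card : ℝ) ≤ 5184 * (Real.log N / Real.log z) ^ 2 / P0 * N := by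
  classical
  obtain ⟨Z, hZ3, hZ⟩ := sum_WW
  refine ⟨Z, hZ3, fun N P0 z hN hP0 hz hzN => ?_⟩
  have hNR : (3 : ℝ) ≤ N := by exact_mod_cast hN
  obtain ⟨T, hT⟩ : ∃ T : Finset ℕ, T = (Ioc P0 N).filter (fun p : ℕ => p.Prime ∧ (p : ℝ) ^ 2 ≤ z) := ⟨_, rfl⟩
  have hsub : DS N P0 z ⊆ T.biUnion (fun p => (Icc 1 N).filter
      (fun b => ∃ l ∈ (WW p N z) ×ˢ (WW p N z), l.1 * l.2 ∣ b)) := by
    intro b hb
    obtain ⟨hbN, p, hp, hpP, hpz, P, Q, hP, hQ, hPQ, hzP, hzQ, hP1, hQ1, hPb, hQb⟩ :=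
      Finset.mem_filter.1 hb
    have hbN' := Finset.mem_Icc.1 hbN
    have hpN : p ≤ N := by
      have h1 : (p : ℝ) ≤ (p : ℝ) ^ 2 := by
        have : (1 : ℝ) ≤ p := by exact_mod_cast hp.one_le
        nlinarith
      exact_mod_cast h1.trans (hpz.trans hzN)
    refine Finset.mem_biUnion.2 ⟨p, ?_, Finset.mem_filter.2 ⟨hbN, (P, Q), ?_, ?_⟩⟩
    · rw [hT]
      exact Finset.mem_filter.2 ⟨Finset.mem_Ioc.2 ⟨hpP, hpN⟩, hp, hpz⟩
    · rw [Finset.mem_product]
      exact ⟨mem_WW.2 ⟨⟨⟨hP.one_le, (Nat.le_of_dvd hbN'.1 hPb).trans hbN'.2⟩, hP, hP1⟩, hzP⟩,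
        mem_WW.2 ⟨⟨⟨hQ.one_le, (Nat.le_of_dvd hbN'.1 hQb).trans hbN'.2⟩, hQ, hQ1⟩, hzQ⟩⟩
    · exact ((Nat.coprime_primes hP hQ).2 hPQ).mul_dvd_of_dvd_of_dvd hPb hQb
  have hone : ∀ p ∈ T, (((Icc 1 N).filter
      (fun b => ∃ l ∈ (WW p N z) ×ˢ (WW p N z), l.1 * l.2 ∣ b)).card : ℝ) ≤
      N * (5184 * (Real.log N / Real.log z) ^ 2) * (1 / (p : ℝ) ^ 2) := by
    intro p hp
    rw [hT] at hp
    obtain ⟨h1, h2, h3⟩ := Finset.mem_filter.1 hp
    have h4 := card_dvd_some' N ((WW p N z) ×ˢ (WW p N z)) (fun l => l.1 * l.2)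
    refine h4.trans ?_
    have h5 : ∑ l ∈ (WW p N z) ×ˢ (WW p N z), (1 : ℝ) / ((l.1 * l.2 : ℕ) : ℝ) =
        (∑ l ∈ WW p N z, (1 : ℝ) / l) ^ 2 := by
      rw [sq, Finset.sum_mul_sum, Finset.sum_product]
      refine Finset.sum_congr rfl fun i _ => Finset.sum_congr rfl fun j _ => ?_
      push_cast
      rw [one_div_mul_one_div]
    rw [h5]
    have h6 := hZ p N z h2 hz hN h3
    have h7 : 0 ≤ ∑ l ∈ WW p N z, (1 : ℝ) / l := Finset.sum_nonneg fun l _ => by positivity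
    have h8 := pow_le_pow_left₀ h7 h6 2
    calc (N : ℝ) * (∑ l ∈ WW p N z, (1 : ℝ) / l) ^ 2 ≤
        N * (72 * (Real.log N / Real.log z) / p) ^ 2 := mul_le_mul_of_nonneg_left h8 (by positivity)
      _ = _ := by ring
  have h1 : ((DS N P0 z).card : ℝ) ≤ ∑ p ∈ T, (((Icc 1 N).filter
      (fun b => ∃ l ∈ (WW p N z) ×ˢ (WW p N z), l.1 * l.2 ∣ b)).card : ℝ) := by
    exact_mod_cast (Finset.card_le_card hsub).trans Finset.card_biUnion_le
  refine h1.trans ((Finset.sum_le_sum hone).trans ?_)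
  rw [← Finset.mul_sum]
  have h2 : ∑ p ∈ T, (1 : ℝ) / (p : ℝ) ^ 2 ≤ 1 / P0 := by
    refine le_trans ?_ (sum_inv_sq_tail P0 N hP0)
    rw [hT]
    exact Finset.sum_le_sum_of_subset_of_nonneg (Finset.filter_subset _ _) (fun _ _ _ => by positivity)
  calc (N : ℝ) * (5184 * (Real.log N / Real.log z) ^ 2) * ∑ p ∈ T, (1 : ℝ) / (p : ℝ) ^ 2 ≤
      (N : ℝ) * (5184 * (Real.log N / Real.log z) ^ 2) * (1 / P0) :=
        mul_le_mul_of_nonneg_left h2 (by positivity)
    _ = _ := by ring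

end Pool.Agent.TH863.D
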