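import Mathlib
import Pool.Agent.TH863.Alg

/-!
The structure of the solutions of `b ^ q = x ^ p - y ^ p`.
-/

set_option autoImplicit false

namespace Pool.Agent.TH863.D

open Finset Pool.Agent.TH863

/-- data attached to a solution of `b ^ q + y ^ p = x ^ p` -/
structure DD (p q b b1 b2 e : ℕ) : Prop where
  he : e ≤ 1
  h1 : 1 ≤ b1
  h2 : 1 ≤ b2
  hb : b = b1 * b2
  /-- size of `b1`, first form -/
  s1 : b1 ^ p ≤ p ^ p * b
  /-- size of `b1`, second form -/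
  s2 : b1 ^ p ≤ b ^ 2
  one : ∀ l : ℕ, l.Prime → l ∣ b2 → l % p = 1
  sq : Odd q → ∀ l : ℕ, l.Prime → l ∣ b1 → l ≠ 2 → l ≠ p →
    ∃ u : ZMod l, u ≠ 0 ∧ (((p ^ (e + 1) * b2 : ℕ)) : ZMod l) = u ^ 2
  ex : ∃ x : ℕ, x ^ (p - 1) ≤ p ^ e * b2 ^ q ∧
    GG p x (x - ((b1 ^ q / p ^ e : ℕ) : ℤ)) = (p : ℤ) ^ e * (b2 : ℤ) ^ q

/-- for `x ≡ y` the second factor is `p x ^ (p - 1)` -/
lemma GG_cong {p : ℕ} {l : ℕ} {x y : ℤ} (h : (x : ZMod l) = (y : ZMod l)) :
    ((GG p x y : ℤ) : ZMod l) = (p : ZMod l) * (x : ZMod l) ^ (p - 1) := by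
  unfold GG
  push_cast
  have : ∀ i ∈ range p, (x : ZMod l) ^ i * (y : ZMod l) ^ (p - 1 - i) = (x : ZMod l) ^ (p - 1) := by
    intro i hi
    rw [Finset.mem_range] at hi
    rw [← h, ← pow_add]
    congr 1
    omega
  rw [Finset.sum_congr rfl this, Finset.sum_const, Finset.card_range, nsmul_eq_mul]

lemma GG_ge {p x y : ℕ} (hp : 1 ≤ p) : x ^ (p - 1) ≤ ∑ i ∈ range p, x ^ i * y ^ (p - 1 - i) := by
  have h1 : x ^ (p - 1) * y ^ (p - 1 - (p - 1)) ≤ ∑ i ∈ range p, x ^ i * y ^ (p - 1 - i) :=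
    Finset.single_le_sum (f := fun i => x ^ i * y ^ (p - 1 - i)) (fun i _ => Nat.zero_le _)
      (Finset.mem_range.2 (by omega))
  simpa using h1

theorem dd_of_solution {p q x y b : ℕ} (hp : p.Prime) (hp2 : p ≠ 2) (hq : 2 ≤ q)
    (hxy : Nat.Coprime x y) (hb : 0 < b) (h : b ^ q + y ^ p = x ^ p) :
    ∃ b1 b2 e : ℕ, DD p q b b1 b2 e := by
  have hp3 : 3 ≤ p := by
    have := hp.two_le
    omega
  have hodd : Odd p := hp.odd_of_ne_two hp2
  have hlt : y < x := by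
    have h0 : 0 < b ^ q := by positivity
    have h1 : y ^ p < x ^ p := by omega
    exact lt_of_pow_lt_pow_left₀ p (Nat.zero_le _) h1
  have hco : IsCoprime (x : ℤ) (y : ℤ) := Nat.isCoprime_iff_coprime.2 hxy
  have hd : (0 : ℤ) < (x : ℤ) - (y : ℤ) := by
    have : (y : ℤ) < x := by exact_mod_cast hlt
    omega
  have heq : (x : ℤ) ^ p - (y : ℤ) ^ p = (b : ℤ) ^ q := by
    have : ((b ^ q + y ^ p : ℕ) : ℤ) = ((x ^ p : ℕ) : ℤ) := by rw [h]
    push_cast at this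
    linarith
  obtain ⟨b1, b2, e, he, hb12, hcop, hb1, hb2, hD, hG, he1, he0, hpb2, hone⟩ :=
    split hp hp2 hco hb (by omega) hd heq
  -- naturals
  obtain ⟨d, hd'⟩ : ∃ d : ℕ, x = y + d := ⟨x - y, by omega⟩
  have hdI : (x : ℤ) - y = (d : ℤ) := by rw [hd']; push_cast; ring
  have hDn : p ^ e * d = b1 ^ q := by
    have : (p : ℤ) ^ e * (d : ℤ) = (b1 : ℤ) ^ q := by rw [← hdI]; exact hD
    exact_mod_cast this
  obtain ⟨G, hGe⟩ : ∃ G : ℕ, G = ∑ i ∈ range p, x ^ i * y ^ (p - 1 - i) := ⟨_, rfl⟩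
  have hGI : GG p (x : ℤ) (y : ℤ) = (G : ℤ) := by
    rw [hGe]
    unfold GG
    push_cast
    rfl
  have hGn : G = p ^ e * b2 ^ q := by
    have : (G : ℤ) = (p : ℤ) ^ e * (b2 : ℤ) ^ q := by rw [← hGI]; exact hG
    exact_mod_cast this
  have hxG : x ^ (p - 1) ≤ G := by
    rw [hGe]
    exact GG_ge (by omega)
  have hdG : d ^ (p - 1) ≤ G := (Nat.pow_le_pow_left (by omega) _).trans hxG
  have hpe : 0 < p ^ e := Nat.pow_pos hp.pos
  -- main size inequality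
  have hmain : b1 ^ (q * (p - 1)) ≤ p ^ (e * p) * b2 ^ q := by
    have h1 : b1 ^ (q * (p - 1)) = p ^ (e * (p - 1)) * d ^ (p - 1) := by
      rw [pow_mul, ← hDn, mul_pow, ← pow_mul]
    rw [h1]
    calc p ^ (e * (p - 1)) * d ^ (p - 1) ≤ p ^ (e * (p - 1)) * G := Nat.mul_le_mul_left _ hdG
      _ = (p ^ (e * (p - 1)) * p ^ e) * b2 ^ q := by rw [hGn]; ring
      _ = p ^ (e * p) * b2 ^ q := by
        rw [← pow_add]
        congr 2
        obtain ⟨k, rfl⟩ : ∃ k, p = k + 1 := ⟨p - 1, by omega⟩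
        rw [Nat.add_sub_cancel]
        ring
  have hmain2 : b1 ^ (q * p) ≤ p ^ (e * p) * b ^ q := by
    have h1 : b1 ^ (q * p) = b1 ^ (q * (p - 1)) * b1 ^ q := by
      rw [← pow_add]
      congr 1
      obtain ⟨k, rfl⟩ : ∃ k, p = k + 1 := ⟨p - 1, by omega⟩
      rw [Nat.add_sub_cancel]
      ring
    rw [h1, hb12, mul_pow]
    calc b1 ^ (q * (p - 1)) * b1 ^ q ≤ (p ^ (e * p) * b2 ^ q) * b1 ^ q := Nat.mul_le_mul_right _ hmain
      _ = p ^ (e * p) * (b1 ^ q * b2 ^ q) := by ring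
  refine ⟨b1, b2, e, ⟨he, hb1, hb2, hb12, ?_, ?_, hone, ?_, ?_⟩⟩
  · -- `b1 ^ p ≤ p ^ p * b`
    have h1 : (b1 ^ p) ^ q ≤ (p ^ p * b) ^ q := by
      calc (b1 ^ p) ^ q = b1 ^ (q * p) := by rw [← pow_mul, mul_comm]
        _ ≤ p ^ (e * p) * b ^ q := hmain2
        _ ≤ (p ^ p) ^ q * b ^ q := by
          apply Nat.mul_le_mul_right
          rw [← pow_mul]
          apply Nat.pow_le_pow_right hp.pos
          calc e * p ≤ 1 * p := Nat.mul_le_mul_right _ he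
            _ ≤ p * q := by rw [one_mul]; exact Nat.le_mul_of_pos_right _ (by omega)
        _ = (p ^ p * b) ^ q := (mul_pow _ _ _).symm
    exact le_of_pow_le_pow_left₀ (by omega) (Nat.zero_le _) h1
  · -- `b1 ^ p ≤ b ^ 2`
    have h1 : p ^ (e * p) ≤ b1 ^ p := by
      rcases Nat.lt_or_ge e 1 with h0 | h0
      · have : e = 0 := by omega
        rw [this, zero_mul, pow_zero]
        exact Nat.one_le_pow _ _ hb1
      · have : e = 1 := by omega
        rw [this, one_mul]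
        exact Nat.pow_le_pow_left (Nat.le_of_dvd hb1 (he1 this)) _
    have h2 : b1 ^ p * (b1 ^ p) ^ (q - 1) ≤ b1 ^ p * b ^ q := by
      calc b1 ^ p * (b1 ^ p) ^ (q - 1) = b1 ^ (q * p) := by
            rw [← pow_succ', ← pow_mul, mul_comm q p]
            congr 2
            omega
        _ ≤ p ^ (e * p) * b ^ q := hmain2
        _ ≤ b1 ^ p * b ^ q := Nat.mul_le_mul_right _ h1
    have h3 : (b1 ^ p) ^ (q - 1) ≤ b ^ q := Nat.le_of_mul_le_mul_left h2 (by positivity)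
    have h4 : (b1 ^ p) ^ (q - 1) ≤ (b ^ 2) ^ (q - 1) := by
      refine h3.trans ?_
      rw [← pow_mul]
      exact Nat.pow_le_pow_right hb (by omega)
    exact le_of_pow_le_pow_left₀ (by omega) (Nat.zero_le _) h4
  · -- squares
    intro hqo l hl hlb1 hl2 hlp
    have : Fact l.Prime := ⟨hl⟩
    have hld : l ∣ d := by
      have h1 : l ∣ p ^ e * d := by
        rw [hDn]
        exact dvd_pow hlb1 (by omega)
      rcases hl.dvd_mul.1 h1 with h2 | h2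
      · exact absurd ((Nat.prime_dvd_prime_iff_eq hl hp).1 (hl.dvd_of_dvd_pow h2)) hlp
      · exact h2
    have hxy' : ((x : ℤ) : ZMod l) = ((y : ℤ) : ZMod l) := by
      have h1 : ((d : ℕ) : ZMod l) = 0 := (ZMod.natCast_eq_zero_iff _ _).2 hld
      rw [hd']
      push_cast
      rw [h1, add_zero]
    have hx0 : ((x : ℕ) : ZMod l) ≠ 0 := by
      intro hx
      rw [ZMod.natCast_eq_zero_iff] at hx
      have hy : l ∣ y := (Nat.dvd_add_left hld).1 (hd' ▸ hx)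
      exact hl.not_dvd_one (hxy ▸ Nat.dvd_gcd hx hy)
    have hp0 : ((p : ℕ) : ZMod l) ≠ 0 := by
      rw [Ne, ZMod.natCast_eq_zero_iff]
      intro hdv
      exact hlp ((Nat.prime_dvd_prime_iff_eq hl hp).1 hdv)
    have hb20 : ((b2 : ℕ) : ZMod l) ≠ 0 := by
      rw [Ne, ZMod.natCast_eq_zero_iff]
      intro hdv
      exact hl.not_dvd_one (hcop ▸ Nat.dvd_gcd hlb1 hdv)
    have hc := GG_cong (p := p) hxy'
    rw [hG] at hc
    push_cast at hc
    obtain ⟨k, hk⟩ := hqo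
    obtain ⟨j, hj⟩ := hodd
    have hpj : p - 1 = 2 * j := by omega
    rw [hpj, hk] at hc
    refine ⟨(p : ZMod l) * (x : ZMod l) ^ j * ((b2 : ZMod l) ^ k)⁻¹, ?_, ?_⟩
    · exact mul_ne_zero (mul_ne_zero hp0 (pow_ne_zero _ hx0)) (inv_ne_zero (pow_ne_zero _ hb20))
    · have hbk : (b2 : ZMod l) ^ k ≠ 0 := pow_ne_zero _ hb20
      have e1 : ((p : ZMod l) * (x : ZMod l) ^ j * ((b2 : ZMod l) ^ k)⁻¹) ^ 2 =
        (p : ZMod l) * ((p : ZMod l) * (x : ZMod l) ^ (2 * j)) * (((b2 : ZMod l) ^ k)⁻¹) ^ 2 := by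
        ring
      have e2 : (b2 : ZMod l) ^ k * ((b2 : ZMod l) ^ k)⁻¹ = 1 := mul_inv_cancel₀ hbk
      rw [e1, ← hc]
      push_cast
      calc (p : ZMod l) ^ (e + 1) * (b2 : ZMod l) =
          (p : ZMod l) ^ (e + 1) * (b2 : ZMod l) * ((b2 : ZMod l) ^ k * ((b2 : ZMod l) ^ k)⁻¹) ^ 2 := by
            rw [e2, one_pow, mul_one]
        _ = _ := by ring
  · refine ⟨x, hGn ▸ hxG, ?_⟩
    have h1 : b1 ^ q / p ^ e = d := by
      rw [← hDn]
      exact Nat.mul_div_cancel_left _ hpe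
    rw [h1]
    have h2 : (x : ℤ) - (d : ℤ) = y := by rw [hd']; push_cast; ring
    rw [h2, hG]

end Pool.Agent.TH863.D
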