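import Mathlib
import Pool.Agent.TH863.D.Struct

/-!
The exponent `q = 2`.
-/

set_option autoImplicit false

namespace Pool.Agent.TH863.D

open Finset Real Pool.Agent.TH863

open Classical in
/-- squares which are differences of coprime `p`-th powers -/
noncomputable def QS (p N : ℕ) : Finset ℕ :=
  (Icc 1 N).filter (fun b => ∃ b1 b2 e, DD p 2 b b1 b2 e)

theorem card_QS {p : ℕ} (hp5 : 5 ≤ p) : ∀ N : ℕ, 1 ≤ N →
    ((QS p N).card : ℝ) ≤ 8 * p * (N : ℝ) ^ (9 / 10 : ℝ) := by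
  classical
  intro N hN
  have hNR : (1 : ℝ) ≤ N := by exact_mod_cast hN
  have hpR : (5 : ℝ) ≤ p := by exact_mod_cast hp5
  obtain ⟨B, hB⟩ : ∃ B : ℕ, B = ⌊(N : ℝ) ^ (2 / 5 : ℝ)⌋₊ := ⟨_, rfl⟩
  obtain ⟨X, hX⟩ : ∃ X : ℕ, X = ⌊p * (N : ℝ) ^ (1 / 2 : ℝ)⌋₊ := ⟨_, rfl⟩
  -- the number determined by `e`, `b1`, `x`
  have hex : ∀ b ∈ QS p N, ∃ t : ℕ × ℕ × ℕ, t ∈ (range 2) ×ˢ ((Icc 1 B) ×ˢ (range (X + 1))) ∧
      ∃ b2 : ℕ, b = t.2.1 * b2 ∧
        GG p t.2.2 (t.2.2 - ((t.2.1 ^ 2 / p ^ t.1 : ℕ) : ℤ)) = (p : ℤ) ^ t.1 * (b2 : ℤ) ^ 2 := by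
    intro b hb
    obtain ⟨hbN, b1, b2, e, D⟩ := Finset.mem_filter.1 hb
    have hbN' := Finset.mem_Icc.1 hbN
    obtain ⟨x, hx1, hx2⟩ := D.ex
    refine ⟨(e, b1, x), ?_, b2, D.hb, hx2⟩
    rw [Finset.mem_product, Finset.mem_product]
    refine ⟨Finset.mem_range.2 (by have := D.he; omega), Finset.mem_Icc.2 ⟨D.h1, ?_⟩,
      Finset.mem_range.2 (Nat.lt_succ_of_le ?_)⟩
    · rw [hB]
      apply Nat.le_floor
      have h1 : b1 ^ 5 ≤ N ^ 2 := by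
        calc b1 ^ 5 ≤ b1 ^ p := Nat.pow_le_pow_right D.h1 hp5
          _ ≤ b ^ 2 := D.s2
          _ ≤ N ^ 2 := Nat.pow_le_pow_left hbN'.2 2
      have h2 : (b1 : ℝ) ^ 5 ≤ ((N : ℝ) ^ (2 / 5 : ℝ)) ^ 5 := by
        rw [← Real.rpow_natCast ((N : ℝ) ^ (2 / 5 : ℝ)), ← Real.rpow_mul (by linarith)]
        norm_num
        exact_mod_cast h1
      exact le_of_pow_le_pow_left₀ (by norm_num) (by positivity) h2
    · rw [hX]
      apply Nat.le_floor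
      have hb2N : b2 ≤ N := by
        have : b2 ≤ b := by
          rw [D.hb]
          exact Nat.le_mul_of_pos_left _ D.h1
        omega
      have h1 : x ^ (p - 1) ≤ p * N ^ 2 := by
        calc x ^ (p - 1) ≤ p ^ e * b2 ^ 2 := hx1
          _ ≤ p ^ 1 * N ^ 2 := Nat.mul_le_mul (Nat.pow_le_pow_right (by omega) D.he)
            (Nat.pow_le_pow_left hb2N 2)
          _ = p * N ^ 2 := by rw [pow_one]
      have h2 : (x : ℝ) ^ (p - 1) ≤ (p * (N : ℝ) ^ (1 / 2 : ℝ)) ^ (p - 1) := by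
        have h3 : (x : ℝ) ^ (p - 1) ≤ p * (N : ℝ) ^ 2 := by exact_mod_cast h1
        refine h3.trans ?_
        rw [mul_pow]
        apply mul_le_mul
        · exact le_self_pow₀ (by linarith) (by omega)
        · have h4 : (N : ℝ) ^ 2 = ((N : ℝ) ^ (1 / 2 : ℝ)) ^ 4 := by
            rw [← Real.rpow_natCast ((N : ℝ) ^ (1 / 2 : ℝ)), ← Real.rpow_mul (by linarith)]
            norm_num
          rw [h4]
          apply pow_le_pow_right₀ (Real.one_le_rpow hNR (by norm_num)) (by omega)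
        · positivity
        · positivity
      exact le_of_pow_le_pow_left₀ (by omega) (by positivity) h2
  choose! f hf using hex
  have h1 : (QS p N).card ≤ ((range 2) ×ˢ ((Icc 1 B) ×ˢ (range (X + 1)))).card := by
    refine Finset.card_le_card_of_injOn f (fun b hb => (hf b hb).1) ?_
    intro b hb c hc hbc
    obtain ⟨b2, hb2, hb3⟩ := (hf b hb).2
    obtain ⟨c2, hc2, hc3⟩ := (hf c hc).2
    rw [hbc] at hb2 hb3
    rw [hb3] at hc3
    have hp0 : (p : ℤ) ^ (f c).1 ≠ 0 := by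
      have : (p : ℤ) ≠ 0 := by exact_mod_cast (by omega : p ≠ 0)
      exact pow_ne_zero _ this
    have e3 : ((b2 : ℤ)) ^ 2 = (c2 : ℤ) ^ 2 := mul_left_cancel₀ hp0 hc3
    have e4 : b2 ^ 2 = c2 ^ 2 := by exact_mod_cast e3
    have e5 : b2 = c2 := Nat.pow_left_injective (by norm_num) e4
    calc b = (f c).2.1 * b2 := hb2
      _ = (f c).2.1 * c2 := by rw [e5]
      _ = c := hc2.symm
  rw [Finset.card_product, Finset.card_product, Finset.card_range, Nat.card_Icc, Finset.card_range,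
    Nat.add_sub_cancel] at h1
  have h2 : ((QS p N).card : ℝ) ≤ 2 * (B * (X + 1)) := by exact_mod_cast h1
  have hBR : (B : ℝ) ≤ (N : ℝ) ^ (2 / 5 : ℝ) := by
    rw [hB]
    exact Nat.floor_le (by positivity)
  have hXR : (X : ℝ) + 1 ≤ 2 * p * (N : ℝ) ^ (1 / 2 : ℝ) := by
    have h3 : (X : ℝ) ≤ p * (N : ℝ) ^ (1 / 2 : ℝ) := by
      rw [hX]
      exact Nat.floor_le (by positivity)
    have h4 : (1 : ℝ) ≤ (N : ℝ) ^ (1 / 2 : ℝ) := Real.one_le_rpow hNR (by norm_num)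
    have h5 : (1 : ℝ) ≤ p * (N : ℝ) ^ (1 / 2 : ℝ) := by nlinarith
    linarith
  calc ((QS p N).card : ℝ) ≤ 2 * (B * (X + 1)) := h2
    _ ≤ 2 * ((N : ℝ) ^ (2 / 5 : ℝ) * (2 * p * (N : ℝ) ^ (1 / 2 : ℝ))) := by gcongr
    _ = 4 * p * ((N : ℝ) ^ (2 / 5 : ℝ) * (N : ℝ) ^ (1 / 2 : ℝ)) := by ring
    _ = 4 * p * (N : ℝ) ^ (9 / 10 : ℝ) := by
        rw [← Real.rpow_add (by linarith)]
        norm_num
    _ ≤ 8 * p * (N : ℝ) ^ (9 / 10 : ℝ) := by
        apply mul_le_mul_of_nonneg_right _ (by positivity)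
        linarith

end Pool.Agent.TH863.D
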