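import Mathlib
import Pool.Agent.TH863.D.CFin
import Pool.Agent.TH863.D.DCount
import Pool.Agent.TH863.D.QTwo

/-!
The exceptional sets are small.
-/

set_option autoImplicit false

namespace Pool.Agent.TH863.D

open Finset Real Filter Topology

lemma tl : Tendsto (fun N : ℕ => Real.log (N : ℝ)) atTop atTop :=
  Real.tendsto_log_atTop.comp tendsto_natCast_atTop_atTop

lemma tll : Tendsto (fun N : ℕ => Real.log (Real.log (N : ℝ))) atTop atTop :=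
  Real.tendsto_log_atTop.comp tl

lemma tpow {a : ℝ} (ha : 0 < a) : Tendsto (fun N : ℕ => (N : ℝ) ^ a) atTop atTop :=
  (tendsto_rpow_atTop ha).comp tendsto_natCast_atTop_atTop

/-- `C / f ≤ δ` eventually if `f → ∞` -/
lemma ev_div {f : ℕ → ℝ} (hf : Tendsto f atTop atTop) (C : ℝ) {δ : ℝ} (hδ : 0 < δ) :
    ∀ᶠ N in atTop, C / f N ≤ δ := by
  have h := hf.eventually_ge_atTop (max 1 (C / δ))
  filter_upwards [h] with N hN
  have h1 : 1 ≤ f N := (le_max_left _ _).trans hN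
  have h2 : C / δ ≤ f N := (le_max_right _ _).trans hN
  rw [div_le_iff₀ (by linarith)]
  rw [div_le_iff₀ hδ] at h2
  linarith

/-- the logarithm of the integer part of a power -/
lemma ev_floor {a a' : ℝ} (ha' : a' < a) (ha : 0 < a) :
    ∀ᶠ N : ℕ in atTop, a' * Real.log N ≤ Real.log (⌊(N : ℝ) ^ a⌋₊ : ℝ) := by
  have h1 := ev_div tl (Real.log 2) (show 0 < a - a' by linarith)
  have h2 := (tpow ha).eventually_ge_atTop 2
  filter_upwards [h1, h2, eventually_ge_atTop 3] with N h1 h2 h3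
  have hNR : (3 : ℝ) ≤ N := by exact_mod_cast h3
  have hl : 0 < Real.log N := Real.log_pos (by linarith)
  have h4 : (N : ℝ) ^ a / 2 ≤ (⌊(N : ℝ) ^ a⌋₊ : ℝ) := by
    have := Nat.lt_floor_add_one ((N : ℝ) ^ a)
    linarith
  have h5 := Real.log_le_log (by positivity) h4
  rw [Real.log_div (by positivity) (by norm_num), Real.log_rpow (by linarith)] at h5
  rw [div_le_iff₀ hl] at h1
  linarith

open Classical in
lemma evA {κ δ : ℝ} (hκ : 0 < κ) (hδ : 0 < δ) : ∀ᶠ N : ℕ in atTop,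
    (((Icc 1 N).filter (fun b : ℕ => ¬ (1 - κ) * Real.log N ≤ Real.log b)).card : ℝ) ≤ δ * N := by
  have h1 := ev_div (tpow hκ) 1 hδ
  filter_upwards [h1, eventually_ge_atTop 3] with N h1 h3
  have hNR : (3 : ℝ) ≤ N := by exact_mod_cast h3
  have hsub : (Icc 1 N).filter (fun b : ℕ => ¬ (1 - κ) * Real.log N ≤ Real.log b) ⊆
      Icc 1 ⌊(N : ℝ) ^ (1 - κ)⌋₊ := by
    intro b hb
    obtain ⟨hb1, hb2⟩ := Finset.mem_filter.1 hb
    have hb1' := Finset.mem_Icc.1 hb1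
    refine Finset.mem_Icc.2 ⟨hb1'.1, Nat.le_floor ?_⟩
    push Not at hb2
    have hb0 : (0 : ℝ) < b := by exact_mod_cast hb1'.1
    rw [← Real.log_rpow (by linarith)] at hb2
    exact ((Real.log_lt_log_iff hb0 (by positivity)).1 hb2).le
  have h2 := Finset.card_le_card hsub
  rw [Nat.card_Icc, Nat.add_sub_cancel] at h2
  have h4 : (((Icc 1 N).filter (fun b : ℕ => ¬ (1 - κ) * Real.log N ≤ Real.log b)).card : ℝ) ≤
      (⌊(N : ℝ) ^ (1 - κ)⌋₊ : ℝ) := by exact_mod_cast h2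
  have h5 : (⌊(N : ℝ) ^ (1 - κ)⌋₊ : ℝ) ≤ (N : ℝ) ^ (1 - κ) := Nat.floor_le (by positivity)
  have h6 : (N : ℝ) ^ (1 - κ) = 1 / (N : ℝ) ^ κ * N := by
    rw [Real.rpow_sub (by linarith), Real.rpow_one]
    ring
  calc _ ≤ 1 / (N : ℝ) ^ κ * N := h4.trans (h5.trans_eq h6)
    _ ≤ δ * N := mul_le_mul_of_nonneg_right h1 (by linarith)

open Classical in
lemma evB {θ τ δ : ℝ} (hθ : 0 < θ) (hτ : 0 < τ) (hδ : 0 < δ) (h : θ / τ ≤ δ / 2) :
    ∀ᶠ N : ℕ in atTop,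
    (((Icc 1 N).filter (fun b : ℕ => ¬ hh ⌊(N : ℝ) ^ θ⌋₊ b ≤ τ * Real.log N)).card : ℝ) ≤ δ * N := by
  obtain ⟨C, hC, hcard⟩ := card_hh
  have h1 := ev_div tl (C / τ) (show 0 < δ / 2 by linarith)
  filter_upwards [h1, eventually_ge_atTop 3] with N h1 h3
  have hNR : (3 : ℝ) ≤ N := by exact_mod_cast h3
  have hl : 0 < Real.log N := Real.log_pos (by linarith)
  have hz1 : 1 ≤ ⌊(N : ℝ) ^ θ⌋₊ := by
    rw [Nat.one_le_floor_iff]
    exact Real.one_le_rpow (by linarith) hθ.le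
  have h4 := hcard ⌊(N : ℝ) ^ θ⌋₊ N (τ * Real.log N) hz1 (by positivity)
  have h5 : (((Icc 1 N).filter (fun b : ℕ => ¬ hh ⌊(N : ℝ) ^ θ⌋₊ b ≤ τ * Real.log N)).card : ℝ) ≤
      (((Icc 1 N).filter (fun b => τ * Real.log N ≤ hh ⌊(N : ℝ) ^ θ⌋₊ b)).card : ℝ) := by
    have h6 : (Icc 1 N).filter (fun b : ℕ => ¬ hh ⌊(N : ℝ) ^ θ⌋₊ b ≤ τ * Real.log N) ⊆
      (Icc 1 N).filter (fun b => τ * Real.log N ≤ hh ⌊(N : ℝ) ^ θ⌋₊ b) := by
      intro b hb
      obtain ⟨hb1, hb2⟩ := Finset.mem_filter.1 hb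
      push Not at hb2
      exact Finset.mem_filter.2 ⟨hb1, hb2.le⟩
    exact_mod_cast Finset.card_le_card h6
  refine h5.trans (h4.trans ?_)
  have h6 : Real.log (⌊(N : ℝ) ^ θ⌋₊ : ℝ) ≤ θ * Real.log N := by
    rw [← Real.log_rpow (by linarith)]
    apply Real.log_le_log (by exact_mod_cast hz1)
    exact Nat.floor_le (by positivity)
  calc (N : ℝ) * (Real.log (⌊(N : ℝ) ^ θ⌋₊ : ℝ) + C) / (τ * Real.log N) ≤
      (N : ℝ) * (θ * Real.log N + C) / (τ * Real.log N) := by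
        apply div_le_div_of_nonneg_right _ (by positivity)
        apply mul_le_mul_of_nonneg_left _ (by linarith)
        linarith
    _ = (θ / τ + C / τ / Real.log N) * N := by
        field_simp
    _ ≤ δ * N := by
        apply mul_le_mul_of_nonneg_right _ (by linarith)
        linarith

open Classical in
lemma evC {κ δ : ℝ} (hκ : 0 < κ) (hκ4 : κ ≤ 1 / 4) (_hδ : 0 < δ) (h : 4 * κ ≤ δ / 2) :
    ∀ᶠ N : ℕ in atTop,
    (((Icc 1 N).filter (fun b : ℕ => ¬ ∀ P : ℕ, P.Prime → P ∣ b →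
      Real.log P ≤ (1 - κ) * Real.log N)).card : ℝ) ≤ δ * N := by
  obtain ⟨C, hC, hM⟩ := Pool.Agent.Helper923.HMertens.mertens_ratio
  have h1 := ev_div tl (2 * C) (show 0 < δ / 2 by linarith)
  have h2 := ev_floor (a := 1 - κ) (a' := 1 - 2 * κ) (by linarith) (by linarith)
  have h2' := (tpow (show 0 < 1 - κ by linarith)).eventually_ge_atTop 2
  filter_upwards [h1, h2, h2', eventually_ge_atTop 3] with N h1 h2 h2' h3
  have hNR : (3 : ℝ) ≤ N := by exact_mod_cast h3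
  have hl : 0 < Real.log N := Real.log_pos (by linarith)
  obtain ⟨w, hw⟩ : ∃ w : ℕ, w = ⌊(N : ℝ) ^ (1 - κ)⌋₊ := ⟨_, rfl⟩
  rw [← hw] at h2
  have hw2 : 2 ≤ w := by
    rw [hw]
    exact Nat.le_floor (by exact_mod_cast h2')
  have hwN : w ≤ N := by
    have e1 : (w : ℝ) ≤ (N : ℝ) ^ (1 - κ) := by
      rw [hw]
      exact Nat.floor_le (by positivity)
    have e2 : (N : ℝ) ^ (1 - κ) ≤ (N : ℝ) ^ (1 : ℝ) :=
      Real.rpow_le_rpow_of_exponent_le (by linarith) (by linarith)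
    rw [Real.rpow_one] at e2
    exact_mod_cast e1.trans e2
  have hsub : (Icc 1 N).filter (fun b : ℕ => ¬ ∀ P : ℕ, P.Prime → P ∣ b →
      Real.log P ≤ (1 - κ) * Real.log N) ⊆
      (Icc 1 N).filter (fun b => ∃ l ∈ (Ioc w N).filter Nat.Prime, id l ∣ b) := by
    intro b hb
    obtain ⟨hb1, hb2⟩ := Finset.mem_filter.1 hb
    push Not at hb2
    obtain ⟨P, hP, hPb, hlog⟩ := hb2
    have hb1' := Finset.mem_Icc.1 hb1
    have hP0 : (0 : ℝ) < P := by exact_mod_cast hP.pos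
    refine Finset.mem_filter.2 ⟨hb1, P, Finset.mem_filter.2 ⟨Finset.mem_Ioc.2 ⟨?_, ?_⟩, hP⟩, hPb⟩
    · rw [← Real.log_rpow (by linarith)] at hlog
      have h4 := (Real.log_lt_log_iff (by positivity) hP0).1 hlog
      rw [hw]
      exact (Nat.floor_lt (by positivity)).2 h4
    · exact (Nat.le_of_dvd hb1'.1 hPb).trans hb1'.2
  have h4 := card_dvd_some N ((Ioc w N).filter Nat.Prime) id
  have h5 := (abs_le.1 (hM w N hw2 hwN)).2
  have hlw : 0 < Real.log w := Real.log_pos (by exact_mod_cast (by omega : 1 < w))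
  have h12κ : (1 : ℝ) / 2 ≤ 1 - 2 * κ := by linarith
  have h6 : Real.log (Real.log N / Real.log w) ≤ 4 * κ := by
    have e1 : Real.log N / Real.log w ≤ 1 / (1 - 2 * κ) := by
      rw [div_le_div_iff₀ hlw (by linarith)]
      linarith
    have e2 : Real.log (Real.log N / Real.log w) ≤ Real.log (1 / (1 - 2 * κ)) :=
      Real.log_le_log (by positivity) e1
    have e3 : Real.log (1 / (1 - 2 * κ)) ≤ 1 / (1 - 2 * κ) - 1 :=
      Real.log_le_sub_one_of_pos (by apply one_div_pos.2; linarith)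
    have e4 : 1 / (1 - 2 * κ) - 1 ≤ 4 * κ := by
      rw [sub_le_iff_le_add, div_le_iff₀ (by linarith)]
      nlinarith
    linarith
  have h7 : C / Real.log w ≤ 2 * C / Real.log N := by
    rw [div_le_div_iff₀ hlw hl]
    have : 1 / 2 * Real.log N ≤ Real.log w := by
      refine le_trans ?_ h2
      exact mul_le_mul_of_nonneg_right h12κ hl.le
    nlinarith
  have h8 : (((Icc 1 N).filter (fun b : ℕ => ¬ ∀ P : ℕ, P.Prime → P ∣ b →
      Real.log P ≤ (1 - κ) * Real.log N)).card : ℝ) ≤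
      (((Icc 1 N).filter (fun b => ∃ l ∈ (Ioc w N).filter Nat.Prime, id l ∣ b)).card : ℝ) := by
    exact_mod_cast Finset.card_le_card hsub
  refine h8.trans (h4.trans ?_)
  rw [mul_comm]
  apply mul_le_mul_of_nonneg_right _ (by linarith)
  have h9 : ∑ l ∈ (Ioc w N).filter Nat.Prime, (1 : ℝ) / (id l : ℕ) =
    ∑ p ∈ (Ioc w N).filter Nat.Prime, (1 : ℝ) / p := rfl
  rw [h9]
  linarith

open Classical in
lemma evD {θ δ : ℝ} (hθ : 0 < θ) (hδ : 0 < δ) :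
    ∀ᶠ N : ℕ in atTop,
    (((Icc 1 N).filter (fun b : ℕ => ¬ ∀ P : ℕ, P.Prime → ⌊(N : ℝ) ^ θ⌋₊ < P →
      ¬ P ^ 2 ∣ b)).card : ℝ) ≤ δ * N := by
  have ht : Tendsto (fun N : ℕ => ((⌊(N : ℝ) ^ θ⌋₊ : ℕ) : ℝ)) atTop atTop :=
    tendsto_natCast_atTop_atTop.comp (tendsto_nat_floor_atTop.comp (tpow hθ))
  have h1 := ev_div ht 1 hδ
  filter_upwards [h1, eventually_ge_atTop 3] with N h1 h3
  have hNR : (3 : ℝ) ≤ N := by exact_mod_cast h3
  obtain ⟨z, hz⟩ : ∃ z : ℕ, z = ⌊(N : ℝ) ^ θ⌋₊ := ⟨_, rfl⟩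
  have hz1 : 1 ≤ z := by
    rw [hz, Nat.one_le_floor_iff]
    exact Real.one_le_rpow (by linarith) hθ.le
  rw [← hz] at h1 ⊢
  have hsub : (Icc 1 N).filter (fun b : ℕ => ¬ ∀ P : ℕ, P.Prime → z < P → ¬ P ^ 2 ∣ b) ⊆
      (Icc 1 N).filter (fun b => ∃ l ∈ Ioc z N, (fun n => n ^ 2) l ∣ b) := by
    intro b hb
    obtain ⟨hb1, hb2⟩ := Finset.mem_filter.1 hb
    push Not at hb2
    obtain ⟨P, hP, hzP, hPb⟩ := hb2
    have hb1' := Finset.mem_Icc.1 hb1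
    refine Finset.mem_filter.2 ⟨hb1, P, Finset.mem_Ioc.2 ⟨hzP, ?_⟩, hPb⟩
    have : P ≤ P ^ 2 := Nat.le_self_pow (by norm_num) P
    exact (this.trans (Nat.le_of_dvd hb1'.1 hPb)).trans hb1'.2
  have h4 := card_dvd_some N (Ioc z N) (fun n => n ^ 2)
  have h5 := sum_inv_sq_tail z N hz1
  have h8 : (((Icc 1 N).filter (fun b : ℕ => ¬ ∀ P : ℕ, P.Prime → z < P →
      ¬ P ^ 2 ∣ b)).card : ℝ) ≤
      (((Icc 1 N).filter (fun b => ∃ l ∈ Ioc z N, (fun n => n ^ 2) l ∣ b)).card : ℝ) := by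
    exact_mod_cast Finset.card_le_card hsub
  refine h8.trans (h4.trans ?_)
  rw [mul_comm]
  apply mul_le_mul_of_nonneg_right _ (by linarith)
  refine le_trans ?_ h1
  refine le_trans (le_of_eq ?_) h5
  refine Finset.sum_congr rfl fun l _ => ?_
  push_cast
  rfl

open Classical in
lemma evE {δ : ℝ} (hδ : 0 < δ) (m : ℕ) : ∃ P0 : ℕ, m ≤ P0 ∧ ∀ᶠ N : ℕ in atTop,
    (((Icc 1 N).filter (fun b : ℕ => ¬ ∃ l : ℕ, l ≤ P0 ∧ l.Prime ∧ l ∣ b)).card : ℝ) ≤ δ * N := by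
  obtain ⟨C, hC, hM⟩ := S_all
  have h1 := tll.eventually_ge_atTop (3 / δ + C)
  obtain ⟨P0, hP1, hP2, hP3⟩ := (h1.and ((eventually_ge_atTop m).and (eventually_ge_atTop 3))).exists
  have hμ := (abs_le.1 (hM P0 hP3)).1
  obtain ⟨S, hS⟩ : ∃ S : Finset ℕ, S = (Icc 1 P0).filter Nat.Prime := ⟨_, rfl⟩
  rw [← hS] at hμ
  have hμ3 : 3 / δ ≤ ∑ l ∈ S, (1 : ℝ) / l := by linarith
  have hμ0 : 0 < ∑ l ∈ S, (1 : ℝ) / l := lt_of_lt_of_le (by positivity) hμ3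
  refine ⟨P0, hP2, ?_⟩
  filter_upwards [eventually_ge_atTop (S.card ^ 2)] with N hN
  have h2 := tk S (fun l hl => by rw [hS] at hl; exact (Finset.mem_filter.1 hl).2) N hN hμ0
  have h3 : (((Icc 1 N).filter (fun b : ℕ => ¬ ∃ l : ℕ, l ≤ P0 ∧ l.Prime ∧ l ∣ b)).card : ℝ) ≤
      (((Icc 1 N).filter (fun b => (om S b : ℝ) ≤ ∑ l ∈ S, (1 : ℝ) / l -
        ∑ l ∈ S, (1 : ℝ) / l)).card : ℝ) := by
    have h4 : (Icc 1 N).filter (fun b : ℕ => ¬ ∃ l : ℕ, l ≤ P0 ∧ l.Prime ∧ l ∣ b) ⊆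
        (Icc 1 N).filter (fun b => (om S b : ℝ) ≤ ∑ l ∈ S, (1 : ℝ) / l -
        ∑ l ∈ S, (1 : ℝ) / l) := by
      intro b hb
      obtain ⟨hb1, hb2⟩ := Finset.mem_filter.1 hb
      refine Finset.mem_filter.2 ⟨hb1, ?_⟩
      have h5 : om S b = 0 := by
        rw [om, Finset.card_eq_zero, Finset.filter_eq_empty_iff]
        intro l hl hlb
        rw [hS] at hl
        have hl' := Finset.mem_filter.1 hl
        exact hb2 ⟨l, (Finset.mem_Icc.1 hl'.1).2, hl'.2, hlb⟩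
      rw [h5, sub_self, Nat.cast_zero]
    exact_mod_cast Finset.card_le_card h4
  refine h3.trans ?_
  obtain ⟨μ, hμd⟩ : ∃ μ : ℝ, μ = ∑ l ∈ S, (1 : ℝ) / l := ⟨_, rfl⟩
  rw [← hμd] at h2 hμ3 hμ0 ⊢
  obtain ⟨c, hc⟩ : ∃ c : ℝ, c = (((Icc 1 N).filter (fun b => (om S b : ℝ) ≤ μ - μ)).card : ℝ) :=
    ⟨_, rfl⟩
  rw [← hc] at h2 ⊢
  have h5 : c * μ ≤ 3 * N := by
    have h6 : (c * μ) * μ ≤ (3 * N) * μ := by nlinarith
    exact le_of_mul_le_mul_right h6 hμ0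
  have h7 : 3 ≤ δ * μ := by
    rw [div_le_iff₀ hδ] at hμ3
    linarith
  have hc0 : 0 ≤ c := by rw [hc]; exact Nat.cast_nonneg _
  have hN0 : (0 : ℝ) ≤ N := Nat.cast_nonneg _
  have h8 : c * μ ≤ δ * N * μ := by nlinarith
  exact le_of_mul_le_mul_right h8 hμ0

end Pool.Agent.TH863.D
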