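import Mathlib
import Pool.Agent.TH863.D.Ev

/-!
The exceptional sets attached to a prime `p`.
-/

set_option autoImplicit false

namespace Pool.Agent.TH863.D

open Finset Real Filter Topology

lemma S2_sum {p : ℕ} (hp : p.Prime) (hp2 : p ≠ 2) : ∃ C : ℝ, 0 ≤ C ∧ ∀ z : ℕ, 3 ≤ z →
    1 / 2 * Real.log (Real.log z) - C ≤ ∑ l ∈ S2 p z, (1 : ℝ) / l ∧
    ∑ l ∈ S2 p z, (1 : ℝ) / l ≤ Real.log (Real.log z) + C := by
  classical
  obtain ⟨C1, hC1, h1⟩ := S_all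
  obtain ⟨C2, hC2, h2⟩ := S1_le hp hp2
  refine ⟨C1 + C2 + 2, by linarith, fun z hz => ?_⟩
  have e1 := abs_le.1 (h1 z hz)
  have e2 := h2 z hz
  constructor
  · have hsub : (Icc 1 z).filter Nat.Prime ⊆ (S2 p z ∪ P1 p z) ∪ {2, p} := by
      intro l hl
      obtain ⟨h3, h4⟩ := Finset.mem_filter.1 hl
      have h3' := Finset.mem_Icc.1 h3
      rw [Finset.mem_union, Finset.mem_union, mem_S2, mem_P1, Finset.mem_insert, Finset.mem_singleton]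
      by_cases h5 : l = 2
      · exact Or.inr (Or.inl h5)
      · by_cases h6 : l = p
        · exact Or.inr (Or.inr h6)
        · by_cases h7 : l % p = 1
          · exact Or.inl (Or.inr ⟨h3', h4, h7⟩)
          · exact Or.inl (Or.inl ⟨h3', h4, h5, h6, h7⟩)
    have h3 : ∑ l ∈ (Icc 1 z).filter Nat.Prime, (1 : ℝ) / l ≤
        (∑ l ∈ S2 p z, (1 : ℝ) / l + ∑ l ∈ P1 p z, (1 : ℝ) / l) + ∑ l ∈ ({2, p} : Finset ℕ), (1 : ℝ) / l := by
      refine (Finset.sum_le_sum_of_subset_of_nonneg hsub (fun l _ _ => by positivity)).trans ?_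
      have f1 : ∀ A B : Finset ℕ, ∑ l ∈ A ∪ B, (1 : ℝ) / l ≤
          ∑ l ∈ A, (1 : ℝ) / l + ∑ l ∈ B, (1 : ℝ) / l := by
        intro A B
        rw [← Finset.sum_union_inter]
        have : 0 ≤ ∑ l ∈ A ∩ B, (1 : ℝ) / l := Finset.sum_nonneg fun l _ => by positivity
        linarith
      refine (f1 _ _).trans ?_
      have := f1 (S2 p z) (P1 p z)
      linarith
    have h4 : ∑ l ∈ ({2, p} : Finset ℕ), (1 : ℝ) / l ≤ 2 := by
      rw [Finset.sum_pair (Ne.symm hp2)]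
      have h5 : (1 : ℝ) / (2 : ℕ) ≤ 1 := by norm_num
      have h6 : (1 : ℝ) / p ≤ 1 := by
        rw [div_le_one (by exact_mod_cast hp.pos)]
        exact_mod_cast hp.one_le
      linarith
    linarith
  · have hsub : S2 p z ⊆ (Icc 1 z).filter Nat.Prime := by
      intro l hl
      have hl' := mem_S2.1 hl
      exact Finset.mem_filter.2 ⟨Finset.mem_Icc.2 hl'.1, hl'.2.1⟩
    have h3 : ∑ l ∈ S2 p z, (1 : ℝ) / l ≤ ∑ l ∈ (Icc 1 z).filter Nat.Prime, (1 : ℝ) / l :=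
      Finset.sum_le_sum_of_subset_of_nonneg hsub (fun l _ _ => by positivity)
    linarith

open Classical in
lemma evG {p : ℕ} (hp : p.Prime) (hp2 : p ≠ 2) {θ δ : ℝ} (hθ : 0 < θ) (hθ2 : θ ≤ 1 / 2)
    (hδ : 0 < δ) : ∀ᶠ N : ℕ in atTop,
    (((Icc 1 N).filter (fun b : ℕ => ¬ 2 / 5 * Real.log (Real.log N) ≤
      (om (S2 p ⌊(N : ℝ) ^ θ⌋₊) b : ℝ))).card : ℝ) ≤ δ * N := by
  obtain ⟨C, hC, hS⟩ := S2_sum hp hp2
  have hfl := ev_floor (a := θ) (a' := θ / 2) (by linarith) hθ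
  obtain ⟨C', hC'⟩ : ∃ C' : ℝ, C' = C + 1 / 2 * |Real.log (θ / 2)| := ⟨_, rfl⟩
  have g1 := tll.eventually_ge_atTop (20 * C' + 20)
  have g2 := ev_div tll (3 * 400 * 2) hδ
  have g3 := (tpow hθ).eventually_ge_atTop 3
  filter_upwards [hfl, g1, g2, g3, eventually_ge_atTop 3] with N hfl g1 g2 g3 h3
  have hNR : (3 : ℝ) ≤ N := by exact_mod_cast h3
  have hl : 0 < Real.log N := Real.log_pos (by linarith)
  obtain ⟨z, hz⟩ : ∃ z : ℕ, z = ⌊(N : ℝ) ^ θ⌋₊ := ⟨_, rfl⟩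
  rw [← hz] at hfl ⊢
  have hz3 : 3 ≤ z := by
    rw [hz]
    exact Nat.le_floor (by exact_mod_cast g3)
  have hzR : (3 : ℝ) ≤ z := by exact_mod_cast hz3
  have hzle : (z : ℝ) ≤ (N : ℝ) ^ θ := by
    rw [hz]
    exact Nat.floor_le (by positivity)
  obtain ⟨LL, hLL⟩ : ∃ LL : ℝ, LL = Real.log (Real.log N) := ⟨_, rfl⟩
  rw [← hLL] at g1 g2 ⊢
  obtain ⟨s1, s2⟩ := hS z hz3
  obtain ⟨μ, hμ⟩ : ∃ μ : ℝ, μ = ∑ l ∈ S2 p z, (1 : ℝ) / l := ⟨_, rfl⟩
  rw [← hμ] at s1 s2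
  have hC'0 : 0 ≤ C' := by rw [hC']; positivity
  have hlogz0 : 0 < Real.log z := Real.log_pos (by linarith)
  -- `log log z`
  have hz1 : LL - |Real.log (θ / 2)| ≤ Real.log (Real.log z) := by
    have e1 : Real.log (θ / 2 * Real.log N) ≤ Real.log (Real.log z) :=
      Real.log_le_log (by positivity) hfl
    rw [Real.log_mul (by positivity) hl.ne', ← hLL] at e1
    have e2 := neg_abs_le (Real.log (θ / 2))
    linarith
  have hz2 : Real.log (Real.log z) ≤ LL := by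
    rw [hLL]
    apply Real.log_le_log hlogz0
    apply Real.log_le_log (by linarith)
    refine hzle.trans ?_
    calc (N : ℝ) ^ θ ≤ (N : ℝ) ^ (1 : ℝ) :=
          Real.rpow_le_rpow_of_exponent_le (by linarith) (by linarith)
      _ = N := Real.rpow_one _
  have hμ1 : 1 / 2 * LL - C' ≤ μ := by
    rw [hC']
    linarith
  have hμ2 : μ ≤ 2 * LL := by
    have : C ≤ C' := by
      rw [hC']
      have := abs_nonneg (Real.log (θ / 2))
      linarith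
    linarith
  have hLL0 : 0 < LL := by linarith
  have ht : LL / 20 ≤ μ - 2 / 5 * LL := by linarith
  have ht0 : 0 < μ - 2 / 5 * LL := by linarith
  have hcardS : (S2 p z).card ^ 2 ≤ N := by
    have e1 : (S2 p z).card ≤ z := by
      have := Finset.card_filter_le (Icc 1 z) (fun l => l.Prime ∧ l ≠ 2 ∧ l ≠ p ∧ l % p ≠ 1)
      rw [Nat.card_Icc, Nat.add_sub_cancel] at this
      exact this
    have e2 : (z : ℝ) ^ 2 ≤ N := by
      calc (z : ℝ) ^ 2 ≤ ((N : ℝ) ^ θ) ^ 2 := pow_le_pow_left₀ (by positivity) hzle 2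
        _ = (N : ℝ) ^ (θ * 2) := by
          rw [← Real.rpow_natCast ((N : ℝ) ^ θ), ← Real.rpow_mul (by linarith)]
          norm_num
        _ ≤ (N : ℝ) ^ (1 : ℝ) := Real.rpow_le_rpow_of_exponent_le (by linarith) (by linarith)
        _ = N := Real.rpow_one _
    have e3 : z ^ 2 ≤ N := by exact_mod_cast e2
    exact (Nat.pow_le_pow_left e1 2).trans e3
  have h2 := tk (S2 p z) (fun l hl => (mem_S2.1 hl).2.1) N hcardS ht0
  rw [← hμ, show μ - (μ - 2 / 5 * LL) = 2 / 5 * LL by ring] at h2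
  have h4 : (((Icc 1 N).filter (fun b : ℕ => ¬ 2 / 5 * LL ≤ (om (S2 p z) b : ℝ))).card : ℝ) ≤
      (((Icc 1 N).filter (fun b => (om (S2 p z) b : ℝ) ≤ 2 / 5 * LL)).card : ℝ) := by
    have h5 : (Icc 1 N).filter (fun b : ℕ => ¬ 2 / 5 * LL ≤ (om (S2 p z) b : ℝ)) ⊆
        (Icc 1 N).filter (fun b => (om (S2 p z) b : ℝ) ≤ 2 / 5 * LL) := by
      intro b hb
      obtain ⟨hb1, hb2⟩ := Finset.mem_filter.1 hb
      push Not at hb2
      exact Finset.mem_filter.2 ⟨hb1, hb2.le⟩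
    exact_mod_cast Finset.card_le_card h5
  refine h4.trans ?_
  obtain ⟨c, hc⟩ : ∃ c : ℝ, c = (((Icc 1 N).filter (fun b => (om (S2 p z) b : ℝ) ≤ 2 / 5 * LL)).card : ℝ) :=
    ⟨_, rfl⟩
  rw [← hc] at h2 ⊢
  have hc0 : 0 ≤ c := by rw [hc]; exact Nat.cast_nonneg _
  have h6 : c * (LL / 20) ^ 2 ≤ 3 * N * (2 * LL) := by
    calc c * (LL / 20) ^ 2 ≤ c * (μ - 2 / 5 * LL) ^ 2 := by
          apply mul_le_mul_of_nonneg_left _ hc0
          exact pow_le_pow_left₀ (by positivity) ht 2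
      _ ≤ 3 * N * μ := h2
      _ ≤ 3 * N * (2 * LL) := mul_le_mul_of_nonneg_left hμ2 (by positivity)
  have h7 : c ≤ 3 * 400 * 2 / LL * N := by
    have h8 : c * LL ≤ 3 * 400 * 2 * N := by
      have h9 : (c * LL) * LL ≤ (3 * 400 * 2 * N) * LL := by nlinarith
      exact le_of_mul_le_mul_right h9 hLL0
    rw [div_mul_eq_mul_div, le_div_iff₀ hLL0]
    exact h8
  exact h7.trans (mul_le_mul_of_nonneg_right g2 (by linarith))

lemma evH {p : ℕ} (hp : p.Prime) (hp2 : p ≠ 2) {θ η1 δ : ℝ} (hθ : 0 < θ) (hθ1 : θ ≤ 1)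
    (hη1 : 0 < η1) (hδ : 0 < δ) : ∀ᶠ N : ℕ in atTop,
    ((GC p N ⌊(N : ℝ) ^ θ⌋₊ η1).card : ℝ) ≤ δ * N := by
  obtain ⟨K, hK, N₀, hN₀⟩ := card_GC hp hp2 (show 0 < θ / 2 by linarith) hη1
  have hfl := ev_floor (a := θ) (a' := θ / 2) (by linarith) hθ
  have g3 := (tpow hθ).eventually_ge_atTop 3
  have g1 : ∀ᶠ N : ℕ in atTop, K / Real.exp (1 / 50 * Real.log (Real.log N)) ≤ δ := by
    apply ev_div _ K hδ
    apply Real.tendsto_exp_atTop.comp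
    exact tll.const_mul_atTop (by norm_num)
  filter_upwards [hfl, g1, g3, eventually_ge_atTop 3, eventually_ge_atTop N₀] with N hfl g1 g3 h3 h4
  have hNR : (3 : ℝ) ≤ N := by exact_mod_cast h3
  have hz3 : 3 ≤ ⌊(N : ℝ) ^ θ⌋₊ := Nat.le_floor (by exact_mod_cast g3)
  have hzN : ⌊(N : ℝ) ^ θ⌋₊ ≤ N := by
    have e1 : (⌊(N : ℝ) ^ θ⌋₊ : ℝ) ≤ (N : ℝ) ^ θ := Nat.floor_le (by positivity)
    have e2 : (N : ℝ) ^ θ ≤ (N : ℝ) ^ (1 : ℝ) :=
      Real.rpow_le_rpow_of_exponent_le (by linarith) (by linarith)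
    rw [Real.rpow_one] at e2
    exact_mod_cast e1.trans e2
  refine (hN₀ N h4 _ hz3 hzN hfl).trans ?_
  have e1 : -(1 / 50) * Real.log (Real.log N) = -(1 / 50 * Real.log (Real.log N)) := by ring
  rw [e1, Real.exp_neg]
  calc K * N * (Real.exp (1 / 50 * Real.log (Real.log N)))⁻¹ =
      K / Real.exp (1 / 50 * Real.log (Real.log N)) * N := by
        rw [div_eq_mul_inv]; ring
    _ ≤ δ * N := mul_le_mul_of_nonneg_right g1 (by linarith)

lemma evI {p : ℕ} (hp5 : 5 ≤ p) {δ : ℝ} (hδ : 0 < δ) : ∀ᶠ N : ℕ in atTop,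
    ((QS p N).card : ℝ) ≤ δ * N := by
  have g1 := ev_div (tpow (show (0 : ℝ) < 1 / 10 by norm_num)) (8 * p) hδ
  filter_upwards [g1, eventually_ge_atTop 3] with N g1 h3
  have hNR : (3 : ℝ) ≤ N := by exact_mod_cast h3
  refine (card_QS hp5 N (by omega)).trans ?_
  have e1 : (N : ℝ) ^ (9 / 10 : ℝ) = N / (N : ℝ) ^ (1 / 10 : ℝ) := by
    have : (N : ℝ) ^ (9 / 10 : ℝ) = (N : ℝ) ^ (1 - 1 / 10 : ℝ) := by norm_num
    rw [this, Real.rpow_sub (by linarith), Real.rpow_one]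
  rw [e1]
  calc 8 * p * (N / (N : ℝ) ^ (1 / 10 : ℝ)) = 8 * p / (N : ℝ) ^ (1 / 10 : ℝ) * N := by ring
    _ ≤ δ * N := mul_le_mul_of_nonneg_right g1 (by linarith)

lemma evJ {P0 : ℕ} {η1 δ : ℝ} (hP0 : 1 ≤ P0) (hη1 : 0 < η1) (hη11 : η1 ≤ 1)
    (h : 5184 * (1 / η1) ^ 2 / P0 ≤ δ) : ∀ᶠ N : ℕ in atTop,
    ((DS N P0 ((N : ℝ) ^ η1)).card : ℝ) ≤ δ * N := by
  obtain ⟨Z, hZ3, hZ⟩ := card_DS
  have g1 := (tpow hη1).eventually_ge_atTop Z
  filter_upwards [g1, eventually_ge_atTop 3] with N g1 h3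
  have hNR : (3 : ℝ) ≤ N := by exact_mod_cast h3
  have hl : 0 < Real.log N := Real.log_pos (by linarith)
  have hle : (N : ℝ) ^ η1 ≤ N := by
    calc (N : ℝ) ^ η1 ≤ (N : ℝ) ^ (1 : ℝ) :=
          Real.rpow_le_rpow_of_exponent_le (by linarith) hη11
      _ = N := Real.rpow_one _
  have h1 := hZ N P0 ((N : ℝ) ^ η1) h3 hP0 g1 hle
  have e1 : Real.log N / Real.log ((N : ℝ) ^ η1) = 1 / η1 := by
    rw [Real.log_rpow (by linarith)]
    field_simp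
  rw [e1] at h1
  exact h1.trans (mul_le_mul_of_nonneg_right h (by linarith))

lemma ev_big {η1 : ℝ} (hη1 : 0 < η1) : ∀ᶠ N : ℕ in atTop,
    ∀ p : ℕ, 2 ^ p ≤ N ^ 2 → (p : ℝ) ^ 2 ≤ (N : ℝ) ^ η1 := by
  have h1 : ∀ᶠ N : ℕ in atTop, ‖Real.log N‖ ≤ 1 / 3 * ‖(N : ℝ) ^ (η1 / 2)‖ :=
    ((isLittleO_log_rpow_atTop (show 0 < η1 / 2 by linarith)).comp_tendsto
      tendsto_natCast_atTop_atTop).def (by norm_num)
  filter_upwards [h1, eventually_ge_atTop 3] with N h1 h3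
  intro p hp
  have hNR : (3 : ℝ) ≤ N := by exact_mod_cast h3
  have hl : 0 < Real.log N := Real.log_pos (by linarith)
  have hp' : (2 : ℝ) ^ p ≤ (N : ℝ) ^ 2 := by exact_mod_cast hp
  have h4 := Real.log_le_log (by positivity) hp'
  rw [Real.log_pow, Real.log_pow] at h4
  have h5 := Real.log_two_gt_d9
  have hp0 : (0 : ℝ) ≤ p := Nat.cast_nonneg _
  have h6 : (p : ℝ) ≤ 3 * Real.log N := by
    push_cast at h4
    nlinarith
  rw [Real.norm_of_nonneg hl.le, Real.norm_of_nonneg (by positivity)] at h1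
  have h7 : (p : ℝ) ≤ (N : ℝ) ^ (η1 / 2) := by linarith
  calc (p : ℝ) ^ 2 ≤ ((N : ℝ) ^ (η1 / 2)) ^ 2 := pow_le_pow_left₀ hp0 h7 2
    _ = (N : ℝ) ^ η1 := by
      rw [← Real.rpow_natCast ((N : ℝ) ^ (η1 / 2)), ← Real.rpow_mul (by linarith)]
      congr 1
      push_cast
      ring

end Pool.Agent.TH863.D
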