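import Mathlib
import Pool.Agent.TH863.D.CFin
import Pool.Agent.TH863.D.DCount
import Pool.Agent.TH863.D.QTwo

/-!
A typical integer `b` with `b ^ q = x ^ p - y ^ p` lies in one of the small sets.
-/

set_option autoImplicit false

namespace Pool.Agent.TH863.D

open Finset Real Pool.Agent.TH863

open Classical in
/-- the integers `b ≤ N` some power of which is a difference of two coprime `p`-th powers, `p` an
odd prime, the exponent of `b` being odd and at least `3`, or `2` when `p ≥ 5` -/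
noncomputable def BB (N : ℕ) : Finset ℕ :=
  (Icc 1 N).filter (fun b => ∃ x y p q : ℕ, 0 < x ∧ 0 < y ∧ p.Prime ∧ p ≠ 2 ∧ Nat.Coprime x y ∧
    ((Odd q ∧ 3 ≤ q) ∨ (q = 2 ∧ 5 ≤ p)) ∧ b ^ q + y ^ p = x ^ p)

/-- typical integers -/
structure Typ (N z1 P0 : ℕ) (κ : ℝ) (b : ℕ) : Prop where
  ta : (1 - κ / 4) * Real.log N ≤ Real.log b
  tb : hh z1 b ≤ κ / 4 * Real.log N
  tc : ∀ P : ℕ, P.Prime → P ∣ b → Real.log P ≤ (1 - κ) * Real.log N
  td : ∀ P : ℕ, P.Prime → z1 < P → ¬ P ^ 2 ∣ b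
  te : ∃ l : ℕ, l ≤ P0 ∧ l.Prime ∧ l ∣ b

lemma large_prime_of_log {z1 b c : ℕ} {t : ℝ} (hb : b ≠ 0) (hcb : c ∣ b)
    (h1 : hh z1 b ≤ t) (h2 : t < Real.log c) : ∃ P : ℕ, P.Prime ∧ z1 < P ∧ P ∣ c := by
  by_contra hcon
  push Not at hcon
  have h3 : hh z1 c = Real.log c := by
    apply hh_smooth
    intro l hl hlc
    by_contra h4
    push Not at h4
    exact hcon l hl h4 hlc
  have h4 := hh_dvd (z := z1) hb hcb
  linarith

theorem incl {N z0 P0 z1 : ℕ} {κ η1 : ℝ} (hN : 3 ≤ N) (hκ : 0 < κ) (hκ2 : κ ≤ 1 / 2)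
    (hz1 : z1 = ⌊(N : ℝ) ^ η1⌋₊) (hP0 : 2 ≤ η1 * P0)
    (hbig : ∀ p : ℕ, 2 ^ p ≤ N ^ 2 → (p : ℝ) ^ 2 ≤ (N : ℝ) ^ η1)
    {b : ℕ} (hb : b ∈ BB N) (T : Typ N z1 P0 κ b) :
    (∃ p ∈ Icc 3 P0, p.Prime ∧ 5 ≤ p ∧ b ∈ QS p N) ∨
    (∃ p ∈ Icc 3 P0, p.Prime ∧ (¬ Ty p N z0 η1 b ∨ b ∈ GC p N z0 η1)) ∨
    b ∈ DS N P0 ((N : ℝ) ^ η1) := by
  classical
  obtain ⟨hbN, x, y, p, q, hx, hy, hp, hp2, hxy, hq, h⟩ := Finset.mem_filter.1 hb
  have hbN' := Finset.mem_Icc.1 hbN
  obtain ⟨b1, b2, e, D⟩ := dd_of_solution hp hp2 (by omega) hxy hbN'.1 h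
  have hp3 : 3 ≤ p := by
    have := hp.two_le
    omega
  have hNR : (3 : ℝ) ≤ N := by exact_mod_cast hN
  have hlogN : 1 ≤ Real.log N := by
    rw [Real.le_log_iff_exp_le (by linarith)]
    have := Real.exp_one_lt_d9
    linarith
  have hb0 : b ≠ 0 := by omega
  have hb10 : b1 ≠ 0 := by have := D.h1; omega
  have hb20 : b2 ≠ 0 := by have := D.h2; omega
  have hfl : ∀ P : ℕ, z1 < P → (N : ℝ) ^ η1 ≤ P := by
    intro P hP
    rw [hz1] at hP
    have h1 := Nat.lt_floor_add_one ((N : ℝ) ^ η1)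
    have h2 : ((⌊(N : ℝ) ^ η1⌋₊ : ℕ) : ℝ) + 1 ≤ P := by exact_mod_cast hP
    linarith
  have hb1N : b1 ^ p ≤ N ^ 2 := D.s2.trans (Nat.pow_le_pow_left hbN'.2 2)
  rcases Nat.lt_or_ge P0 p with hpP | hpP
  · -- large `p`
    right; right
    obtain ⟨l, hlP, hl, hlb⟩ := T.te
    have hlb1 : l ∣ b1 := by
      rw [D.hb] at hlb
      rcases hl.dvd_mul.1 hlb with h1 | h1
      · exact h1
      · exfalso
        have h2 := D.one l hl h1
        rw [Nat.mod_eq_of_lt (by omega)] at h2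
        exact hl.one_lt.ne' h2
    have hb12 : 2 ≤ b1 := hl.two_le.trans (Nat.le_of_dvd D.h1 hlb1)
    have hpN : 2 ^ p ≤ N ^ 2 := (Nat.pow_le_pow_left hb12 p).trans hb1N
    have hp2N := hbig p hpN
    -- primes larger than `z1` dividing `b` divide `b2`
    have hone : ∀ P : ℕ, P.Prime → z1 < P → P ∣ b → P % p = 1 := by
      intro P hP hzP hPb
      rw [D.hb] at hPb
      rcases hP.dvd_mul.1 hPb with h1 | h1
      · exfalso
        have h2 : P ^ p ≤ N ^ 2 := (Nat.pow_le_pow_left (Nat.le_of_dvd D.h1 h1) p).trans hb1N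
        have h3 : (N : ℝ) ^ η1 < P := by
          rw [hz1] at hzP
          have h1 := Nat.lt_floor_add_one ((N : ℝ) ^ η1)
          have h2 : ((⌊(N : ℝ) ^ η1⌋₊ : ℕ) : ℝ) + 1 ≤ P := by exact_mod_cast hzP
          linarith
        have h4 : ((N : ℝ) ^ η1) ^ p < (P : ℝ) ^ p :=
          pow_lt_pow_left₀ h3 (by positivity) (by omega)
        have h5 : (N : ℝ) ^ 2 ≤ ((N : ℝ) ^ η1) ^ p := by
          rw [← Real.rpow_natCast ((N : ℝ) ^ η1), ← Real.rpow_mul (by linarith),
            ← Real.rpow_natCast (N : ℝ) 2]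
          apply Real.rpow_le_rpow_of_exponent_le (by linarith)
          have h6 : (P0 : ℝ) ≤ p := by exact_mod_cast hpP.le
          have h7 : 0 < η1 := by
            by_contra hc
            push Not at hc
            have : η1 * P0 ≤ 0 := mul_nonpos_of_nonpos_of_nonneg hc (Nat.cast_nonneg _)
            linarith
          push_cast
          nlinarith
        have h6 : (P : ℝ) ^ p ≤ (N : ℝ) ^ 2 := by exact_mod_cast h2
        linarith
      · exact D.one P hP h1
    -- first prime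
    obtain ⟨P, hP, hzP, hPb⟩ := large_prime_of_log hb0 dvd_rfl T.tb (by
      have := T.ta
      nlinarith)
    obtain ⟨c, hc⟩ := hPb
    have hPb : P ∣ b := ⟨c, hc⟩
    have hc0 : c ≠ 0 := by
      rintro rfl
      omega
    -- second prime
    obtain ⟨Q, hQ, hzQ, hQc⟩ := large_prime_of_log (c := c) hb0 ⟨P, by rw [hc]; ring⟩ T.tb (by
      have h1 := T.tc P hP hPb
      have h2 := T.ta
      have h3 : Real.log b = Real.log P + Real.log c := by
        rw [hc]
        push_cast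
        exact Real.log_mul (by exact_mod_cast hP.ne_zero) (by exact_mod_cast hc0)
      nlinarith)
    have hQb : Q ∣ b := by
      rw [hc]
      exact hQc.mul_left P
    have hPQ : P ≠ Q := by
      rintro rfl
      apply T.td P hP hzP
      rw [hc, sq]
      exact Nat.mul_dvd_mul_left P hQc
    exact Finset.mem_filter.2 ⟨hbN, p, hp, hpP, hp2N, P, Q, hP, hQ, hPQ, hfl P hzP, hfl Q hzQ,
      hone P hP hzP hPb, hone Q hQ hzQ hQb, hPb, hQb⟩
  · -- small `p`
    have hmem : p ∈ Icc 3 P0 := Finset.mem_Icc.2 ⟨hp3, hpP⟩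
    rcases hq.symm with ⟨hq2, hp5⟩ | ⟨hqo, hq3⟩
    · -- `q = 2`
      left
      rw [hq2] at D
      exact ⟨p, hmem, hp, hp5, Finset.mem_filter.2 ⟨hbN, b1, b2, e, D⟩⟩
    · right; left
      refine ⟨p, hmem, hp, ?_⟩
      by_cases hTy : Ty p N z0 η1 b
      · right
        -- a large prime of `b2`
        have hlb1 : Real.log b1 ≤ 2 / 3 * Real.log N := by
          have h1 : b1 ^ 3 ≤ N ^ 2 := (Nat.pow_le_pow_right D.h1 hp3).trans hb1N
          have h2 : (b1 : ℝ) ^ 3 ≤ (N : ℝ) ^ 2 := by exact_mod_cast h1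
          have h3 : (0 : ℝ) < (b1 : ℝ) ^ 3 := by
            have : (0 : ℝ) < b1 := by exact_mod_cast D.h1
            positivity
          have h4 := Real.log_le_log h3 h2
          rw [Real.log_pow, Real.log_pow] at h4
          push_cast at h4
          linarith
        have hlb : Real.log b = Real.log b1 + Real.log b2 := by
          rw [D.hb]
          push_cast
          exact Real.log_mul (by exact_mod_cast hb10) (by exact_mod_cast hb20)
        obtain ⟨P, hP, hzP, hPb2⟩ := large_prime_of_log (c := b2) hb0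
          ⟨b1, by rw [D.hb]; ring⟩ T.tb (by
          have h2 := T.ta
          nlinarith)
        obtain ⟨m2, hm2⟩ := hPb2
        have hm20 : m2 ≠ 0 := by
          rintro rfl
          omega
        refine Finset.mem_filter.2 ⟨hbN, hTy, b1, m2, P, e, ⟨?_, D.he, hP, ?_, hfl P hzP, D.h1, ?_, ?_, ?_⟩⟩
        · rw [D.hb, hm2]; ring
        · exact D.one P hP ⟨m2, hm2⟩
        · omega
        · intro l hl hlm
          apply D.one l hl
          rw [hm2]
          exact hlm.mul_left P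
        · intro l hl hlb1' hl2 hlp
          obtain ⟨u, hu, hu2⟩ := D.sq hqo l hl hlb1' hl2 hlp
          refine ⟨u, hu, ?_⟩
          rw [← hu2, hm2]
          congr 1
          ring
      · left
        exact hTy

end Pool.Agent.TH863.D
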