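import Mathlib
import Pool.Agent.TH863.D.Ev2
import Pool.Agent.TH863.D.Incl

/-!
Assembly: almost no integer has a prime power which is a difference of two coprime `p`-th powers.
-/

set_option autoImplicit false

namespace Pool.Agent.TH863.D

open Finset Real Filter Topology

lemma card_union3 (A B : Finset ℕ) : (((A ∪ B).card : ℕ) : ℝ) ≤ A.card + B.card := by
  exact_mod_cast Finset.card_union_le A B

open Classical in
lemma ev_biUnion {I : Finset ℕ} {E : ℕ → ℕ → Finset ℕ} {δ : ℝ} (hδ : 0 < δ)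
    (h : ∀ p ∈ I, ∀ δ' : ℝ, 0 < δ' → ∀ᶠ N : ℕ in atTop, ((E p N).card : ℝ) ≤ δ' * N) :
    ∀ᶠ N : ℕ in atTop, (((I.biUnion (fun p => E p N)).card : ℕ) : ℝ) ≤ δ * N := by
  have h1 : ∀ᶠ N : ℕ in atTop, ∀ p ∈ I, ((E p N).card : ℝ) ≤ δ / (I.card + 1) * N :=
    (Finset.eventually_all I).2 fun p hp => h p hp _ (by positivity)
  filter_upwards [h1] with N h1
  have h2 : (((I.biUnion (fun p => E p N)).card : ℕ) : ℝ) ≤ ∑ p ∈ I, ((E p N).card : ℝ) := by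
    exact_mod_cast Finset.card_biUnion_le
  refine h2.trans ((Finset.sum_le_card_nsmul _ _ _ h1).trans ?_)
  rw [nsmul_eq_mul]
  have h3 : (I.card : ℝ) * (δ / (I.card + 1) * N) = (I.card / (I.card + 1)) * (δ * N) := by ring
  rw [h3]
  have h4 : (I.card : ℝ) / (I.card + 1) ≤ 1 := by
    rw [div_le_one (by positivity)]
    linarith
  have h5 : 0 ≤ δ * (N : ℝ) := by positivity
  nlinarith

theorem main {ε : ℝ} (hε : 0 < ε) : ∀ᶠ N : ℕ in atTop, ((BB N).card : ℝ) ≤ ε * N := by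
  classical
  -- the parameters
  obtain ⟨δ, hδd⟩ : ∃ δ : ℝ, δ = min ε 1 / 10 := ⟨_, rfl⟩
  have hδ : 0 < δ := by rw [hδd]; positivity
  have hδ1 : δ ≤ 1 / 10 := by
    rw [hδd]
    have := min_le_right ε 1
    linarith
  have hδε : 10 * δ ≤ ε := by
    rw [hδd]
    have := min_le_left ε 1
    linarith
  obtain ⟨κ, hκd⟩ : ∃ κ : ℝ, κ = δ / 8 := ⟨_, rfl⟩
  have hκ : 0 < κ := by rw [hκd]; positivity
  have hκ4 : κ ≤ 1 / 4 := by rw [hκd]; linarith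
  obtain ⟨η1, hη1d⟩ : ∃ η1 : ℝ, η1 = κ * δ / 8 := ⟨_, rfl⟩
  have hη1 : 0 < η1 := by rw [hη1d]; positivity
  have hη11 : η1 ≤ 1 := by
    rw [hη1d]
    nlinarith
  obtain ⟨η0, hη0d⟩ : ∃ η0 : ℝ, η0 = η1 * δ / 4 := ⟨_, rfl⟩
  have hη0 : 0 < η0 := by rw [hη0d]; positivity
  have hη02 : η0 ≤ 1 / 2 := by
    rw [hη0d]
    nlinarith
  obtain ⟨m, hm⟩ := exists_nat_ge (5184 * (1 / η1) ^ 2 / δ + 2 / η1 + 3)
  obtain ⟨P0, hmP, hE⟩ := evE hδ m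
  have hP0R : 5184 * (1 / η1) ^ 2 / δ + 2 / η1 + 3 ≤ (P0 : ℝ) := hm.trans (by exact_mod_cast hmP)
  have hpos1 : 0 ≤ 5184 * (1 / η1) ^ 2 / δ := by positivity
  have hpos2 : 0 ≤ 2 / η1 := by positivity
  have hP03 : (3 : ℝ) ≤ P0 := by linarith
  have hP01 : 1 ≤ P0 := by
    have : (1 : ℝ) ≤ P0 := by linarith
    exact_mod_cast this
  have hP02 : 2 ≤ η1 * P0 := by
    have h1 : 2 / η1 ≤ P0 := by linarith
    rw [div_le_iff₀ hη1] at h1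
    linarith
  have hP0J : 5184 * (1 / η1) ^ 2 / P0 ≤ δ := by
    have h1 : 5184 * (1 / η1) ^ 2 / δ ≤ P0 := by linarith
    rw [div_le_iff₀ hδ] at h1
    rw [div_le_iff₀ (by linarith)]
    linarith
  -- the exceptional sets
  have hA := evA (κ := κ / 4) (by positivity) hδ
  have hB := evB (θ := η1) (τ := κ / 4) hη1 (by positivity) hδ (by
    rw [hη1d]
    have : κ * δ / 8 / (κ / 4) = δ / 2 := by field_simp; ring
    linarith)
  have hC := evC hκ hκ4 hδ (by rw [hκd]; linarith)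
  have hD := evD hη1 hδ
  have hF := evB (θ := η0) (τ := η1 / 2) hη0 (by positivity) hδ (by
    rw [hη0d]
    have : η1 * δ / 4 / (η1 / 2) = δ / 2 := by field_simp; ring
    linarith)
  obtain ⟨I, hI⟩ : ∃ I : Finset ℕ, I = (Icc 3 P0).filter Nat.Prime := ⟨_, rfl⟩
  have hIm : ∀ p ∈ I, p.Prime ∧ p ≠ 2 := by
    intro p hp
    rw [hI] at hp
    obtain ⟨h1, h2⟩ := Finset.mem_filter.1 hp
    have := (Finset.mem_Icc.1 h1).1
    exact ⟨h2, by omega⟩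
  have hG := ev_biUnion (I := I) (E := fun p N => (Icc 1 N).filter (fun b : ℕ =>
    ¬ 2 / 5 * Real.log (Real.log N) ≤ (om (S2 p ⌊(N : ℝ) ^ η0⌋₊) b : ℝ))) hδ
    (fun p hp δ' hδ' => evG (hIm p hp).1 (hIm p hp).2 hη0 hη02 hδ')
  have hH := ev_biUnion (I := I) (E := fun p N => GC p N ⌊(N : ℝ) ^ η0⌋₊ η1) hδ
    (fun p hp δ' hδ' => evH (hIm p hp).1 (hIm p hp).2 hη0 (by linarith) hη1 hδ')
  obtain ⟨I', hI'⟩ : ∃ I' : Finset ℕ, I' = I.filter (fun p => 5 ≤ p) := ⟨_, rfl⟩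
  have hII := ev_biUnion (I := I') (E := fun p N => QS p N) hδ
    (fun p hp δ' hδ' => evI (by rw [hI'] at hp; exact (Finset.mem_filter.1 hp).2) hδ')
  have hJ := evJ hP01 hη1 hη11 hP0J
  have hbig := ev_big hη1
  filter_upwards [hA, hB, hC, hD, hE, hF, hG, hH, hII, hJ, hbig, eventually_ge_atTop 3] with N
    hA hB hC hD hE hF hG hH hII hJ hbig hN
  obtain ⟨XA, hXA⟩ : ∃ X : Finset ℕ, X = (Icc 1 N).filter
    (fun b : ℕ => ¬ (1 - κ / 4) * Real.log N ≤ Real.log b) := ⟨_, rfl⟩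
  obtain ⟨XB, hXB⟩ : ∃ X : Finset ℕ, X = (Icc 1 N).filter
    (fun b : ℕ => ¬ hh ⌊(N : ℝ) ^ η1⌋₊ b ≤ κ / 4 * Real.log N) := ⟨_, rfl⟩
  obtain ⟨XC, hXC⟩ : ∃ X : Finset ℕ, X = (Icc 1 N).filter
    (fun b : ℕ => ¬ ∀ P : ℕ, P.Prime → P ∣ b → Real.log P ≤ (1 - κ) * Real.log N) := ⟨_, rfl⟩
  obtain ⟨XD, hXD⟩ : ∃ X : Finset ℕ, X = (Icc 1 N).filter
    (fun b : ℕ => ¬ ∀ P : ℕ, P.Prime → ⌊(N : ℝ) ^ η1⌋₊ < P → ¬ P ^ 2 ∣ b) := ⟨_, rfl⟩
  obtain ⟨XE, hXE⟩ : ∃ X : Finset ℕ, X = (Icc 1 N).filter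
    (fun b : ℕ => ¬ ∃ l : ℕ, l ≤ P0 ∧ l.Prime ∧ l ∣ b) := ⟨_, rfl⟩
  obtain ⟨XF, hXF⟩ : ∃ X : Finset ℕ, X = (Icc 1 N).filter
    (fun b : ℕ => ¬ hh ⌊(N : ℝ) ^ η0⌋₊ b ≤ η1 / 2 * Real.log N) := ⟨_, rfl⟩
  obtain ⟨XG, hXG⟩ : ∃ X : Finset ℕ, X = I.biUnion (fun p => (Icc 1 N).filter (fun b : ℕ =>
    ¬ 2 / 5 * Real.log (Real.log N) ≤ (om (S2 p ⌊(N : ℝ) ^ η0⌋₊) b : ℝ))) := ⟨_, rfl⟩
  obtain ⟨XH, hXH⟩ : ∃ X : Finset ℕ, X = I.biUnion (fun p => GC p N ⌊(N : ℝ) ^ η0⌋₊ η1) := ⟨_, rfl⟩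
  obtain ⟨XI, hXI⟩ : ∃ X : Finset ℕ, X = I'.biUnion (fun p => QS p N) := ⟨_, rfl⟩
  obtain ⟨XJ, hXJ⟩ : ∃ X : Finset ℕ, X = DS N P0 ((N : ℝ) ^ η1) := ⟨_, rfl⟩
  rw [← hXA] at hA
  rw [← hXB] at hB
  rw [← hXC] at hC
  rw [← hXD] at hD
  rw [← hXE] at hE
  rw [← hXF] at hF
  rw [← hXG] at hG
  rw [← hXH] at hH
  rw [← hXI] at hII
  rw [← hXJ] at hJ
  have hcov : BB N ⊆ XA ∪ (XB ∪ (XC ∪ (XD ∪ (XE ∪ (XF ∪ (XG ∪ (XH ∪ (XI ∪ XJ)))))))) := by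
    intro b hb
    have hbN : b ∈ Icc 1 N := (Finset.mem_filter.1 hb).1
    by_cases tA : b ∈ XA
    · exact Finset.mem_union_left _ tA
    refine Finset.mem_union_right _ ?_
    by_cases tB : b ∈ XB
    · exact Finset.mem_union_left _ tB
    refine Finset.mem_union_right _ ?_
    by_cases tC : b ∈ XC
    · exact Finset.mem_union_left _ tC
    refine Finset.mem_union_right _ ?_
    by_cases tD : b ∈ XD
    · exact Finset.mem_union_left _ tD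
    refine Finset.mem_union_right _ ?_
    by_cases tE : b ∈ XE
    · exact Finset.mem_union_left _ tE
    refine Finset.mem_union_right _ ?_
    by_cases tF : b ∈ XF
    · exact Finset.mem_union_left _ tF
    refine Finset.mem_union_right _ ?_
    rw [hXA, Finset.mem_filter, not_and, not_not] at tA
    rw [hXB, Finset.mem_filter, not_and, not_not] at tB
    rw [hXC, Finset.mem_filter, not_and, not_not] at tC
    rw [hXD, Finset.mem_filter, not_and, not_not] at tD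
    rw [hXE, Finset.mem_filter, not_and, not_not] at tE
    rw [hXF, Finset.mem_filter, not_and, not_not] at tF
    have T : Typ N ⌊(N : ℝ) ^ η1⌋₊ P0 κ b := ⟨tA hbN, tB hbN, tC hbN, tD hbN, tE hbN⟩
    rcases incl (z0 := ⌊(N : ℝ) ^ η0⌋₊) hN hκ (by linarith) rfl hP02 hbig hb T with
      ⟨p, hp, hpp, hp5, hQ⟩ | ⟨p, hp, hpp, hTy⟩ | hDS
    · refine Finset.mem_union_right _ (Finset.mem_union_right _ (Finset.mem_union_left _ ?_))
      rw [hXI, hI', hI]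
      exact Finset.mem_biUnion.2 ⟨p, Finset.mem_filter.2 ⟨Finset.mem_filter.2 ⟨hp, hpp⟩, hp5⟩, hQ⟩
    · have hpI : p ∈ I := by
        rw [hI]
        exact Finset.mem_filter.2 ⟨hp, hpp⟩
      rcases hTy with h1 | h1
      · refine Finset.mem_union_left _ ?_
        rw [hXG]
        refine Finset.mem_biUnion.2 ⟨p, hpI, Finset.mem_filter.2 ⟨hbN, fun h2 => h1 ⟨tF hbN, h2⟩⟩⟩
      · refine Finset.mem_union_right _ (Finset.mem_union_left _ ?_)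
        rw [hXH]
        exact Finset.mem_biUnion.2 ⟨p, hpI, h1⟩
    · refine Finset.mem_union_right _ (Finset.mem_union_right _ (Finset.mem_union_right _ ?_))
      rw [hXJ]
      exact hDS
  have h1 : ((BB N).card : ℝ) ≤ ((XA ∪ (XB ∪ (XC ∪ (XD ∪ (XE ∪ (XF ∪ (XG ∪ (XH ∪ (XI ∪ XJ)))))))) :
    Finset ℕ).card : ℝ) := by exact_mod_cast Finset.card_le_card hcov
  have u1 := card_union3 XA (XB ∪ (XC ∪ (XD ∪ (XE ∪ (XF ∪ (XG ∪ (XH ∪ (XI ∪ XJ))))))))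
  have u2 := card_union3 XB (XC ∪ (XD ∪ (XE ∪ (XF ∪ (XG ∪ (XH ∪ (XI ∪ XJ)))))))
  have u3 := card_union3 XC (XD ∪ (XE ∪ (XF ∪ (XG ∪ (XH ∪ (XI ∪ XJ))))))
  have u4 := card_union3 XD (XE ∪ (XF ∪ (XG ∪ (XH ∪ (XI ∪ XJ)))))
  have u5 := card_union3 XE (XF ∪ (XG ∪ (XH ∪ (XI ∪ XJ))))
  have u6 := card_union3 XF (XG ∪ (XH ∪ (XI ∪ XJ)))
  have u7 := card_union3 XG (XH ∪ (XI ∪ XJ))
  have u8 := card_union3 XH (XI ∪ XJ)
  have u9 := card_union3 XI XJ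
  have hNε : 10 * (δ * N) ≤ ε * N := by
    have : (0 : ℝ) ≤ N := Nat.cast_nonneg _
    nlinarith
  linarith

end Pool.Agent.TH863.D
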