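import Mathlib

/-!
The equation `c ^ k + Y ^ 4 = X ^ 4`.
-/

set_option autoImplicit false

namespace Pool.Agent.TH863.D

open Finset

theorem eq_pow_of_coprime {x y c z : ℕ} (hco : Nat.Coprime x y) (h : x * y = c ^ z) (hz : 0 < z) :
    ∃ d e : ℕ, x = d ^ z ∧ y = e ^ z ∧ c = d * e := by
  obtain ⟨d, hd⟩ := exists_eq_pow_of_mul_eq_pow (by
    rw [Nat.isUnit_iff]; exact hco) h
  obtain ⟨e, he⟩ := exists_eq_pow_of_mul_eq_pow (a := y) (b := x) (by
    rw [Nat.isUnit_iff]; exact hco.symm) (by rw [mul_comm]; exact h)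
  refine ⟨d, e, hd, he, ?_⟩
  have : (d * e) ^ z = c ^ z := by rw [mul_pow, ← hd, ← he, h]
  exact (Nat.pow_left_injective (by omega) this).symm

lemma coprime_sq_add {a b : ℕ} (h : Nat.Coprime a b) : Nat.Coprime (a * b) (a ^ 2 + b ^ 2) := by
  apply Nat.Coprime.mul_left
  · have h1 : Nat.Coprime a (b ^ 2) := Nat.Coprime.pow_right 2 h
    have : a ^ 2 + b ^ 2 = b ^ 2 + a * a := by ring
    rw [this]
    exact (Nat.coprime_add_mul_left_right a (b ^ 2) a).2 h1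
  · have h1 : Nat.Coprime b (a ^ 2) := Nat.Coprime.pow_right 2 h.symm
    have : a ^ 2 + b ^ 2 = a ^ 2 + b * b := by ring
    rw [this]
    exact (Nat.coprime_add_mul_left_right b (a ^ 2) b).2 h1

/-- one odd and one even number -/
lemma four_aux {a b c k : ℕ} (hk : 0 < k) (hab : Nat.Coprime a b) (ha : Odd a)
    (h : 8 * a * b * (a ^ 2 + b ^ 2) = c ^ k) (hb : Even b) :
    ∃ u v w : ℕ, c = u * v * w ∧ 64 * w ^ k = 64 * u ^ (2 * k) + v ^ (2 * k) := by
  have h8 : Nat.Coprime a 8 := by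
    have : (8 : ℕ) = 2 ^ 3 := by norm_num
    rw [this]
    exact Nat.Coprime.pow_right 3 (Nat.coprime_two_right.2 ha)
  have hodd : Odd (a ^ 2 + b ^ 2) := by
    have h1 : Odd (a ^ 2) := ha.pow
    have h2 : Even (b ^ 2) := (Nat.even_pow' (by norm_num)).2 hb
    exact h1.add_even h2
  have h82 : Nat.Coprime 8 (a ^ 2 + b ^ 2) := by
    have : (8 : ℕ) = 2 ^ 3 := by norm_num
    rw [this]
    exact Nat.Coprime.pow_left 3 (Nat.coprime_two_left.2 hodd)
  have hc1 : Nat.Coprime (8 * (a * b)) (a ^ 2 + b ^ 2) :=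
    Nat.Coprime.mul_left h82 (coprime_sq_add hab)
  obtain ⟨D, w, hD, hw, hc⟩ := eq_pow_of_coprime hc1 (by rw [← h]; ring) hk
  have hc2 : Nat.Coprime a (8 * b) := Nat.Coprime.mul_right h8 hab
  obtain ⟨u, v, hu, hv, hD2⟩ := eq_pow_of_coprime hc2 (by rw [← hD]; ring) hk
  refine ⟨u, v, w, by rw [hc, hD2], ?_⟩
  rw [← hw, mul_comm 2 k, pow_mul, pow_mul, ← hu, ← hv]
  ring

theorem four_struct {X Y c k : ℕ} (hk : 0 < k) (hY : 0 < Y) (hco : Nat.Coprime X Y)
    (hc : 0 < c) (h : c ^ k + Y ^ 4 = X ^ 4) :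
    ∃ u v w : ℕ, c = u * v * w ∧ ((2 * w ^ k = u ^ (2 * k) + v ^ (2 * k) ∧ u < v) ∨
      64 * w ^ k = 64 * u ^ (2 * k) + v ^ (2 * k)) := by
  have hlt : Y < X := by
    have h0 : 0 < c ^ k := by positivity
    have h1 : Y ^ 4 < X ^ 4 := by omega
    exact lt_of_pow_lt_pow_left₀ 4 (Nat.zero_le _) h1
  obtain ⟨d, hd⟩ : ∃ d : ℕ, X = Y + d := ⟨X - Y, by omega⟩
  have hd0 : 0 < d := by omega
  have hcd : Nat.Coprime d Y := by
    have h1 : Nat.Coprime (Y + d) Y := hd ▸ hco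
    rw [add_comm] at h1
    exact (Nat.coprime_add_self_left).1 h1
  have hck : c ^ k = d * (2 * Y + d) * ((Y + d) ^ 2 + Y ^ 2) := by
    have h1 : (Y + d) ^ 4 = Y ^ 4 + d * (2 * Y + d) * ((Y + d) ^ 2 + Y ^ 2) := by ring
    rw [hd] at h
    omega
  rcases Nat.even_or_odd d with hde | hdo
  · -- both odd
    obtain ⟨a, ha⟩ := hde
    have ha' : d = 2 * a := by omega
    have hYo : Odd Y := by
      rw [← Nat.not_even_iff_odd]
      intro hYe
      have h1 : 2 ∣ Nat.gcd d Y := Nat.dvd_gcd ⟨a, ha'⟩ hYe.two_dvd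
      rw [hcd] at h1
      omega
    have hca : Nat.Coprime a (Y + a) := by
      have h1 : Nat.Coprime a Y := Nat.Coprime.coprime_dvd_left ⟨2, by omega⟩ hcd
      exact (Nat.coprime_add_self_right).2 h1
    have hmain : 8 * a * (Y + a) * (a ^ 2 + (Y + a) ^ 2) = c ^ k := by
      rw [hck, ha']
      ring
    rcases Nat.even_or_odd a with hae | hao
    · have hYa : Odd (Y + a) := hYo.add_even hae
      obtain ⟨u, v, w, h1, h2⟩ := four_aux (a := Y + a) (b := a) hk hca.symm hYa (by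
        rw [← hmain]; ring) hae
      exact ⟨u, v, w, h1, Or.inr h2⟩
    · have hYa : Even (Y + a) := hYo.add_odd hao
      obtain ⟨u, v, w, h1, h2⟩ := four_aux (a := a) (b := Y + a) hk hca hao hmain hYa
      exact ⟨u, v, w, h1, Or.inr h2⟩
  · -- opposite parity
    have hc1 : Nat.Coprime d (2 * Y + d) := by
      have h1 : Nat.Coprime d (2 * Y) := Nat.Coprime.mul_right (Nat.coprime_two_right.2 hdo) hcd
      exact (Nat.coprime_add_self_right).2 h1
    have hodd2 : Odd (2 * Y + d) := by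
      have : Even (2 * Y) := ⟨Y, by ring⟩
      exact this.add_odd hdo
    have hc2 : Nat.Coprime (d * (2 * Y + d)) ((Y + d) ^ 2 + Y ^ 2) := by
      have h1 := coprime_sq_add hc1
      have h2 : d ^ 2 + (2 * Y + d) ^ 2 = 2 * ((Y + d) ^ 2 + Y ^ 2) := by ring
      rw [h2] at h1
      exact Nat.Coprime.coprime_dvd_right ⟨2, by ring⟩ h1
    obtain ⟨D, w, hD, hw, hcD⟩ := eq_pow_of_coprime hc2 hck.symm hk
    obtain ⟨u, v, hu, hv, hDuv⟩ := eq_pow_of_coprime hc1 hD hk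
    refine ⟨u, v, w, by rw [hcD, hDuv], Or.inl ⟨?_, ?_⟩⟩
    · rw [← hw, mul_comm 2 k, pow_mul, pow_mul, ← hu, ← hv]
      ring
    · have h1 : u ^ k < v ^ k := by
        rw [← hu, ← hv]
        omega
      exact lt_of_pow_lt_pow_left₀ k (Nat.zero_le _) h1

/-- the inequalities -/
theorem four_ineq {u v w k : ℕ} (hk : 3 ≤ k) (hu : 0 < u) (hv : 0 < v) (hw : 0 < w)
    (h : (2 * w ^ k = u ^ (2 * k) + v ^ (2 * k) ∧ u < v) ∨
      64 * w ^ k = 64 * u ^ (2 * k) + v ^ (2 * k)) :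
    u * v ≤ 2 * w ∧ ∃ M : ℕ, (M = u ^ 2 ∨ M = v ^ 2) ∧ w ≠ M ∧ M ≤ 4 * w ∧
      (w : ℝ) - M ≤ 63 * M / k ∧ (M : ℝ) - w ≤ 63 * M / k := by
  have hkR : (3 : ℝ) ≤ k := by exact_mod_cast hk
  have hk0 : (0 : ℝ) < k := by linarith
  have hwR : (0 : ℝ) < w := by exact_mod_cast hw
  have huR : (0 : ℝ) < u := by exact_mod_cast hu
  have hvR : (0 : ℝ) < v := by exact_mod_cast hv
  have bern : ∀ t : ℝ, 0 ≤ t → 1 + t ≤ (1 + t / k) ^ k := by
    intro t ht
    have h1 := one_add_mul_le_pow (a := t / k) (by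
      have : 0 ≤ t / k := by positivity
      linarith) k
    have h2 : (k : ℝ) * (t / k) = t := by field_simp
    rw [h2] at h1
    exact h1
  have hpu : u ^ (2 * k) = (u ^ 2) ^ k := by rw [← pow_mul]
  have hpv : v ^ (2 * k) = (v ^ 2) ^ k := by rw [← pow_mul]
  rw [hpu, hpv] at h
  have hsq : (u ^ 2) ^ k * (v ^ 2) ^ k = ((u * v) ^ k) ^ 2 := by
    rw [← mul_pow, ← mul_pow, ← pow_mul, ← pow_mul, mul_comm 2 k]
  -- real versions
  have key : ∀ {t : ℝ} {M : ℕ}, 0 ≤ t → (w : ℝ) ≤ M → ((M : ℝ)) ^ k ≤ (1 + t) * (w : ℝ) ^ k →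
      (M : ℝ) - w ≤ t * M / k := by
    intro t M ht hwM hM
    have h1 : (M : ℝ) ≤ w * (1 + t / k) := by
      by_contra hc
      push Not at hc
      have h2 : (w * (1 + t / k)) ^ k < (M : ℝ) ^ k :=
        pow_lt_pow_left₀ hc (by positivity) (by omega)
      rw [mul_pow] at h2
      have h3 := mul_le_mul_of_nonneg_left (bern t ht) (show 0 ≤ (w : ℝ) ^ k by positivity)
      linarith
    have h2 : (w : ℝ) * (t / k) ≤ M * (t / k) := mul_le_mul_of_nonneg_right hwM (by positivity)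
    have h3 : t * (M : ℝ) / k = M * (t / k) := by ring
    rw [h3]
    linarith
  have key2 : ∀ {t : ℝ} {M : ℕ}, 0 ≤ t → ((w : ℝ)) ^ k ≤ (1 + t) * (M : ℝ) ^ k →
      (w : ℝ) - M ≤ t * M / k := by
    intro t M ht hM
    have h1 : (w : ℝ) ≤ M * (1 + t / k) := by
      by_contra hc
      push Not at hc
      have h2 : (M * (1 + t / k)) ^ k < (w : ℝ) ^ k :=
        pow_lt_pow_left₀ hc (by positivity) (by omega)
      rw [mul_pow] at h2
      have h3 := mul_le_mul_of_nonneg_left (bern t ht) (show 0 ≤ (M : ℝ) ^ k by positivity)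
      linarith
    have h3 : t * (M : ℝ) / k = M * (t / k) := by ring
    rw [h3]
    linarith
  rcases h with ⟨h, huv⟩ | h
  · have huvk : (u ^ 2) ^ k < (v ^ 2) ^ k :=
      Nat.pow_lt_pow_left (Nat.pow_lt_pow_left huv (by norm_num)) (by omega)
    have hwv : w < v ^ 2 := by
      have h1 : w ^ k < (v ^ 2) ^ k := by omega
      exact lt_of_pow_lt_pow_left₀ k (Nat.zero_le _) h1
    have h2w : v ^ 2 ≤ 2 * w := by
      have h1 : (v ^ 2) ^ k ≤ (2 * w) ^ k := by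
        rw [mul_pow]
        have h2 : 2 ≤ 2 ^ k := Nat.le_self_pow (by omega) 2
        calc (v ^ 2) ^ k ≤ 2 * w ^ k := by omega
          _ ≤ 2 ^ k * w ^ k := Nat.mul_le_mul_right _ h2
      exact le_of_pow_le_pow_left₀ (by omega) (Nat.zero_le _) h1
    refine ⟨?_, v ^ 2, Or.inr rfl, by omega, by omega, ?_, ?_⟩
    · have : u * v ≤ v ^ 2 := by
        rw [sq]
        exact Nat.mul_le_mul_right v huv.le
      omega
    · have h1 : (w : ℝ) ≤ ((v ^ 2 : ℕ) : ℝ) := by exact_mod_cast hwv.le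
      have h2 : 0 ≤ 63 * ((v ^ 2 : ℕ) : ℝ) / k := by positivity
      linarith
    · apply key (by norm_num) (by exact_mod_cast hwv.le)
      have h1 : (v ^ 2) ^ k ≤ 64 * w ^ k := by omega
      have h2 : (((v ^ 2 : ℕ)) : ℝ) ^ k ≤ 64 * (w : ℝ) ^ k := by exact_mod_cast h1
      linarith
  · have huv2 : u * v ≤ 2 * w := by
      have h1 : (u * v) ^ k ≤ (2 * w) ^ k := by
        rw [mul_pow 2 w]
        have h2 : 4 ≤ 2 ^ k := by
          calc 4 = 2 ^ 2 := by norm_num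
            _ ≤ 2 ^ k := Nat.pow_le_pow_right (by norm_num) (by omega)
        have h3 : (u * v) ^ k ≤ 4 * w ^ k := by
          by_contra hc
          push Not at hc
          have h4 : 64 * (u ^ 2) ^ k + (v ^ 2) ^ k < 16 * (u * v) ^ k := by omega
          have h5 : (64 * (u ^ 2) ^ k + (v ^ 2) ^ k) ^ 2 < (16 * (u * v) ^ k) ^ 2 :=
            Nat.pow_lt_pow_left h4 (by norm_num)
          rw [mul_pow 16, ← hsq] at h5
          nlinarith [sq_nonneg ((64 * ((u : ℤ) ^ 2) ^ k) - ((v : ℤ) ^ 2) ^ k), h5,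
            (by
              have e1 : (0 : ℤ) ≤ (64 * ((u : ℤ) ^ 2) ^ k - ((v : ℤ) ^ 2) ^ k) ^ 2 := sq_nonneg _
              have e2 : ((64 : ℤ) * ((u : ℤ) ^ 2) ^ k + ((v : ℤ) ^ 2) ^ k) ^ 2 <
                16 ^ 2 * (((u : ℤ) ^ 2) ^ k * ((v : ℤ) ^ 2) ^ k) := by exact_mod_cast h5
              nlinarith : False)]
        exact h3.trans (Nat.mul_le_mul_right _ h2)
      exact le_of_pow_le_pow_left₀ (by omega) (Nat.zero_le _) h1
    refine ⟨huv2, ?_⟩
    have hv0 : 0 < (v ^ 2) ^ k := by positivity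
    rcases Nat.lt_or_ge ((v ^ 2) ^ k) (64 * (u ^ 2) ^ k) with h1 | h1
    · -- `u` dominates
      have hwu : u ^ 2 < w := by
        have h2 : (u ^ 2) ^ k < w ^ k := by omega
        exact lt_of_pow_lt_pow_left₀ k (Nat.zero_le _) h2
      refine ⟨u ^ 2, Or.inl rfl, by omega, by omega, ?_, ?_⟩
      · apply key2 (by norm_num)
        have h2 : w ^ k ≤ 64 * (u ^ 2) ^ k := by omega
        have h3 : (w : ℝ) ^ k ≤ 64 * (((u ^ 2 : ℕ)) : ℝ) ^ k := by exact_mod_cast h2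
        linarith
      · have h2 : ((u ^ 2 : ℕ) : ℝ) ≤ w := by exact_mod_cast hwu.le
        have h3 : 0 ≤ 63 * ((u ^ 2 : ℕ) : ℝ) / k := by positivity
        linarith
    · have hwv : w < v ^ 2 := by
        have h2 : w ^ k < (v ^ 2) ^ k := by omega
        exact lt_of_pow_lt_pow_left₀ k (Nat.zero_le _) h2
      refine ⟨v ^ 2, Or.inr rfl, by omega, ?_, ?_, ?_⟩
      · have h2 : (v ^ 2) ^ k ≤ (4 * w) ^ k := by
          rw [mul_pow]
          have h3 : 64 ≤ 4 ^ k := by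
            calc 64 = 4 ^ 3 := by norm_num
              _ ≤ 4 ^ k := Nat.pow_le_pow_right (by norm_num) hk
          calc (v ^ 2) ^ k ≤ 64 * w ^ k := by omega
            _ ≤ 4 ^ k * w ^ k := Nat.mul_le_mul_right _ h3
        exact le_of_pow_le_pow_left₀ (by omega) (Nat.zero_le _) h2
      · have h2 : (w : ℝ) ≤ ((v ^ 2 : ℕ) : ℝ) := by exact_mod_cast hwv.le
        have h3 : 0 ≤ 63 * ((v ^ 2 : ℕ) : ℝ) / k := by positivity
        linarith
      · apply key (by norm_num) (by exact_mod_cast hwv.le)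
        have h2 : (v ^ 2) ^ k ≤ 64 * w ^ k := by omega
        have h3 : (((v ^ 2 : ℕ)) : ℝ) ^ k ≤ 64 * (w : ℝ) ^ k := by exact_mod_cast h2
        linarith

end Pool.Agent.TH863.D
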