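import Mathlib
import Pool.Agent.TH863.D.Four
import Pool.Agent.TH863.D.Ev

/-!
Few integers have a power which is a difference of two coprime fourth powers.
-/

set_option autoImplicit false

namespace Pool.Agent.TH863.D

open Finset Real Filter Topology

open Classical in
/-- integers with a power which is a difference of two fourth powers -/
noncomputable def Q4 (N : ℕ) : Finset ℕ :=
  (Icc 1 N).filter (fun c => ∃ X Y k : ℕ, 3 ≤ k ∧ 0 < Y ∧ Nat.Coprime X Y ∧ c ^ k + Y ^ 4 = X ^ 4)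

lemma card_near (M : ℕ) (t : ℝ) (ht : 0 ≤ t) (W : Finset ℕ)
    (h : ∀ w ∈ W, w ≠ M ∧ (w : ℝ) - M ≤ t ∧ (M : ℝ) - w ≤ t) : (W.card : ℝ) ≤ 2 * t := by
  have hsub : W ⊆ Ioc M (M + ⌊t⌋₊) ∪ Ico (M - ⌊t⌋₊) M := by
    intro w hw
    obtain ⟨h1, h2, h3⟩ := h w hw
    rw [Finset.mem_union, Finset.mem_Ioc, Finset.mem_Ico]
    rcases Nat.lt_or_ge M w with h4 | h4
    · left
      refine ⟨h4, ?_⟩
      have h5 : w - M ≤ ⌊t⌋₊ := by
        apply Nat.le_floor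
        rw [Nat.cast_sub h4.le]
        exact h2
      omega
    · right
      have h6 : M - w ≤ ⌊t⌋₊ := by
        apply Nat.le_floor
        rw [Nat.cast_sub h4]
        exact h3
      omega
  have h1 := (Finset.card_le_card hsub).trans (Finset.card_union_le _ _)
  rw [Nat.card_Ioc, Nat.card_Ico] at h1
  have h2 : W.card ≤ 2 * ⌊t⌋₊ := by omega
  have h3 : (W.card : ℝ) ≤ 2 * (⌊t⌋₊ : ℝ) := by exact_mod_cast h2
  have h4 := Nat.floor_le ht
  linarith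

/-- pairs with product at most `R` -/
def PR2 (R : ℕ) : Finset (ℕ × ℕ) := ((Icc 1 R) ×ˢ (Icc 1 R)).filter (fun q => q.1 * q.2 ≤ R)

lemma card_PR2 (R : ℕ) : ((PR2 R).card : ℝ) ≤ R * (1 + Real.log R) := by
  have h1 : (PR2 R).card ≤ ∑ u ∈ Icc 1 R, R / u := by
    have h2 : PR2 R ⊆ (Icc 1 R).biUnion (fun u => (Icc 1 (R / u)).image (fun v => (u, v))) := by
      rintro ⟨u, v⟩ h
      obtain ⟨h3, h4⟩ := Finset.mem_filter.1 h
      obtain ⟨h5, h6⟩ := Finset.mem_product.1 h3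
      have h5' := Finset.mem_Icc.1 h5
      have h6' := Finset.mem_Icc.1 h6
      refine Finset.mem_biUnion.2 ⟨u, h5, Finset.mem_image.2 ⟨v, Finset.mem_Icc.2 ⟨h6'.1, ?_⟩, rfl⟩⟩
      rw [Nat.le_div_iff_mul_le h5'.1, mul_comm]
      exact h4
    refine (Finset.card_le_card h2).trans (Finset.card_biUnion_le.trans ?_)
    refine Finset.sum_le_sum fun u _ => Finset.card_image_le.trans ?_
    rw [Nat.card_Icc, Nat.add_sub_cancel]
  have h2 : ((PR2 R).card : ℝ) ≤ ∑ u ∈ Icc 1 R, ((R / u : ℕ) : ℝ) := by exact_mod_cast h1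
  refine h2.trans ?_
  have h3 : ∑ u ∈ Icc 1 R, ((R / u : ℕ) : ℝ) ≤ ∑ u ∈ Icc 1 R, (R : ℝ) * (1 / u) := by
    refine Finset.sum_le_sum fun u _ => ?_
    rw [mul_one_div]
    exact Nat.cast_div_le
  refine h3.trans ?_
  rw [← Finset.mul_sum]
  apply mul_le_mul_of_nonneg_left _ (Nat.cast_nonneg _)
  have h4 := harmonic_le_one_add_log R
  rw [harmonic_eq_sum_Icc] at h4
  push_cast at h4
  simpa [one_div] using h4

lemma sum_PR2 (R : ℕ) : ∑ q ∈ PR2 R, (1 : ℝ) / (q.1 * q.2) ≤ (1 + Real.log R) ^ 2 := by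
  have h4 : ∑ u ∈ Icc 1 R, 1 / (u : ℝ) ≤ 1 + Real.log R := by
    have h4 := harmonic_le_one_add_log R
    rw [harmonic_eq_sum_Icc] at h4
    push_cast at h4
    simpa [one_div] using h4
  calc ∑ q ∈ PR2 R, (1 : ℝ) / (q.1 * q.2) ≤
      ∑ q ∈ (Icc 1 R) ×ˢ (Icc 1 R), (1 : ℝ) / (q.1 * q.2) :=
        Finset.sum_le_sum_of_subset_of_nonneg (Finset.filter_subset _ _) (fun q _ _ => by positivity)
    _ = (∑ u ∈ Icc 1 R, 1 / (u : ℝ)) ^ 2 := by
        rw [sq, Finset.sum_mul_sum, Finset.sum_product]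
        refine Finset.sum_congr rfl fun u _ => Finset.sum_congr rfl fun v _ => ?_
        rw [one_div_mul_one_div]
    _ ≤ _ := by
        apply pow_le_pow_left₀ _ h4
        exact Finset.sum_nonneg fun u _ => by positivity

open Classical in
/-- the third factors for a large exponent -/
noncomputable def W4 (N K u v M : ℕ) : Finset ℕ :=
  (Icc 1 N).filter (fun w => u * v * w ≤ N ∧ w ≠ M ∧ M ≤ 4 * w ∧
    (w : ℝ) - M ≤ 63 * M / K ∧ (M : ℝ) - w ≤ 63 * M / K)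

lemma card_W4 {N K u v M : ℕ} (hK : 1 ≤ K) (hu : 1 ≤ u) (hv : 1 ≤ v) :
    ((W4 N K u v M).card : ℝ) ≤ 504 * N / K * (1 / (u * v)) := by
  have hKR : (1 : ℝ) ≤ K := by exact_mod_cast hK
  have huR : (1 : ℝ) ≤ u := by exact_mod_cast hu
  have hvR : (1 : ℝ) ≤ v := by exact_mod_cast hv
  rcases Finset.eq_empty_or_nonempty (W4 N K u v M) with h0 | ⟨w0, hw0⟩
  · rw [h0, Finset.card_empty, Nat.cast_zero]
    positivity
  · obtain ⟨_, h1, _, h2, _⟩ := Finset.mem_filter.1 hw0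
    have h3 : (M : ℝ) ≤ 4 * N * (1 / (u * v)) := by
      rw [mul_one_div, le_div_iff₀ (by positivity)]
      have h4 : M * (u * v) ≤ 4 * N := by
        calc M * (u * v) ≤ (4 * w0) * (u * v) := Nat.mul_le_mul_right _ h2
          _ = 4 * (u * v * w0) := by ring
          _ ≤ 4 * N := Nat.mul_le_mul_left _ h1
      exact_mod_cast h4
    have h5 := card_near M (63 * M / K) (by positivity) (W4 N K u v M) (by
      intro w hw
      obtain ⟨_, _, h6, _, h7, h8⟩ := Finset.mem_filter.1 hw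
      exact ⟨h6, h7, h8⟩)
    refine h5.trans ?_
    calc 2 * (63 * (M : ℝ) / K) = 126 / K * M := by ring
      _ ≤ 126 / K * (4 * N * (1 / (u * v))) := mul_le_mul_of_nonneg_left h3 (by positivity)
      _ = 504 * N / K * (1 / (u * v)) := by ring

theorem card_Q4 (N K : ℕ) (hN : 1 ≤ N) (hK : 1 ≤ K) :
    ((Q4 N).card : ℝ) ≤ 2 * K * (Nat.sqrt (2 * N) * (1 + Real.log (Nat.sqrt (2 * N)))) +
      1008 * N / K * (1 + Real.log (Nat.sqrt (2 * N))) ^ 2 := by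
  classical
  obtain ⟨R, hR⟩ : ∃ R : ℕ, R = Nat.sqrt (2 * N) := ⟨_, rfl⟩
  rw [← hR]
  -- structure
  have hst : ∀ c ∈ Q4 N, ∃ u v w k : ℕ, 3 ≤ k ∧ (u, v) ∈ PR2 R ∧ 1 ≤ w ∧ c = u * v * w ∧
      ((2 * w ^ k = u ^ (2 * k) + v ^ (2 * k)) ∨ 64 * w ^ k = 64 * u ^ (2 * k) + v ^ (2 * k)) ∧
      ∃ M : ℕ, (M = u ^ 2 ∨ M = v ^ 2) ∧ w ≠ M ∧ M ≤ 4 * w ∧
      (w : ℝ) - M ≤ 63 * M / k ∧ (M : ℝ) - w ≤ 63 * M / k := by
    intro c hc
    obtain ⟨hcN, X, Y, k, hk, hY, hco, h⟩ := Finset.mem_filter.1 hc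
    have hcN' := Finset.mem_Icc.1 hcN
    obtain ⟨u, v, w, hcuv, hor⟩ := four_struct (by omega) hY hco hcN'.1 h
    have hu : 0 < u := by
      rcases Nat.eq_zero_or_pos u with h0 | h0
      · rw [h0] at hcuv; simp at hcuv; omega
      · exact h0
    have hv : 0 < v := by
      rcases Nat.eq_zero_or_pos v with h0 | h0
      · rw [h0] at hcuv; simp at hcuv; omega
      · exact h0
    have hw : 0 < w := by
      rcases Nat.eq_zero_or_pos w with h0 | h0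
      · rw [h0] at hcuv; simp at hcuv; omega
      · exact h0
    obtain ⟨h1, h2⟩ := four_ineq hk hu hv hw hor
    have h3 : u * v ≤ R := by
      rw [hR, Nat.le_sqrt]
      calc u * v * (u * v) ≤ u * v * (2 * w) := Nat.mul_le_mul_left _ h1
        _ = 2 * (u * v * w) := by ring
        _ ≤ 2 * N := by rw [← hcuv]; omega
    refine ⟨u, v, w, k, hk, ?_, hw, hcuv, ?_, h2⟩
    · refine Finset.mem_filter.2 ⟨Finset.mem_product.2 ⟨Finset.mem_Icc.2 ⟨hu, ?_⟩,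
        Finset.mem_Icc.2 ⟨hv, ?_⟩⟩, h3⟩
      · exact (Nat.le_mul_of_pos_right u hv).trans h3
      · exact (Nat.le_mul_of_pos_left v hu).trans h3
    · rcases hor with ⟨h4, _⟩ | h4
      · exact Or.inl h4
      · exact Or.inr h4
  -- small exponents
  obtain ⟨A, hA⟩ : ∃ A : Finset ℕ, A = (Q4 N).filter (fun c => ∃ u v w k : ℕ, k ≤ K ∧ 3 ≤ k ∧
    (u, v) ∈ PR2 R ∧ c = u * v * w ∧ ((2 * w ^ k = u ^ (2 * k) + v ^ (2 * k)) ∨
      64 * w ^ k = 64 * u ^ (2 * k) + v ^ (2 * k))) := ⟨_, rfl⟩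
  have hAcard : (A.card : ℝ) ≤ 2 * K * (R * (1 + Real.log R)) := by
    have hex : ∀ c ∈ A, ∃ t : (ℕ × ℕ) × ℕ × ℕ, t ∈ (PR2 R) ×ˢ ((Icc 1 K) ×ˢ (range 2)) ∧
        ∃ w : ℕ, c = t.1.1 * t.1.2 * w ∧ 3 ≤ t.2.1 ∧
        ((t.2.2 = 0 ∧ 2 * w ^ t.2.1 = t.1.1 ^ (2 * t.2.1) + t.1.2 ^ (2 * t.2.1)) ∨
        (t.2.2 = 1 ∧ 64 * w ^ t.2.1 = 64 * t.1.1 ^ (2 * t.2.1) + t.1.2 ^ (2 * t.2.1))) := by
      intro c hc
      rw [hA] at hc
      obtain ⟨_, u, v, w, k, hkK, hk3, huv, hcw, hor⟩ := Finset.mem_filter.1 hc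
      rcases hor with h1 | h1
      · exact ⟨((u, v), k, 0), Finset.mem_product.2 ⟨huv, Finset.mem_product.2
          ⟨Finset.mem_Icc.2 ⟨(by norm_num : 1 ≤ 3).trans hk3, hkK⟩, Finset.mem_range.2 (by norm_num)⟩⟩, w, hcw, hk3,
          Or.inl ⟨rfl, h1⟩⟩
      · exact ⟨((u, v), k, 1), Finset.mem_product.2 ⟨huv, Finset.mem_product.2
          ⟨Finset.mem_Icc.2 ⟨(by norm_num : 1 ≤ 3).trans hk3, hkK⟩, Finset.mem_range.2 (by norm_num)⟩⟩, w, hcw, hk3,
          Or.inr ⟨rfl, h1⟩⟩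
    choose! f hf using hex
    have h1 : A.card ≤ ((PR2 R) ×ˢ ((Icc 1 K) ×ˢ (range 2))).card := by
      refine Finset.card_le_card_of_injOn f (fun c hc => (hf c hc).1) ?_
      intro c hc d hd hcd
      obtain ⟨w, hw1, hw3, hw2⟩ := (hf c hc).2
      obtain ⟨w', hw1', _, hw2'⟩ := (hf d hd).2
      rw [hcd] at hw1 hw2 hw3
      have hww : w ^ (f d).2.1 = w' ^ (f d).2.1 := by
        rcases hw2 with ⟨e1, e2⟩ | ⟨e1, e2⟩ <;> rcases hw2' with ⟨e3, e4⟩ | ⟨e3, e4⟩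
        · exact Nat.eq_of_mul_eq_mul_left (by norm_num) (e2.trans e4.symm)
        · omega
        · omega
        · exact Nat.eq_of_mul_eq_mul_left (by norm_num) (e2.trans e4.symm)
      have hww' : w = w' := Nat.pow_left_injective (by omega) hww
      calc c = (f d).1.1 * (f d).1.2 * w := hw1
        _ = (f d).1.1 * (f d).1.2 * w' := by rw [hww']
        _ = d := hw1'.symm
    rw [Finset.card_product, Finset.card_product, Nat.card_Icc, Finset.card_range,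
      Nat.add_sub_cancel] at h1
    have h2 : (A.card : ℝ) ≤ (PR2 R).card * (K * 2) := by exact_mod_cast h1
    refine h2.trans ?_
    calc ((PR2 R).card : ℝ) * (K * 2) ≤ (R * (1 + Real.log R)) * (K * 2) :=
          mul_le_mul_of_nonneg_right (card_PR2 R) (by positivity)
      _ = _ := by ring
  -- large exponents
  obtain ⟨B, hB⟩ : ∃ B : Finset ℕ, B = (PR2 R).biUnion (fun q =>
    (W4 N K q.1 q.2 (q.1 ^ 2) ∪ W4 N K q.1 q.2 (q.2 ^ 2)).image (fun w => q.1 * q.2 * w)) := ⟨_, rfl⟩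
  have hBcard : (B.card : ℝ) ≤ 1008 * N / K * (1 + Real.log R) ^ 2 := by
    have h1 : B.card ≤ ∑ q ∈ PR2 R, ((W4 N K q.1 q.2 (q.1 ^ 2)).card + (W4 N K q.1 q.2 (q.2 ^ 2)).card) := by
      rw [hB]
      refine Finset.card_biUnion_le.trans ?_
      exact Finset.sum_le_sum fun q _ => Finset.card_image_le.trans (Finset.card_union_le _ _)
    have h2 : (B.card : ℝ) ≤ ∑ q ∈ PR2 R, (((W4 N K q.1 q.2 (q.1 ^ 2)).card : ℝ) +
        ((W4 N K q.1 q.2 (q.2 ^ 2)).card : ℝ)) := by exact_mod_cast h1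
    refine h2.trans ?_
    calc ∑ q ∈ PR2 R, (((W4 N K q.1 q.2 (q.1 ^ 2)).card : ℝ) +
        ((W4 N K q.1 q.2 (q.2 ^ 2)).card : ℝ)) ≤
        ∑ q ∈ PR2 R, 1008 * N / K * (1 / ((q.1 : ℝ) * q.2)) := by
          refine Finset.sum_le_sum fun q hq => ?_
          obtain ⟨h3, _⟩ := Finset.mem_filter.1 hq
          obtain ⟨h5, h6⟩ := Finset.mem_product.1 h3
          have e1 := card_W4 (N := N) (K := K) (u := q.1) (v := q.2) (M := q.1 ^ 2) hK
            (Finset.mem_Icc.1 h5).1 (Finset.mem_Icc.1 h6).1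
          have e2 := card_W4 (N := N) (K := K) (u := q.1) (v := q.2) (M := q.2 ^ 2) hK
            (Finset.mem_Icc.1 h5).1 (Finset.mem_Icc.1 h6).1
          have e3 : 1008 * (N : ℝ) / K * (1 / ((q.1 : ℝ) * q.2)) =
            504 * N / K * (1 / ((q.1 : ℝ) * q.2)) + 504 * N / K * (1 / ((q.1 : ℝ) * q.2)) := by ring
          rw [e3]
          exact add_le_add e1 e2
      _ = 1008 * N / K * ∑ q ∈ PR2 R, (1 : ℝ) / (q.1 * q.2) := by rw [Finset.mul_sum]
      _ ≤ _ := mul_le_mul_of_nonneg_left (sum_PR2 R) (by positivity)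
  have hcov : Q4 N ⊆ A ∪ B := by
    intro c hc
    obtain ⟨u, v, w, k, hk, huv, hw, hcuv, hor, M, hM, h1, h2, h3, h4⟩ := hst c hc
    have hcN := (Finset.mem_Icc.1 (Finset.mem_filter.1 hc).1)
    rw [Finset.mem_union]
    rcases Nat.lt_or_ge K k with hkK | hkK
    · right
      have hdiv : 63 * (M : ℝ) / k ≤ 63 * M / K := by
        apply div_le_div_of_nonneg_left (by positivity) (by exact_mod_cast hK)
        exact_mod_cast hkK.le
      have hmem : w ∈ W4 N K u v M := by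
        refine Finset.mem_filter.2 ⟨Finset.mem_Icc.2 ⟨hw, ?_⟩, ?_, h1, h2, h3.trans hdiv, h4.trans hdiv⟩
        · have hq := Finset.mem_product.1 (Finset.mem_filter.1 huv).1
          have e1 := (Finset.mem_Icc.1 hq.1).1
          have e2 := (Finset.mem_Icc.1 hq.2).1
          have e3 : w ≤ u * v * w := Nat.le_mul_of_pos_left w (Nat.mul_pos e1 e2)
          omega
        · rw [← hcuv]
          exact hcN.2
      rw [hB]
      refine Finset.mem_biUnion.2 ⟨(u, v), huv, Finset.mem_image.2 ⟨w, ?_, hcuv.symm⟩⟩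
      rw [Finset.mem_union]
      rcases hM with rfl | rfl
      · exact Or.inl hmem
      · exact Or.inr hmem
    · left
      rw [hA]
      exact Finset.mem_filter.2 ⟨hc, u, v, w, k, hkK, hk, huv, hcuv, hor⟩
  have h1 : ((Q4 N).card : ℝ) ≤ A.card + B.card := by
    exact_mod_cast (Finset.card_le_card hcov).trans (Finset.card_union_le _ _)
  linarith

lemma evQ4 {δ : ℝ} (hδ : 0 < δ) : ∀ᶠ N : ℕ in atTop, ((Q4 N).card : ℝ) ≤ δ * N := by
  have h1 : ∀ᶠ N : ℕ in atTop, ‖Real.log N‖ ≤ 1 * ‖(N : ℝ) ^ (1 / 16 : ℝ)‖ :=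
    ((isLittleO_log_rpow_atTop (show (0 : ℝ) < 1 / 16 by norm_num)).comp_tendsto
      tendsto_natCast_atTop_atTop).def (by norm_num)
  have h2 := ev_div (tpow (show (0 : ℝ) < 1 / 8 by norm_num)) 60000 hδ
  have h3 := (tpow (show (0 : ℝ) < 1 / 4 by norm_num)).eventually_ge_atTop 2
  filter_upwards [h1, h2, h3, eventually_ge_atTop 3] with N h1 h2 h3 hN
  have hNR : (3 : ℝ) ≤ N := by exact_mod_cast hN
  have hl1 : 1 ≤ Real.log N := by
    rw [Real.le_log_iff_exp_le (by linarith)]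
    have := Real.exp_one_lt_d9
    linarith
  rw [Real.norm_of_nonneg (by linarith), Real.norm_of_nonneg (by positivity), one_mul] at h1
  obtain ⟨K, hK⟩ : ∃ K : ℕ, K = ⌊(N : ℝ) ^ (1 / 4 : ℝ)⌋₊ := ⟨_, rfl⟩
  have hK1 : 1 ≤ K := by
    rw [hK, Nat.one_le_floor_iff]
    linarith
  have hKle : (K : ℝ) ≤ (N : ℝ) ^ (1 / 4 : ℝ) := by
    rw [hK]
    exact Nat.floor_le (by positivity)
  have hKge : (N : ℝ) ^ (1 / 4 : ℝ) / 2 ≤ K := by
    have := Nat.lt_floor_add_one ((N : ℝ) ^ (1 / 4 : ℝ))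
    rw [← hK] at this
    linarith
  have hcard := card_Q4 N K (by omega) hK1
  obtain ⟨R, hR⟩ : ∃ R : ℕ, R = Nat.sqrt (2 * N) := ⟨_, rfl⟩
  rw [← hR] at hcard
  have hR1 : 1 ≤ R := by
    rw [hR, Nat.le_sqrt]
    omega
  have hRsq : (R : ℝ) ^ 2 ≤ 2 * N := by
    have h4 := Nat.sqrt_le' (2 * N)
    rw [← hR] at h4
    exact_mod_cast h4
  have hRle : (R : ℝ) ≤ 2 * (N : ℝ) ^ (1 / 2 : ℝ) := by
    have h4 : (R : ℝ) ^ 2 ≤ (2 * (N : ℝ) ^ (1 / 2 : ℝ)) ^ 2 := by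
      rw [mul_pow, ← Real.rpow_natCast ((N : ℝ) ^ (1 / 2 : ℝ)), ← Real.rpow_mul (by linarith)]
      norm_num
      linarith
    exact le_of_pow_le_pow_left₀ (by norm_num) (by positivity) h4
  have hlogR : 1 + Real.log R ≤ 2 * (N : ℝ) ^ (1 / 16 : ℝ) := by
    have h4 : Real.log R ≤ Real.log N := by
      apply Real.log_le_log (by exact_mod_cast hR1)
      have : (R : ℝ) ^ 2 ≤ (N : ℝ) ^ 2 := by nlinarith
      exact le_of_pow_le_pow_left₀ (by norm_num) (by positivity) this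
    linarith
  have hlogR0 : 0 ≤ 1 + Real.log R := by
    have : 0 ≤ Real.log R := Real.log_nonneg (by exact_mod_cast hR1)
    linarith
  obtain ⟨x, hx⟩ : ∃ x : ℝ, x = (N : ℝ) ^ (1 / 16 : ℝ) := ⟨_, rfl⟩
  have hx0 : 0 < x := by rw [hx]; positivity
  have hx1 : 1 ≤ x := by
    rw [hx]
    exact Real.one_le_rpow (by linarith) (by norm_num)
  have e16 : (N : ℝ) = x ^ 16 := by
    rw [hx, ← Real.rpow_natCast, ← Real.rpow_mul (by linarith)]
    norm_num
  have e4 : (N : ℝ) ^ (1 / 4 : ℝ) = x ^ 4 := by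
    rw [hx, ← Real.rpow_natCast, ← Real.rpow_mul (by linarith)]
    norm_num
  have e8 : (N : ℝ) ^ (1 / 2 : ℝ) = x ^ 8 := by
    rw [hx, ← Real.rpow_natCast, ← Real.rpow_mul (by linarith)]
    norm_num
  have e2 : (N : ℝ) ^ (1 / 8 : ℝ) = x ^ 2 := by
    rw [hx, ← Real.rpow_natCast, ← Real.rpow_mul (by linarith)]
    norm_num
  rw [← hx] at hlogR
  rw [e4] at hKle hKge
  rw [e8] at hRle
  rw [e2] at h2
  have hK0 : (0 : ℝ) < K := by exact_mod_cast hK1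
  have p1 : 2 * (K : ℝ) * (R * (1 + Real.log R)) ≤ 8 * x ^ 14 := by
    calc 2 * (K : ℝ) * (R * (1 + Real.log R)) ≤ 2 * x ^ 4 * ((2 * x ^ 8) * (2 * x)) := by
          apply mul_le_mul _ _ (by positivity) (by positivity)
          · linarith
          · exact mul_le_mul hRle hlogR hlogR0 (by positivity)
      _ = 8 * x ^ 13 := by ring
      _ ≤ 8 * x ^ 14 := by
          have : x ^ 13 ≤ x ^ 14 := pow_le_pow_right₀ hx1 (by norm_num)
          linarith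
  have p2 : 1008 * (N : ℝ) / K * (1 + Real.log R) ^ 2 ≤ 8064 * x ^ 14 := by
    have q1 : 1008 * (N : ℝ) / K ≤ 2016 * x ^ 12 := by
      rw [div_le_iff₀ hK0, e16]
      have : x ^ 16 = x ^ 12 * x ^ 4 := by ring
      have hx12 : 0 ≤ x ^ 12 := by positivity
      nlinarith
    have q2 : (1 + Real.log R) ^ 2 ≤ (2 * x) ^ 2 := pow_le_pow_left₀ hlogR0 hlogR 2
    calc 1008 * (N : ℝ) / K * (1 + Real.log R) ^ 2 ≤ (2016 * x ^ 12) * (2 * x) ^ 2 :=
          mul_le_mul q1 q2 (by positivity) (by positivity)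
      _ = 8064 * x ^ 14 := by ring
  have p3 : 60000 ≤ δ * x ^ 2 := by
    rwa [div_le_iff₀ (by positivity)] at h2
  calc ((Q4 N).card : ℝ) ≤ _ := hcard
    _ ≤ 8 * x ^ 14 + 8064 * x ^ 14 := add_le_add p1 p2
    _ ≤ 60000 * x ^ 14 := by
        have : 0 ≤ x ^ 14 := by positivity
        linarith
    _ ≤ (δ * x ^ 2) * x ^ 14 := mul_le_mul_of_nonneg_right p3 (by positivity)
    _ = δ * N := by rw [e16]; ring

end Pool.Agent.TH863.D
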