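import Mathlib
import Pool.Agent.TH863.D.Fin
import Pool.Agent.TH863.D.FourCount

/-!
Composite exponents with a common divisor `≥ 3`.
-/

set_option autoImplicit false

namespace Pool.Agent.TH863.D

open Finset Filter

lemma gcd_cases {m k : ℕ} (h : 3 ≤ Nat.gcd m k) :
    (∃ p, p.Prime ∧ p ≠ 2 ∧ p ∣ m ∧ p ∣ k) ∨ (4 ∣ m ∧ 4 ∣ k) := by
  rcases Nat.four_dvd_or_exists_odd_prime_and_dvd_of_two_lt (show 2 < Nat.gcd m k by omega) with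
    h1 | ⟨p, hp, hpd, hodd⟩
  · exact Or.inr (Nat.dvd_gcd_iff.1 h1)
  · refine Or.inl ⟨p, hp, ?_, (Nat.dvd_gcd_iff.1 hpd).1, (Nat.dvd_gcd_iff.1 hpd).2⟩
    rintro rfl
    revert hodd
    decide

/-- a prime exponent dividing both exponents -/
lemma mem_BB {N b a c m n k p : ℕ} (hb : b ∈ Icc 1 N) (ha : 0 < a) (hc : 0 < c)
    (hco : Nat.Coprime a c) (hp : p.Prime) (hp2 : p ≠ 2) (hpm : p ∣ m) (hpk : p ∣ k)
    (hn : (Odd n ∧ 3 ≤ n) ∨ (n = 2 ∧ 5 ≤ p)) (h : a ^ m + b ^ n = c ^ k) : b ∈ BB N := by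
  classical
  obtain ⟨m', rfl⟩ := hpm
  obtain ⟨k', rfl⟩ := hpk
  refine Finset.mem_filter.2 ⟨hb, c ^ k', a ^ m', p, n, Nat.pow_pos hc, Nat.pow_pos ha, hp, hp2,
    Nat.Coprime.pow _ _ hco.symm, hn, ?_⟩
  rw [← pow_mul, ← pow_mul, mul_comm k', mul_comm m', ← h, add_comm]

/-- Almost all `b`: no difference of two coprime powers with exponents having a common divisor
`≥ 3` is an odd power `≥ 3` of `b`, and none with exponents having a common prime divisor `≥ 5` is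
the square of `b`. -/
theorem final {ε : ℝ} (hε : 0 < ε) : ∃ N₀ : ℕ, ∀ N : ℕ, N₀ ≤ N →
    (({b : ℕ | 0 < b ∧ b ≤ N ∧ ∃ a c m n k : ℕ, 0 < a ∧ 0 < c ∧ Nat.Coprime a c ∧
      ((Odd n ∧ 3 ≤ n ∧ 3 ≤ Nat.gcd m k) ∨ (n = 2 ∧ ∃ p : ℕ, p.Prime ∧ 5 ≤ p ∧ p ∣ m ∧ p ∣ k)) ∧
      a ^ m + b ^ n = c ^ k}.ncard : ℕ) : ℝ) ≤ ε * N := by
  classical
  have h1 := main (ε := ε / 2) (by positivity)
  have h2 := evQ4 (δ := ε / 2) (by positivity)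
  obtain ⟨N₀, h⟩ := eventually_atTop.1 (h1.and h2)
  refine ⟨N₀, fun N hN => ?_⟩
  obtain ⟨h3, h4⟩ := h N hN
  have hsub : {b : ℕ | 0 < b ∧ b ≤ N ∧ ∃ a c m n k : ℕ, 0 < a ∧ 0 < c ∧ Nat.Coprime a c ∧
      ((Odd n ∧ 3 ≤ n ∧ 3 ≤ Nat.gcd m k) ∨ (n = 2 ∧ ∃ p : ℕ, p.Prime ∧ 5 ≤ p ∧ p ∣ m ∧ p ∣ k)) ∧
      a ^ m + b ^ n = c ^ k} ⊆ ((BB N ∪ Q4 N : Finset ℕ) : Set ℕ) := by
    rintro b ⟨hb0, hbN, a, c, m, n, k, ha, hc, hco, hor, h⟩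
    have hbI : b ∈ Icc 1 N := Finset.mem_Icc.2 ⟨hb0, hbN⟩
    rw [Finset.mem_coe, Finset.mem_union]
    rcases hor with ⟨hodd, hn3, hg⟩ | ⟨hn2, p, hp, hp5, hpm, hpk⟩
    · rcases gcd_cases hg with ⟨p, hp, hp2, hpm, hpk⟩ | ⟨h4m, h4k⟩
      · exact Or.inl (mem_BB hbI ha hc hco hp hp2 hpm hpk (Or.inl ⟨hodd, hn3⟩) h)
      · obtain ⟨m', rfl⟩ := h4m
        obtain ⟨k', rfl⟩ := h4k
        refine Or.inr (Finset.mem_filter.2 ⟨hbI, c ^ k', a ^ m', n, hn3, Nat.pow_pos ha,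
          Nat.Coprime.pow _ _ hco.symm, ?_⟩)
        rw [← pow_mul, ← pow_mul, mul_comm k', mul_comm m', ← h, add_comm]
    · exact Or.inl (mem_BB hbI ha hc hco hp (by omega) hpm hpk (Or.inr ⟨hn2, hp5⟩) h)
  have h5 := Set.ncard_le_ncard hsub (Finset.finite_toSet _)
  rw [Set.ncard_coe_finset] at h5
  have h6 := h5.trans (Finset.card_union_le _ _)
  have h7 : (({b : ℕ | 0 < b ∧ b ≤ N ∧ ∃ a c m n k : ℕ, 0 < a ∧ 0 < c ∧ Nat.Coprime a c ∧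
      ((Odd n ∧ 3 ≤ n ∧ 3 ≤ Nat.gcd m k) ∨ (n = 2 ∧ ∃ p : ℕ, p.Prime ∧ 5 ≤ p ∧ p ∣ m ∧ p ∣ k)) ∧
      a ^ m + b ^ n = c ^ k}.ncard : ℕ) : ℝ) ≤ (BB N).card + (Q4 N).card := by
    exact_mod_cast h6
  linarith

end Pool.Agent.TH863.D
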